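import Pool.Agent.N234.CP.LiftAll
import Pool.Agent.N234.CP.Sys
import Pool.Agent.W740.TC.Main
import Pool.Agent.H779R2.An.Periodic
import Pool.Agent.TH304.K289.J920
import Pool.Agent.TH289.K.Def

set_option autoImplicit false
set_option linter.unusedSectionVars false

open Filter Topology Set Metric
open scoped Manifold ContDiff Pointwise

namespace Pool.Agent.N234.CP

open Pool.Agent.H721R2 Pool.Agent.H789R2.AN Pool.Agent.H789R2.GP
open Pool.Agent.W740.TC (att_univ)
open Pool.Agent.TH289.K (GPS)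
open Pool.Agent.TH304.K289.J920 (gps_of_qs)

universe u v w

/-- Abstract form: all lifts exist. -/
theorem abs_main {X : Type v} {E : Type w} [MetricSpace X] [CompactSpace X] [NormedAddCommGroup E]
    [InnerProductSpace ℝ E] [FiniteDimensional ℝ E] {E' : Type u} [NormedAddCommGroup E']
    [NormedSpace ℝ E'] [ProperSpace E'] [ChartedSpace E' X] [ConnectedSpace X]
    (hQ : S_QSX.{v}) (S : HypSys X E) {c : ℝ} (h : LP S.g c)
    (hall : ∀ a s, WS S.g a s → Lf S.g a s) {f : X ≃ₜ X} {n : ℕ} (hn : 1 ≤ n)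
    (hf : S.g = iterHomeo f n) :
    (∀ U V : Set X, IsOpen U → U.Nonempty → IsOpen V → V.Nonempty →
      ∃ n : ℕ, (S.g^[n] '' U ∩ V).Nonempty) ∧ GPS f ∧ (∃ q : E' → X, IsCoveringMap q) := by
  have hX : ULC X := ulc_of_charted (X := X) (E := E')
  obtain ⟨c₁, hc₁, T, -, hT1, hT2⟩ := hQ X S.g c h hX hall
  obtain ⟨q, hq, p, hp⟩ := S.exists_periodic
  refine ⟨fun U V hU hUn hV hVn =>
    transitive_of_unique h (att_univ h hc₁ T) U V hU hUn hV hVn, ?_,
    exists_covering h hc₁ T p q hq hp⟩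
  have key : ∀ (g : X ≃ₜ X) (_ : LP g c) (T : QS g c₁)
      (_ : ∀ a s u x, T.Q a s u x → T.Q (g a) (g s) (g u) (g x))
      (_ : ∀ a s u x, T.Q a s u x → T.Q (g.symm a) (g.symm s) (g.symm u) (g.symm x)),
      g = iterHomeo f n → GPS f := by
    intro g h T hT1 hT2 hg
    subst hg
    exact gps_of_qs hn h hc₁ T hT1 hT2
  exact key S.g h T hT1 hT2 hf

/-- Lower rate of an abstract hyperbolic system. -/
theorem loRate {X : Type v} {E : Type w} [MetricSpace X] [NormedAddCommGroup E]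
    [NormedSpace ℝ E] (S : HypSys X E) {κ : ℝ} (hκ : S.a < Real.exp (-κ)) (hκ0 : 0 ≤ κ) :
    ∃ δ₀ > 0, ∀ δ : ℝ, 0 < δ → δ ≤ δ₀ → LoRate S.g δ κ := by
  obtain ⟨ε₁, hε₁, hcon⟩ := S.contraction_iter _ hκ
  refine ⟨ε₁, hε₁, fun δ hδ hδ₀ => ⟨1, one_pos, fun N n x y hN hs => ?_⟩⟩
  obtain ⟨z, h0, h1, h2⟩ := hs
  intro k
  rw [← Function.iterate_add_apply, ← Function.iterate_add_apply]
  have key : ∀ i ≤ N, dist (S.g^[k + n] (z 0)) (S.g^[k + n] (z i)) ≤
      i * (Real.exp (-κ) ^ (k + n) * δ) := by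
    intro i
    induction i with
    | zero => intro _; simp
    | succ i ih =>
      intro hi
      have h3 := ih (by omega)
      have h4 := hcon (z i) (z (i + 1)) (fun j => (h2 i (by omega) j).trans hδ₀) (k + n)
      have h5 : dist (z i) (z (i + 1)) ≤ δ := h2 i (by omega) 0
      have h6 : Real.exp (-κ) ^ (k + n) * dist (z i) (z (i + 1)) ≤
          Real.exp (-κ) ^ (k + n) * δ := mul_le_mul_of_nonneg_left h5 (by positivity)
      have h7 := dist_triangle (S.g^[k + n] (z 0)) (S.g^[k + n] (z i)) (S.g^[k + n] (z (i + 1)))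
      push_cast
      linarith
  have h8 := key N le_rfl
  rw [h0, h1] at h8
  refine h8.trans ?_
  rw [one_mul] at hN
  have h9 : Real.exp (-κ) ^ (k + n) = Real.exp (-(κ * k)) * Real.exp (-(κ * n)) := by
    rw [← Real.exp_nat_mul, ← Real.exp_add]
    congr 1
    push_cast
    ring
  have h10 : Real.exp (-(κ * k)) ≤ 1 := by
    rw [Real.exp_le_one_iff]
    have : 0 ≤ κ * k := by positivity
    linarith
  have h11 : Real.exp (κ * n) * Real.exp (-(κ * n)) = 1 := by
    rw [← Real.exp_add]; simp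
  calc (N : ℝ) * (Real.exp (-κ) ^ (k + n) * δ)
      = (N : ℝ) * Real.exp (-(κ * n)) * Real.exp (-(κ * k)) * δ := by rw [h9]; ring
    _ ≤ Real.exp (κ * n) * Real.exp (-(κ * n)) * 1 * δ := by
        apply mul_le_mul_of_nonneg_right _ hδ.le
        apply mul_le_mul _ h10 (Real.exp_pos _).le (by positivity)
        exact mul_le_mul_of_nonneg_right hN (Real.exp_pos _).le
    _ = δ := by rw [h11]; ring

end Pool.Agent.N234.CP
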