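import Pool.Agent.H789R2.GP.Br
import Pool.Agent.H789R2.AN.Def

set_option autoImplicit false

open Filter Topology Set Metric

namespace Pool.Agent.N234.CP

open Pool.Agent.H721R2 Pool.Agent.H789R2.AN Pool.Agent.H789R2.GP

/-- `N` stable steps of size `δ` from `x` to `y`. -/
def Steps {X : Type*} [MetricSpace X] (g : X ≃ₜ X) (δ : ℝ) (N : ℕ) (x y : X) : Prop :=
  ∃ z : ℕ → X, z 0 = x ∧ z N = y ∧ ∀ i < N, SR g δ (z i) (z (i + 1))

/-- Coarse upper rate: the `n`-th preimage of a stable step of size `δ` is covered by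
`C exp (σ n)` steps. -/
def UpRate {X : Type*} [MetricSpace X] (g : X ≃ₜ X) (δ σ : ℝ) : Prop :=
  ∃ C : ℝ, ∀ x y, SR g δ x y → ∀ n : ℕ, ∃ N : ℕ, (N : ℝ) ≤ C * Real.exp (σ * n) ∧
    Steps g δ N (g.symm^[n] x) (g.symm^[n] y)

/-- Coarse lower rate: `N` stable steps of size `δ` become one step after `n` iterations if
`C N ≤ exp (σ n)`. -/
def LoRate {X : Type*} [MetricSpace X] (g : X ≃ₜ X) (δ σ : ℝ) : Prop :=
  ∃ C : ℝ, 0 < C ∧ ∀ (N n : ℕ) (x y : X), C * N ≤ Real.exp (σ * n) → Steps g δ N x y →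
    SR g δ (g^[n] x) (g^[n] y)

/-- `X` is covered by `C exp (κ n)` dynamical balls of `g` of length `n` and radius `θ`. -/
def HCov {X : Type*} [MetricSpace X] (g : X ≃ₜ X) (κ : ℝ) : Prop :=
  ∀ θ > 0, ∃ C : ℝ, ∀ n : ℕ, ∃ Y : Finset X, (Y.card : ℝ) ≤ C * Real.exp (κ * n) ∧
    ∀ x, ∃ y ∈ Y, ∀ k ≤ n, dist (g^[k] x) (g^[k] y) ≤ θ

/-- Discs tangent to the field of subspaces `V`, with relative error `η`. -/
def Discs {X F : Type*} [NormedAddCommGroup F] [NormedSpace ℝ F] (e : X → F)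
    (V : X → Submodule ℝ F) (η r : ℝ) (D : X → F → X) : Prop :=
  ∀ x, D x 0 = x ∧ ∀ v ∈ V x, ∀ v' ∈ V x, ‖v‖ < r → ‖v'‖ < r →
    ‖e (D x v) - e (D x v') - (v - v')‖ ≤ η * ‖v - v'‖

/-- chains of length `N` in the direction `j` of the cube `[0,1]^d`, consecutive points in one of
the sets `B y` -/
def CChain {κ : Type*} {d : ℕ} (B : κ → Set (Fin d → ℝ)) (j : Fin d) (N : ℕ)
    (c : ℕ → Fin d → ℝ) : Prop :=
  (∀ k ≤ N, ∀ i, 0 ≤ c k i ∧ c k i ≤ 1) ∧ c 0 j = 0 ∧ c N j = 1 ∧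
    ∀ k < N, ∃ y, c k ∈ B y ∧ c (k + 1) ∈ B y

/-- Properties of the local product `br x y ∈ W^s(x) ∩ W^u(y)`, see `exists_br`. -/
structure BrP {X : Type*} [MetricSpace X] (g : X ≃ₜ X) (c : ℝ) (br : X → X → X) (δ : ℝ) :
    Prop where
  pos : 0 < δ
  b1 : ∀ x y, dist x y < δ → SR g (c / 3) x (br x y) ∧ SR g.symm (c / 3) y (br x y)
  b2 : ∀ ε > 0, ∃ η > 0, ∀ x y, dist x y < η → SR g ε x (br x y) ∧ SR g.symm ε y (br x y)
  b3 : ∀ x y z, dist x y < δ → SR g (c / 3) x z → SR g.symm (c / 3) y z → z = br x y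
  b4 : ∀ ε > 0, ∃ η > 0, ∀ x x' y y', dist x y < δ → dist x' y' < δ → dist x x' < η →
    dist y y' < η → dist (br x y) (br x' y') < ε

/-- Contraction of the field `V` at the rate `s` by `f`. -/
def ContractsAt {E : Type*} [NormedAddCommGroup E] [NormedSpace ℝ E]
    {M : Type*} [TopologicalSpace M] [ChartedSpace E M] [IsManifold (modelWithCornersSelf ℝ E) 1 M]
    (f : M → M) (V : ∀ x : M, Submodule ℝ (TangentSpace (modelWithCornersSelf ℝ E) x))
    (s : ℝ) : Prop :=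
  ∃ (N : TangentBundle (modelWithCornersSelf ℝ E) M → ℝ) (C : ℝ), IsTangentNorm N ∧ 0 < C ∧
    ∀ (n : ℕ) (x : M), ∀ v ∈ V x,
      N (tangentMap (modelWithCornersSelf ℝ E) (modelWithCornersSelf ℝ E) (f^[n]) ⟨x, v⟩) ≤
        C * Real.exp (-s) ^ n * N ⟨x, v⟩

/-- The topological entropy of `f` on the compact space `M` (Mathlib's `Dynamics.coverEntropy`, for
the unique uniform structure of `M`). -/
noncomputable def topEntropy {M : Type*} [TopologicalSpace M] [CompactSpace M] [T2Space M]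
    (f : M → M) : EReal :=
  letI := uniformSpaceOfCompactR1 (γ := M)
  Dynamics.coverEntropy f Set.univ

end Pool.Agent.N234.CP
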