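import Pool.Agent.N234.CP.Stm
import Pool.Agent.H63Fed.Miranda

set_option autoImplicit false

open Filter Topology Set Metric

namespace Pool.Agent.N234.CP.Bes

universe u

/-- the unit cube -/
def Cube (d : ℕ) : Set (Fin d → ℝ) := {c | ∀ i, 0 ≤ c i ∧ c i ≤ 1}

theorem cube_closed (d : ℕ) : IsClosed (Cube d) := by
  have : Cube d = ⋂ i, ({c | 0 ≤ c i} ∩ {c | c i ≤ 1}) := by
    ext c
    simp only [Cube, Set.mem_ofPred_eq, Set.mem_iInter, Set.mem_inter_iff]
  rw [this]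
  exact isClosed_iInter fun i => (isClosed_le continuous_const (continuous_apply i)).inter
    (isClosed_le (continuous_apply i) continuous_const)

variable {κ : Type u} {d : ℕ}

/-- the points reached from the face `c j = 0` by at most `a` steps -/
def Lv (B : κ → Set (Fin d → ℝ)) (j : Fin d) : ℕ → Set (Fin d → ℝ)
  | 0 => {c | c ∈ Cube d ∧ c j = 0}
  | a + 1 => ⋃ y ∈ {y : κ | ∃ c, c ∈ B y ∧ c ∈ Lv B j a}, B y ∩ Cube d

theorem mem_succ {B : κ → Set (Fin d → ℝ)} {j : Fin d} {a : ℕ} {c : Fin d → ℝ} :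
    c ∈ Lv B j (a + 1) ↔ c ∈ Cube d ∧ ∃ y, c ∈ B y ∧ ∃ c', c' ∈ B y ∧ c' ∈ Lv B j a := by
  show c ∈ ⋃ y ∈ {y : κ | ∃ c, c ∈ B y ∧ c ∈ Lv B j a}, B y ∩ Cube d ↔ _
  simp only [Set.mem_iUnion, Set.mem_inter_iff]
  constructor
  · rintro ⟨y, ⟨c', h1, h2⟩, h3, h4⟩
    exact ⟨h4, y, h3, c', h1, h2⟩
  · rintro ⟨h4, y, h3, c', h1, h2⟩
    exact ⟨y, ⟨c', h1, h2⟩, h3, h4⟩

theorem sub_cube {B : κ → Set (Fin d → ℝ)} {j : Fin d} {a : ℕ} : Lv B j a ⊆ Cube d := by
  intro c hc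
  cases a with
  | zero => exact hc.1
  | succ a => exact (mem_succ.1 hc).1

theorem lv_closed [Fintype κ] {B : κ → Set (Fin d → ℝ)} (hB : ∀ y, IsClosed (B y)) (j : Fin d)
    (a : ℕ) : IsClosed (Lv B j a) := by
  cases a with
  | zero =>
    exact (cube_closed d).inter (isClosed_eq (continuous_apply j) continuous_const)
  | succ a =>
    exact (Set.toFinite _).isClosed_biUnion fun y _ => (hB y).inter (cube_closed d)

theorem lv_succ {B : κ → Set (Fin d → ℝ)} (hcov : ∀ c ∈ Cube d, ∃ y, c ∈ B y) (j : Fin d) (a : ℕ) :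
    Lv B j a ⊆ Lv B j (a + 1) := by
  intro c hc
  obtain ⟨y, hy⟩ := hcov c (sub_cube hc)
  exact mem_succ.2 ⟨sub_cube hc, y, hy, c, hy, hc⟩

theorem lv_mono {B : κ → Set (Fin d → ℝ)} (hcov : ∀ c ∈ Cube d, ∃ y, c ∈ B y) (j : Fin d) :
    Monotone (Lv B j) := monotone_nat_of_le_succ (lv_succ hcov j)

/-- the chain leading to a point -/
theorem chain {B : κ → Set (Fin d → ℝ)} {j : Fin d} {a : ℕ} : ∀ {c : Fin d → ℝ}, c ∈ Lv B j a →
    ∃ g : ℕ → Fin d → ℝ, (∀ k ≤ a, g k ∈ Cube d) ∧ g 0 j = 0 ∧ g a = c ∧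
      ∀ k < a, ∃ y, g k ∈ B y ∧ g (k + 1) ∈ B y := by
  induction a with
  | zero =>
    intro c hc
    exact ⟨fun _ => c, fun _ _ => hc.1, hc.2, rfl, fun k hk => absurd hk (Nat.not_lt_zero k)⟩
  | succ a ih =>
    intro c hc
    obtain ⟨h1, y, h2, c', h3, h4⟩ := mem_succ.1 hc
    obtain ⟨g, g1, g2, g3, g4⟩ := ih h4
    refine ⟨fun k => if k ≤ a then g k else c, ?_, ?_, ?_, ?_⟩
    · intro k _
      by_cases hk : k ≤ a
      · simp only [if_pos hk]; exact g1 k hk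
      · simp only [if_neg hk]; exact h1
    · simp only [if_pos (Nat.zero_le a)]; exact g2
    · simp only [if_neg (Nat.not_succ_le_self a)]
    · intro k hk
      rcases Nat.lt_succ_iff_lt_or_eq.1 hk with hk' | hk'
      · have e1 : k ≤ a := hk'.le
        have e2 : k + 1 ≤ a := hk'
        simp only [if_pos e1, if_pos e2]
        exact g4 k hk'
      · have e1 : k ≤ a := hk'.le
        have e2 : ¬ k + 1 ≤ a := by omega
        simp only [if_pos e1, if_neg e2]
        rw [hk', g3]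
        exact ⟨y, h3, h2⟩

theorem cchain {B : κ → Set (Fin d → ℝ)} {j : Fin d} {a : ℕ} {c : Fin d → ℝ} (hc : c ∈ Lv B j a)
    (h1 : c j = 1) : ∃ g, CChain B j a g := by
  obtain ⟨g, g1, g2, g3, g4⟩ := chain hc
  exact ⟨g, g1, g2, by rw [g3]; exact h1, g4⟩

/-- the key claim -/
theorem key [Fintype κ] {B : κ → Set (Fin d → ℝ)} (hB : ∀ y, IsClosed (B y))
    (hcov : ∀ c ∈ Cube d, ∃ y, c ∈ B y) (a : Fin d → ℕ)
    (ha : ∀ j, ∀ c ∈ Lv B j (a j), c j ≠ 1) :
    ∃ c ∈ Cube d, ∀ j, c ∈ Lv B j (a j) ∧ ∀ a' < a j, c ∉ Lv B j a' := by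
  obtain ⟨Z, hZ⟩ : ∃ Z : Fin d → Set (Fin d → ℝ), Z = fun j => closure (Cube d \ Lv B j (a j)) :=
    ⟨_, rfl⟩
  have h1Z : (fun _ => 1 : Fin d → ℝ) ∈ Cube d := fun i => ⟨zero_le_one, le_rfl⟩
  have h0Z : (fun _ => 0 : Fin d → ℝ) ∈ Cube d := fun i => ⟨le_rfl, zero_le_one⟩
  have hZne : ∀ j, (Z j).Nonempty := by
    intro j
    rw [hZ]
    exact ⟨fun _ => 1, subset_closure ⟨h1Z, fun h => ha j _ h rfl⟩⟩
  have hAne : ∀ j, (Lv B j (a j)).Nonempty := fun j =>
    ⟨fun _ => 0, lv_mono hcov j (Nat.zero_le _) ⟨h0Z, rfl⟩⟩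
  obtain ⟨c, hc, hF⟩ := H63Fed.Miranda.poincare_miranda d
    (fun c j => infDist c (Lv B j (a j)) - infDist c (Z j))
    (by
      refine Continuous.continuousOn (continuous_pi fun j => ?_)
      exact (continuous_infDist_pt _).sub (continuous_infDist_pt _))
    (by
      intro c hc j hj
      have h1 : c ∈ Lv B j (a j) := lv_mono hcov j (Nat.zero_le _) ⟨hc, hj⟩
      show infDist c (Lv B j (a j)) - infDist c (Z j) ≤ 0
      rw [infDist_zero_of_mem h1]
      have := infDist_nonneg (x := c) (s := Z j)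
      linarith)
    (by
      intro c hc j hj
      have h1 : c ∈ Z j := by
        rw [hZ]
        exact subset_closure ⟨hc, fun h => ha j _ h hj⟩
      show 0 ≤ infDist c (Lv B j (a j)) - infDist c (Z j)
      rw [infDist_zero_of_mem h1]
      have := infDist_nonneg (x := c) (s := Lv B j (a j))
      linarith)
  refine ⟨c, hc, fun j => ?_⟩
  have h1 : infDist c (Lv B j (a j)) - infDist c (Z j) = 0 := congrFun hF j
  have h2 : c ∈ Lv B j (a j) ∧ c ∈ Z j := by
    have hcl := lv_closed hB j (a j)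
    have hclZ : IsClosed (Z j) := by
      rw [hZ]
      exact isClosed_closure
    by_cases h3 : c ∈ Lv B j (a j)
    · refine ⟨h3, ?_⟩
      rw [infDist_zero_of_mem h3] at h1
      exact (hclZ.mem_iff_infDist_zero (hZne j)).2 (by linarith)
    · have h4 : c ∈ Z j := by
        rw [hZ]
        exact subset_closure ⟨hc, h3⟩
      rw [infDist_zero_of_mem h4] at h1
      exact absurd ((hcl.mem_iff_infDist_zero (hAne j)).2 (by linarith)) h3
  refine ⟨h2.1, fun a' ha' h3 => ?_⟩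
  have h4 : IsClosed (⋃ y ∈ {y : κ | c ∉ B y}, B y) :=
    (Set.toFinite _).isClosed_biUnion fun y _ => hB y
  have h5 : c ∈ (⋃ y ∈ {y : κ | c ∉ B y}, B y)ᶜ := by
    intro h
    simp only [Set.mem_iUnion] at h
    obtain ⟨y, hy, hy'⟩ := h
    exact hy hy'
  have h6 := h2.2
  rw [hZ] at h6
  obtain ⟨c', h7, h8, h9⟩ := mem_closure_iff.1 h6 _ h4.isOpen_compl h5
  obtain ⟨y, hy⟩ := hcov c' h8
  have h10 : c ∈ B y := by
    by_contra h11
    apply h7
    simp only [Set.mem_iUnion]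
    exact ⟨y, h11, hy⟩
  exact h9 (lv_mono hcov j ha' (mem_succ.2 ⟨h8, y, hy, c, h10, h3⟩))

/-- the product of the lengths -/
theorem count [Fintype κ] {B : κ → Set (Fin d → ℝ)} (hB : ∀ y, IsClosed (B y))
    (hcov : ∀ c ∈ Cube d, ∃ y, c ∈ B y) (m : Fin d → ℕ)
    (hm : ∀ j, ∀ a < m j, ∀ c ∈ Lv B j a, c j ≠ 1) : ∏ j, m j ≤ 2 ^ d * Fintype.card κ := by
  classical
  obtain ⟨T, hT⟩ : ∃ T : Finset (Fin d → ℕ),
    T = Fintype.piFinset fun j => Finset.range ((m j + 1) / 2) := ⟨_, rfl⟩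
  have hpt : ∀ b ∈ T, ∃ y : κ, ∃ c ∈ B y, ∀ j, c ∈ Lv B j (2 * b j) ∧
      ∀ a' < 2 * b j, c ∉ Lv B j a' := by
    intro b hb
    obtain ⟨c, hc, h⟩ := key hB hcov (fun j => 2 * b j) (by
      intro j
      apply hm j
      rw [hT, Fintype.mem_piFinset] at hb
      have := Finset.mem_range.1 (hb j)
      omega)
    obtain ⟨y, hy⟩ := hcov c hc
    exact ⟨y, c, hy, h⟩
  obtain ⟨y0, -⟩ := hcov (fun _ => 0) (fun _ => ⟨le_rfl, zero_le_one⟩)
  have : Nonempty κ := ⟨y0⟩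
  choose! Y C hCY hC using hpt
  have hinj : Set.InjOn Y (T : Set (Fin d → ℕ)) := by
    intro b hb b' hb' hbb
    have key' : ∀ b ∈ T, ∀ b' ∈ T, Y b = Y b' → ∀ j, ¬ b j < b' j := by
      intro b hb b' hb' hbb j hj
      have h1 := (hC b hb j).1
      have h2 := (hC b' hb' j).2 (2 * b j + 1) (by omega)
      apply h2
      refine mem_succ.2 ⟨sub_cube (hC b' hb' j).1, Y b', hCY b' hb', C b, ?_, h1⟩
      rw [← hbb]
      exact hCY b hb
    funext j
    have h1 := key' b hb b' hb' hbb j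
    have h2 := key' b' hb' b hb hbb.symm j
    omega
  have hcard : T.card ≤ Fintype.card κ :=
    Finset.card_le_card_of_injOn Y (fun _ _ => Finset.mem_coe.2 (Finset.mem_univ _)) hinj
  have hT2 : T.card = ∏ j, (m j + 1) / 2 := by
    rw [hT, Fintype.card_piFinset]
    simp only [Finset.card_range]
  calc ∏ j, m j ≤ ∏ j, 2 * ((m j + 1) / 2) := by
        refine Finset.prod_le_prod' fun j _ => ?_
        omega
    _ = 2 ^ d * T.card := by
        rw [Finset.prod_mul_distrib, Finset.prod_const, Finset.card_univ, Fintype.card_fin, hT2]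
    _ ≤ _ := Nat.mul_le_mul_left _ hcard

theorem main : S_BES.{u} := by
  intro κ _ d B hB hcov i ℓ hℓ hch
  classical
  have hcov' : ∀ c ∈ Cube d, ∃ y, c ∈ B y := hcov
  have h0 : ∀ j, ∀ c ∈ Lv B j 0, c j ≠ 1 := by
    intro j c hc h1
    have := hc.2
    rw [h1] at this
    exact one_ne_zero this
  have hex : ∃ N, ∃ c, CChain B i N c := by
    by_contra hcon
    push Not at hcon
    have h1 := count hB hcov' (fun j => if j = i then 2 ^ d * Fintype.card κ + 1 else 1) (by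
      intro j a ha c hc h1
      by_cases hj : j = i
      · rw [hj] at hc h1
        obtain ⟨g, hg⟩ := cchain hc h1
        exact hcon a g hg
      · simp only [if_neg hj] at ha
        have : a = 0 := by omega
        rw [this] at hc
        exact h0 j c hc h1)
    rw [Finset.prod_ite_eq' Finset.univ i] at h1
    simp only [Finset.mem_univ, if_true] at h1
    omega
  obtain ⟨N, hN⟩ : ∃ N, N = Nat.find hex := ⟨_, rfl⟩
  obtain ⟨c, hc⟩ := Nat.find_spec hex
  rw [← hN] at hc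
  refine ⟨N, c, hc, ?_⟩
  have h1 := count hB hcov' (fun j => if j = i then N else ⌈ℓ⌉₊) (by
    intro j a ha c hc h1
    obtain ⟨g, hg⟩ := cchain hc h1
    by_cases hj : j = i
    · simp only [if_pos hj] at ha
      rw [hj] at hg
      rw [hN] at ha
      exact Nat.find_min hex ha ⟨g, hg⟩
    · simp only [if_neg hj] at ha
      have h2 := hch j hj a g hg
      rw [Nat.lt_ceil] at ha
      linarith)
  rw [← Finset.mul_prod_erase Finset.univ _ (Finset.mem_univ i)] at h1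
  have h2 : ∏ x ∈ Finset.univ.erase i, (if x = i then N else ⌈ℓ⌉₊) = ⌈ℓ⌉₊ ^ (d - 1) := by
    rw [Finset.prod_congr rfl (g := fun _ => ⌈ℓ⌉₊) (by
      intro x hx
      rw [if_neg (Finset.ne_of_mem_erase hx)]), Finset.prod_const,
      Finset.card_erase_of_mem (Finset.mem_univ i), Finset.card_univ, Fintype.card_fin]
  rw [h2, if_pos rfl] at h1
  have h3 : ((N * ⌈ℓ⌉₊ ^ (d - 1) : ℕ) : ℝ) ≤ ((2 ^ d * Fintype.card κ : ℕ) : ℝ) := by
    exact_mod_cast h1
  push_cast at h3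
  refine le_trans ?_ h3
  refine mul_le_mul_of_nonneg_left ?_ (Nat.cast_nonneg _)
  exact pow_le_pow_left₀ hℓ (Nat.le_ceil ℓ) _

end Pool.Agent.N234.CP.Bes
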