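import Pool.Agent.N234.CP.Lad

set_option autoImplicit false

/-! All unstable paths lift, under the coarse pinching condition. -/

open Filter Topology Set Metric unitInterval

namespace Pool.Agent.N234.CP

open Pool.Agent.H789R2.AN Pool.Agent.H789R2.GP

variable {X : Type*} [MetricSpace X]

/-- the choice of the position of the rectangle -/
theorem exists_km {σ₁ σ₂ υ₁ υ₂ : ℝ} (h2 : 0 < σ₂) (h21 : σ₂ ≤ σ₁) (h4 : 0 < υ₂)
    (h43 : υ₂ ≤ υ₁) (hc : (σ₁ - σ₂) * (υ₁ - υ₂) < σ₂ * υ₂) (A₁ A₂ : ℝ) :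
    ∃ k m : ℕ, A₁ + σ₁ * k ≤ σ₂ * (k + m) ∧ A₂ + υ₁ * m ≤ υ₂ * (k + m) := by
  set α := (σ₁ - σ₂) / σ₂ with hα
  set β := (υ₁ - υ₂) / υ₂ with hβ
  have hα0 : 0 ≤ α := div_nonneg (by linarith) h2.le
  have hβ0 : 0 ≤ β := div_nonneg (by linarith) h4.le
  have hαβ : α * β < 1 := by
    rw [hα, hβ, div_mul_div_comm, div_lt_one (by positivity)]
    exact hc
  set P := β * (|A₁| / σ₂ + 1) + |A₂| / υ₂ with hP
  obtain ⟨k, hk⟩ := exists_nat_ge (P / (1 - α * β))
  have hk1 : P ≤ k * (1 - α * β) := by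
    rwa [div_le_iff₀ (by linarith)] at hk
  set m := ⌈|A₁| / σ₂ + α * k⌉₊ with hm
  have hx0 : 0 ≤ |A₁| / σ₂ + α * k := by positivity
  have hm1 : |A₁| / σ₂ + α * k ≤ m := Nat.le_ceil _
  have hm2 : (m : ℝ) < |A₁| / σ₂ + α * k + 1 := Nat.ceil_lt_add_one hx0
  refine ⟨k, m, ?_, ?_⟩
  · have h5 : σ₂ * (|A₁| / σ₂ + α * k) ≤ σ₂ * m := mul_le_mul_of_nonneg_left hm1 h2.le
    have h6 : σ₂ * (|A₁| / σ₂ + α * k) = |A₁| + (σ₁ - σ₂) * k := by
      rw [hα]; field_simp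
    have h7 := le_abs_self A₁
    nlinarith
  · have h5 : β * m ≤ β * (|A₁| / σ₂ + α * k + 1) := mul_le_mul_of_nonneg_left hm2.le hβ0
    have h6 : β * m + |A₂| / υ₂ ≤ k := by
      have : β * (|A₁| / σ₂ + α * k + 1) + |A₂| / υ₂ = P + k * (α * β) := by rw [hP]; ring
      nlinarith
    have h7 : υ₂ * (β * m + |A₂| / υ₂) ≤ υ₂ * k := mul_le_mul_of_nonneg_left h6 h4.le
    have h8 : υ₂ * (β * m + |A₂| / υ₂) = (υ₁ - υ₂) * m + |A₂| := by
      rw [hβ]; field_simp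
    have h9 := le_abs_self A₂
    nlinarith

theorem SR.push {g : X ≃ₜ X} {c : ℝ} (h : LP g c) {ρ : ℝ} {M : ℕ}
    (hM : ∀ k ≥ M, c * (1 / 2 : ℝ) ^ k < ρ) {x y : X} (hxy : SR g c x y) :
    SR g ρ (g^[M] x) (g^[M] y) := fun k => by
  rw [← Function.iterate_add_apply, ← Function.iterate_add_apply]
  exact (h.cS _ _ hxy _).trans (hM _ (by omega)).le

theorem Steps.push {g : X ≃ₜ X} {c : ℝ} (h : LP g c) {δ ρ : ℝ} (hδ : δ ≤ c) {M : ℕ}
    (hM : ∀ k ≥ M, c * (1 / 2 : ℝ) ^ k < ρ) {N : ℕ} {x y : X} (hxy : Steps g δ N x y) :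
    Steps g ρ N (g^[M] x) (g^[M] y) := by
  obtain ⟨z, h0, h1, h2⟩ := hxy
  exact ⟨fun i => g^[M] (z i), congrArg _ h0, congrArg _ h1, fun i hi =>
    SR.push h hM ((h2 i hi).mono hδ)⟩

/-- finer steps in the upper rate -/
theorem UpRate.fine {g : X ≃ₜ X} {c : ℝ} (h : LP g c) {δ κ : ℝ} (hδ : δ ≤ c)
    (hU : UpRate g δ κ) {ρ : ℝ} (hρ : 0 < ρ) :
    ∃ C : ℝ, 1 ≤ C ∧ ∀ x y, SR g δ x y → ∀ n : ℕ, ∃ N : ℕ, (N : ℝ) ≤ C * Real.exp (κ * n) ∧
      Steps g ρ N (g.symm^[n] x) (g.symm^[n] y) := by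
  obtain ⟨C, hC⟩ := hU
  obtain ⟨M, hM⟩ := qs_exists_pow h.c_pos hρ
  refine ⟨max 1 (C * Real.exp (κ * M)), le_max_left _ _, fun x y hxy n => ?_⟩
  obtain ⟨N, hN, hs⟩ := hC x y hxy (n + M)
  refine ⟨N, ?_, ?_⟩
  · have h1 : C * Real.exp (κ * ((n + M : ℕ) : ℝ)) = C * Real.exp (κ * M) * Real.exp (κ * n) := by
      rw [mul_assoc, ← Real.exp_add]
      congr 2
      push_cast
      ring
    rw [h1] at hN
    exact hN.trans (mul_le_mul_of_nonneg_right (le_max_right _ _) (Real.exp_pos _).le)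
  · have h2 := hs.push h hδ hM
    have h3 : ∀ w : X, g^[M] (g.symm^[n + M] w) = g.symm^[n] w := fun w => by
      rw [T1_iter_sub g (by omega), Nat.add_sub_cancel]
    rwa [h3, h3] at h2

/-- finer conclusion in the lower rate -/
theorem LoRate.fine {g : X ≃ₜ X} {c : ℝ} (h : LP g c) {δ κ : ℝ} (hκ : 0 < κ) (hδ : δ ≤ c)
    (hL : LoRate g δ κ) {ρ : ℝ} (hρ : 0 < ρ) :
    ∃ C : ℝ, 1 ≤ C ∧ ∀ (N n : ℕ) (x y : X), C * N ≤ Real.exp (κ * n) → Steps g δ N x y →
      SR g ρ (g^[n] x) (g^[n] y) := by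
  obtain ⟨C, hC0, hC⟩ := hL
  obtain ⟨M, hM⟩ := qs_exists_pow h.c_pos hρ
  have h1 : 1 ≤ Real.exp (κ * M) := Real.one_le_exp (by positivity)
  refine ⟨max 1 C * Real.exp (κ * M), ?_, fun N n x y hN hs => ?_⟩
  · have := le_max_left 1 C
    nlinarith
  · rcases Nat.eq_zero_or_pos N with rfl | hN0
    · obtain ⟨z, h0, h2, -⟩ := hs
      have : x = y := h0.symm.trans h2
      rw [this]
      exact qs_SR_refl _ hρ.le _
    · have hN1 : (1 : ℝ) ≤ N := by exact_mod_cast hN0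
      have h3 : Real.exp (κ * M) ≤ Real.exp (κ * n) := by
        refine le_trans ?_ hN
        have h4 : 1 ≤ max 1 C * (N : ℝ) := by
          have := le_max_left 1 C
          nlinarith
        calc Real.exp (κ * M) = 1 * Real.exp (κ * M) := (one_mul _).symm
          _ ≤ (max 1 C * N) * Real.exp (κ * M) :=
              mul_le_mul_of_nonneg_right h4 (Real.exp_pos _).le
          _ = _ := by ring
      have h5 : M ≤ n := by
        have h6 := Real.exp_le_exp.mp h3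
        have h7 : (M : ℝ) ≤ n := le_of_mul_le_mul_left h6 hκ
        exact_mod_cast h7
      obtain ⟨j, rfl⟩ := Nat.exists_eq_add_of_le' h5
      have h8 : C * N ≤ Real.exp (κ * j) := by
        have h9 : Real.exp (κ * ((j + M : ℕ) : ℝ)) = Real.exp (κ * j) * Real.exp (κ * M) := by
          rw [← Real.exp_add]
          congr 1
          push_cast
          ring
        rw [h9] at hN
        have h10 : max 1 C * N * Real.exp (κ * M) ≤ Real.exp (κ * j) * Real.exp (κ * M) := by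
          calc _ = max 1 C * Real.exp (κ * M) * N := by ring
            _ ≤ _ := hN
        have h11 := le_of_mul_le_mul_right h10 (Real.exp_pos _)
        exact (mul_le_mul_of_nonneg_right (le_max_right _ _) (by positivity)).trans h11
      have h12 := hC N j x y h8 hs
      have h13 := SR.push h hM (h12.mono hδ)
      rw [← Function.iterate_add_apply, ← Function.iterate_add_apply, Nat.add_comm M j] at h13
      exact h13

/-- **Coarse pinching.**  All unstable paths lift to strips along all stable displacements. -/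
theorem lift_all [CompactSpace X] {g : X ≃ₜ X} {c : ℝ} (h : LP g c) {δ : ℝ} (hδ : 0 < δ)
    (hδc : δ ≤ c) {σ₁ σ₂ υ₁ υ₂ : ℝ} (h2 : 0 < σ₂) (h21 : σ₂ ≤ σ₁) (h4 : 0 < υ₂) (h43 : υ₂ ≤ υ₁)
    (hcond : (σ₁ - σ₂) * (υ₁ - υ₂) < σ₂ * υ₂) (hS1 : UpRate g δ σ₁) (hS2 : LoRate g δ σ₂)
    (hU1 : UpRate g.symm δ υ₁) (hU2 : LoRate g.symm δ υ₂) : ∀ a s, WS g a s → Lf g a s := by
  have hc := h.c_pos
  obtain ⟨br, δb, hb⟩ := exists_BrP h
  -- scales
  set δ₁ := min δ (c / 3) with hδ₁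
  have d0 : 0 < δ₁ := lt_min hδ (by linarith)
  have d1 : δ₁ ≤ δ := min_le_left _ _
  have d2 : 3 * δ₁ ≤ c := by linarith [min_le_right δ (c / 3)]
  obtain ⟨η₁, hη₁, hb2⟩ := hb.b2 δ₁ d0
  set η := min η₁ δb with hη
  have e0 : 0 < η := lt_min hη₁ hb.pos
  obtain ⟨ηg, hηg, hgap⟩ := qs_SR_of_dist h δ₁ d0
  set ρ := min δ₁ (min (η / 4) (ηg / 4)) with hρ
  have r0 : 0 < ρ := by positivity
  have r1 : ρ ≤ δ₁ := min_le_left _ _
  have r2 : ρ ≤ η / 4 := (min_le_right _ _).trans (min_le_left _ _)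
  have r3 : ρ ≤ ηg / 4 := (min_le_right _ _).trans (min_le_right _ _)
  obtain ⟨C₁, hC₁, U1⟩ := hS1.fine h hδc r0
  obtain ⟨C₂, hC₂, U2⟩ := hU1.fine h.symm hδc r0
  obtain ⟨D₁, hD₁, V1⟩ := hS2.fine h h2 hδc r0
  obtain ⟨D₂, hD₂, V2⟩ := hU2.fine h.symm h4 hδc r0
  intro a s has υ hυ
  obtain ⟨M, hM⟩ := has.eventually_lt hδ
  have hM1 : SR g δ (g^[M] a) (g^[M] s) := fun k => by
    rw [← Function.iterate_add_apply, ← Function.iterate_add_apply]
    exact (hM _ (by omega)).le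
  obtain ⟨M', hM'⟩ := path_small h.symm υ hδ
  have hM2 : ∀ t, SR g.symm δ (g.symm^[M'] a) (g.symm^[M'] (υ t).val) := fun t => by
    have := hM' M' le_rfl t
    rwa [hυ] at this
  obtain ⟨k, m, hk1, hk2⟩ := exists_km h2 h21 h4 h43 hcond
    (Real.log (D₁ * C₁) + σ₁ * M) (Real.log (D₂ * C₂) + υ₁ * M')
  have hDC₁ : 0 < D₁ * C₁ := by positivity
  have hDC₂ : 0 < D₂ * C₂ := by positivity
  set n := k + m with hn
  have hn' : (n : ℝ) = k + m := by rw [hn]; push_cast; ring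
  have K1 : D₁ * (C₁ * Real.exp (σ₁ * ((k + M : ℕ) : ℝ))) ≤ Real.exp (σ₂ * n) := by
    calc D₁ * (C₁ * Real.exp (σ₁ * ((k + M : ℕ) : ℝ)))
        = Real.exp (Real.log (D₁ * C₁) + σ₁ * M + σ₁ * k) := by
          rw [Real.exp_add, Real.exp_add, Real.exp_log hDC₁]
          have : Real.exp (σ₁ * ((k + M : ℕ) : ℝ)) = Real.exp (σ₁ * M) * Real.exp (σ₁ * k) := by
            rw [← Real.exp_add]; congr 1; push_cast; ring
          rw [this]; ring
      _ ≤ _ := Real.exp_le_exp.mpr (by rw [hn']; exact hk1)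
  have K2 : D₂ * (C₂ * Real.exp (υ₁ * ((m + M' : ℕ) : ℝ))) ≤ Real.exp (υ₂ * n) := by
    calc D₂ * (C₂ * Real.exp (υ₁ * ((m + M' : ℕ) : ℝ)))
        = Real.exp (Real.log (D₂ * C₂) + υ₁ * M' + υ₁ * m) := by
          rw [Real.exp_add, Real.exp_add, Real.exp_log hDC₂]
          have : Real.exp (υ₁ * ((m + M' : ℕ) : ℝ)) = Real.exp (υ₁ * M') * Real.exp (υ₁ * m) := by
            rw [← Real.exp_add]; congr 1; push_cast; ring
          rw [this]; ring
      _ ≤ _ := Real.exp_le_exp.mpr (by rw [hn']; exact hk2)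
  -- the stable chain at the bottom
  obtain ⟨L, hL, z, z0, zL, hz⟩ := U1 _ _ hM1 (k + M)
  have iterS : ∀ w : X, g.symm^[k + M] (g^[M] w) = g.symm^[k] w := fun w => by
    rw [Function.iterate_add_apply, iterL]
  have iterU : ∀ w : X, g.symm.symm^[m + M'] (g.symm^[M'] w) = g^[m] w := fun w => by
    rw [Function.iterate_add_apply, Homeomorph.symm_symm, iterR]
  rw [iterS] at z0 zL
  have CS : ∀ i ≤ L, ∀ x y, Steps g δ₁ i x y → SR g ρ (g^[n] x) (g^[n] y) := by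
    intro i hi x y hs
    refine V1 i n x y ?_ (hs.mono d1)
    have : (i : ℝ) ≤ L := by exact_mod_cast hi
    calc D₁ * (i : ℝ) ≤ D₁ * (C₁ * Real.exp (σ₁ * ((k + M : ℕ) : ℝ))) :=
          mul_le_mul_of_nonneg_left (this.trans hL) (by linarith)
      _ ≤ _ := K1
  -- the path at the bottom
  let v : C(I, SM g.symm) :=
    ⟨fun t => ⟨g.symm^[k] (υ t).val⟩, (SM.continuous_mapIter (g := g.symm) (φ := g.symm)
      (fun _ => rfl) k).comp υ.continuous⟩
  have hv : ∀ t, (v t).val = g.symm^[k] (υ t).val := fun t => rfl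
  have hbot : ∃ x, LO v (z L) x := by
    refine bottom_lift h hb (δ₁ := δ₁) (ρ := ρ) d2 r0.le r1 ?_ L z v ?_ hz fun t => ?_
    · have := min_le_right η₁ δb
      rw [← hη] at this
      linarith
    · rw [hv, z0, hυ]
    · obtain ⟨J, hJ, w, w0, wJ, hw⟩ := U2 _ _ (hM2 t) (m + M')
      rw [iterU] at w0 wJ
      have CU : ∀ j ≤ J, ∀ x y, Steps g.symm δ₁ j x y →
          SR g.symm ρ (g.symm^[n] x) (g.symm^[n] y) := by
        intro j hj x y hs
        refine V2 j n x y ?_ (hs.mono d1)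
        have : (j : ℝ) ≤ J := by exact_mod_cast hj
        calc D₂ * (j : ℝ) ≤ D₂ * (C₂ * Real.exp (υ₁ * ((m + M' : ℕ) : ℝ))) :=
              mul_le_mul_of_nonneg_left (this.trans hJ) (by linarith)
          _ ≤ _ := K2
      have h0 : w 0 = g^[n] (z 0) := by
        rw [w0, z0, hn, Nat.add_comm, Function.iterate_add_apply, iterR]
      obtain ⟨p, p0, p1, p2⟩ := ladder h hb d2 r0.le r1 (by linarith : 2 * ρ < η)
        (min_le_right _ _) (fun x y hxy => hb2 x y (hxy.trans_le (min_le_left _ _)))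
        (fun x y hxy hd => hgap x y hxy (by linarith)) n L J CS CU z w hz hw h0 J le_rfl
      refine ⟨p, ?_, p1, fun i hi => ?_⟩
      · rw [hv]
        have h1 : g^[n] (p 0) = g^[n] (g.symm^[k] (υ t).val) := by
          rw [p0, wJ, hn, Nat.add_comm, Function.iterate_add_apply, iterR]
        exact (g.injective.iterate n) h1
      · have h1 := CU J le_rfl _ _ (p2 i hi)
        rwa [iterL, iterL] at h1
  obtain ⟨x, hx⟩ := hbot
  rw [zL] at hx
  exact LO_of_iter (g := g) (φ := g.symm) (fun x => by simp) k υ v s x hv hx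

end Pool.Agent.N234.CP
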