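import Pool.Agent.Y330.J.A6
import Pool.Agent.N234.CP.LiftAll

set_option autoImplicit false
set_option linter.unusedSectionVars false

/-! Homotopy classes of stable paths, and small squares. -/

open Filter Topology Set Metric unitInterval

namespace Pool.Agent.N234.CP

open Pool.Agent.H789R2.AN Pool.Agent.H789R2.GP Pool.Agent.Y330.J

variable {X : Type*} [MetricSpace X] [CompactSpace X] {g : X ≃ₜ X} {c : ℝ}

/-- the class of a stable path -/
def Scl (g : X ≃ₜ X) {x y : X} (α : Path.Homotopic.Quotient x y) : Prop :=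
  ∃ p : Path x y, LPath g p ∧ α = cl p

theorem Scl.unique (hX : ULC X) {x y : X} {α β : Path.Homotopic.Quotient x y} (h : Scl g α)
    (h' : Scl g β) : α = β := by
  obtain ⟨p, hp, rfl⟩ := h
  obtain ⟨q, hq, rfl⟩ := h'
  exact cl_eq (hom_unique hX hp hq)

theorem Scl.refl (g : X ≃ₜ X) (x : X) : Scl g (Path.Homotopic.Quotient.refl x) :=
  ⟨Path.refl x, LPath.refl g x, (Path.Homotopic.Quotient.mk_refl x).symm⟩

theorem Scl.trans {x y z : X} {α : Path.Homotopic.Quotient x y} {β : Path.Homotopic.Quotient y z}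
    (h : Scl g α) (h' : Scl g β) : Scl g (α.trans β) := by
  obtain ⟨p, hp, rfl⟩ := h
  obtain ⟨q, hq, rfl⟩ := h'
  exact ⟨p.trans q, hp.trans hq, (cl_trans p q).symm⟩

/-- small stable paths, seen after `m` iterations -/
theorem small_path (hg : LP g c) (hX : ULC X) {φ : X ≃ₜ X} (hφ : ∀ x, φ (g x) = g (φ x))
    {ε : ℝ} (hε : 0 < ε) : ∃ η > 0, ∀ (m : ℕ) (x y : X),
      SR g η (φ.symm^[m] x) (φ.symm^[m] y) → ∃ p : Path x y, LPath g p ∧
        ∀ t, dist (φ.symm^[m] x) (φ.symm^[m] (p t)) ≤ ε := by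
  obtain ⟨η, hη, h1⟩ := leaf_path hg hX ε hε
  refine ⟨η, hη, fun m x y hxy => ?_⟩
  obtain ⟨υ, h2, h3, h4⟩ := h1 ⟨φ.symm^[m] x⟩ ⟨φ.symm^[m] y⟩ ((SM.dist_le _ _ hη.le).2 hxy)
  have hcm : ∀ x, φ (g x) = g (φ x) := hφ
  let v : C(I, SM g) := ⟨fun t => ⟨φ^[m] (υ t).val⟩,
    (SM.continuous_mapIter hcm m).comp υ.continuous⟩
  have hv : ∀ t, (v t).val = φ^[m] (υ t).val := fun t => rfl
  let p : Path x y := ⟨⟨fun t => (v t).val, SM.val_continuous.comp v.continuous⟩, by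
      show (v 0).val = x
      rw [hv, h2]
      exact iterR φ m x, by
      show (v 1).val = y
      rw [hv, h3]
      exact iterR φ m y⟩
  refine ⟨p, lpath_of_sm hg v p fun t => rfl, fun t => ?_⟩
  have e : φ.symm^[m] (p t) = (υ t).val := by
    show φ.symm^[m] (φ^[m] (υ t).val) = _
    exact iterL φ m _
  rw [e]
  exact ((SM.dist_le _ _ hε.le).1 (h4 t)) 0

theorem exists_scl (hg : LP g c) (hX : ULC X) {x y : X} (h : WS g x y) :
    ∃ α : Path.Homotopic.Quotient x y, Scl g α := by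
  obtain ⟨v, h0, h1⟩ := leaf_conn hg hX x y h
  let p : Path x y := ⟨⟨fun t => (v t).val, SM.val_continuous.comp v.continuous⟩, by
      show (v 0).val = x
      rw [h0], by
      show (v 1).val = y
      rw [h1]⟩
  exact ⟨_, p, lpath_of_sm hg v p fun t => rfl, rfl⟩

/-- paths which are small after `m` iterations are homotopic -/
theorem hom_small (hX : ULC X) : ∃ δ > 0, ∀ (m : ℕ) {x y : X} (p p' : Path x y),
    (∀ t, dist (g^[m] x) (g^[m] (p t)) < δ) → (∀ t, dist (g^[m] x) (g^[m] (p' t)) < δ) →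
    p.Homotopic p' := by
  obtain ⟨δ, hδ, h1⟩ := hX.homo 1 one_pos
  refine ⟨δ, hδ, fun m x y p p' hp hp' => ?_⟩
  obtain ⟨H, a1, a2, a3, a4, -⟩ := h1 (g^[m] x)
    ⟨fun t => g^[m] (p t), (g.continuous.iterate m).comp p.continuous⟩
    ⟨fun t => g^[m] (p' t), (g.continuous.iterate m).comp p'.continuous⟩
    (by simp) (by simp)
    (fun t => by
      rw [mem_ball, dist_comm]
      exact hp t)
    (fun t => by
      rw [mem_ball, dist_comm]
      exact hp' t)
  simp only [ContinuousMap.coe_mk] at a1 a2 a3 a4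
  refine ⟨⟨⟨⟨fun q => g.symm^[m] (H q), (g.symm.continuous.iterate m).comp H.continuous⟩,
    ?_, ?_⟩, ?_⟩⟩
  · intro t
    show g.symm^[m] (H (0, t)) = p t
    rw [a1, iterL]
  · intro t
    show g.symm^[m] (H (1, t)) = p' t
    rw [a2, iterL]
  · intro s t ht
    rcases ht with rfl | ht
    · show g.symm^[m] (H (s, 0)) = p 0
      rw [a3, iterL]
    · obtain rfl : t = 1 := ht
      show g.symm^[m] (H (s, 1)) = p 1
      rw [a4, iterL]

theorem trans_dist {x y z : X} {f : X → X} {ε : ℝ} {p : Path x y} {q : Path y z}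
    (hp : ∀ t, dist (f x) (f (p t)) ≤ ε) (hq : ∀ t, dist (f y) (f (q t)) ≤ ε) (t : I) :
    dist (f x) (f (p.trans q t)) ≤ 2 * ε := by
  have h0 : 0 ≤ ε := dist_nonneg.trans (hp 0)
  rw [Path.trans_apply]
  split_ifs with h
  · linarith [hp ⟨2 * t, (unitInterval.mul_pos_mem_iff zero_lt_two).2 ⟨t.2.1, h⟩⟩]
  · have h1 := hp 1
    rw [p.target] at h1
    have h2 := hq ⟨2 * (t : ℝ) - 1, unitInterval.two_mul_sub_one_mem_iff.2
      ⟨(not_le.1 h).le, t.2.2⟩⟩
    have := dist_triangle (f x) (f y) (f (q ⟨2 * (t : ℝ) - 1,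
      unitInterval.two_mul_sub_one_mem_iff.2 ⟨(not_le.1 h).le, t.2.2⟩⟩))
    linarith

/-- The boundary of a square which is small after `m` iterations. -/
theorem square (hg : LP g c) (hX : ULC X) : ∃ δ₀ > 0, ∀ (m : ℕ) {a b d e : X}
    {α : Path.Homotopic.Quotient a b} {β : Path.Homotopic.Quotient b d}
    {β' : Path.Homotopic.Quotient a e} {α' : Path.Homotopic.Quotient e d},
    Scl g α → Scl g.symm β → Scl g.symm β' → Scl g α' →
    SR g δ₀ (g^[m] a) (g^[m] b) → SR g.symm δ₀ (g^[m] b) (g^[m] d) →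
    SR g.symm δ₀ (g^[m] a) (g^[m] e) → SR g δ₀ (g^[m] e) (g^[m] d) →
    α.trans β = β'.trans α' := by
  obtain ⟨δ, hδ, h1⟩ := hom_small (g := g) hX
  obtain ⟨η, hη, h2⟩ := small_path hg hX (φ := g.symm)
    (fun x => by rw [g.symm_apply_apply, g.apply_symm_apply]) (ε := δ / 3) (by positivity)
  obtain ⟨η', hη', h3⟩ := small_path hg.symm hX (φ := g.symm) (fun x => rfl) (ε := δ / 3)
    (by positivity)
  refine ⟨min η η', lt_min hη hη', ?_⟩
  intro m a b d e α β β' α' hα hβ hβ' hα' s1 s2 s3 s4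
  obtain ⟨p, p1, p2⟩ := h2 m a b (s1.mono (min_le_left _ _))
  obtain ⟨q, q1, q2⟩ := h3 m b d (s2.mono (min_le_right _ _))
  obtain ⟨q', q1', q2'⟩ := h3 m a e (s3.mono (min_le_right _ _))
  obtain ⟨p', p1', p2'⟩ := h2 m e d (s4.mono (min_le_left _ _))
  simp only [Homeomorph.symm_symm] at p2 q2 q2' p2'
  rw [hα.unique hX ⟨p, p1, rfl⟩, hβ.unique hX ⟨q, q1, rfl⟩, hβ'.unique hX ⟨q', q1', rfl⟩,
    hα'.unique hX ⟨p', p1', rfl⟩, ← cl_trans, ← cl_trans]
  apply cl_eq
  refine h1 m _ _ (fun t => ?_) (fun t => ?_)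
  · have := trans_dist (f := g^[m]) p2 q2 t
    linarith
  · have := trans_dist (f := g^[m]) q2' p2' t
    linarith

end Pool.Agent.N234.CP
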