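import Pool.Agent.N234.CP.Stm

set_option autoImplicit false

/-! Project CP, part DISC: discs tangent to a field of subspaces in an embedded manifold. -/

open Filter Topology Set Metric
open scoped Manifold ContDiff

namespace Pool.Agent.N234.CP.Disc

open Pool.Agent.H721R2 Pool.Agent.H789R2.AN Pool.Agent.H789R2.GP Pool.Agent.N234.CP

universe u v w

theorem loc {E₀ : Type u} [NormedAddCommGroup E₀] [NormedSpace ℝ E₀]
    [FiniteDimensional ℝ E₀] {M : Type v} [MetricSpace M] [CompactSpace M] [ChartedSpace E₀ M]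
    [IsManifold 𝓘(ℝ, E₀) 1 M] {F : Type w} [NormedAddCommGroup F] [NormedSpace ℝ F] {e : M → F}
    (he : ContMDiff 𝓘(ℝ, E₀) 𝓘(ℝ, F) 1 e) (hinj : ∀ x, Function.Injective (dm E₀ e x))
    {η : ℝ} (hη : 0 < η) (x₀ : M) :
    ∃ r > 0, ∀ᶠ x in 𝓝 x₀, ∃ D : F → M, D 0 = x ∧ ∀ ζ ζ' : E₀, ‖dm E₀ e x ζ‖ < r →
      ‖dm E₀ e x ζ'‖ < r → ‖e (D (dm E₀ e x ζ)) - e (D (dm E₀ e x ζ')) -
        (dm E₀ e x ζ - dm E₀ e x ζ')‖ ≤ η * ‖dm E₀ e x ζ - dm E₀ e x ζ'‖ := by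
  obtain ⟨⟨C, hC, hCx⟩, -⟩ := local_all e he hinj e he x₀
  have hη₁ : 0 < η / (3 * C) := by positivity
  obtain ⟨r₁, hr₁, b1, b2, b3⟩ := hatMap_local e he x₀ (η / (3 * C)) hη₁
  set η₁ := η / (3 * C) with hη₁def
  set φ := extChartAt 𝓘(ℝ, E₀) x₀ with hφ
  set p₀ := φ x₀ with hp₀
  have hx₀ : x₀ ∈ φ.source := mem_extChartAt_source x₀
  have hpull : φ.source ∩ φ ⁻¹' Metric.ball p₀ (r₁ / 2) ∈ 𝓝 x₀ := by
    have h1 : ContinuousAt φ x₀ := continuousAt_extChartAt x₀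
    exact inter_mem ((isOpen_extChartAt_source (I := 𝓘(ℝ, E₀)) x₀).mem_nhds hx₀)
      (h1.preimage_mem_nhds (Metric.ball_mem_nhds _ (by positivity)))
  refine ⟨r₁ / (2 * C), by positivity, ?_⟩
  filter_upwards [hpull, hCx] with x hx hxC
  obtain ⟨hxs, hxb⟩ := hx
  obtain ⟨L, hL⟩ := LinearMap.exists_leftInverse_of_injective (dm E₀ e x).toLinearMap
    (LinearMap.ker_eq_bot.mpr (hinj x))
  have hL' : ∀ v, L (dm E₀ e x v) = v := fun v => LinearMap.congr_fun hL v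
  refine ⟨fun v => φ.symm (φ x + dm E₀ φ x (L v)), ?_, ?_⟩
  · simp only [map_zero, add_zero]
    exact φ.left_inv hxs
  · intro ζ ζ' hζ hζ'
    simp only [hL']
    have hmem : ∀ ξ : E₀, ‖dm E₀ e x ξ‖ < r₁ / (2 * C) →
        φ x + dm E₀ φ x ξ ∈ Metric.ball p₀ r₁ := by
      intro ξ hξ
      have h1 := (hxC ξ).1
      have h2 : ‖dm E₀ φ x ξ‖ < r₁ / 2 := by
        rw [lt_div_iff₀ (by positivity)] at hξ
        linarith
      have hxb2 : φ x ∈ Metric.ball p₀ (r₁ / 2) := hxb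
      rw [Metric.mem_ball, dist_eq_norm] at hxb2 ⊢
      have : φ x + dm E₀ φ x ξ - p₀ = (φ x - p₀) + dm E₀ φ x ξ := by abel
      rw [this]
      exact lt_of_le_of_lt (norm_add_le _ _) (by linarith)
    have hq := hmem ζ hζ
    have hq' := hmem ζ' hζ'
    have hp : φ x ∈ Metric.ball p₀ r₁ := Metric.ball_subset_ball (by linarith) hxb
    set q := φ x + dm E₀ φ x ζ with hqdef
    set q' := φ x + dm E₀ φ x ζ' with hq'def
    have hqq : q - q' = dm E₀ φ x (ζ - ζ') := by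
      rw [hqdef, hq'def, map_sub]; abel
    have e1 : dm E₀ e x ζ - dm E₀ e x ζ' = fderiv ℝ (hatMap e x₀) (φ x) (q - q') := by
      rw [← map_sub, hqq]
      exact hatMap_mfderiv e he x₀ x hxs (ζ - ζ')
    have h1 := b3 q' hq' q hq
    have h2 : ‖(fderiv ℝ (hatMap e x₀) q' - fderiv ℝ (hatMap e x₀) (φ x)) (q - q')‖ ≤
        2 * η₁ * ‖q - q'‖ := by
      refine (ContinuousLinearMap.le_opNorm _ _).trans
        (mul_le_mul_of_nonneg_right ?_ (norm_nonneg _))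
      have c1 := b2 q' hq'
      have c2 := b2 (φ x) hp
      have c3 := norm_sub_le (fderiv ℝ (hatMap e x₀) q' - fderiv ℝ (hatMap e x₀) p₀)
        (fderiv ℝ (hatMap e x₀) (φ x) - fderiv ℝ (hatMap e x₀) p₀)
      rw [sub_sub_sub_cancel_right] at c3
      linarith
    have e2 : e (φ.symm q) - e (φ.symm q') - (dm E₀ e x ζ - dm E₀ e x ζ') =
        (hatMap e x₀ q - hatMap e x₀ q' - fderiv ℝ (hatMap e x₀) q' (q - q')) +
        (fderiv ℝ (hatMap e x₀) q' - fderiv ℝ (hatMap e x₀) (φ x)) (q - q') := by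
      rw [e1]
      show hatMap e x₀ q - hatMap e x₀ q' - _ = _
      simp only [sub_apply]
      abel
    have h3 : ‖q - q'‖ ≤ C * ‖dm E₀ e x ζ - dm E₀ e x ζ'‖ := by
      rw [hqq, ← map_sub]; exact (hxC _).1
    rw [e2]
    refine (norm_add_le _ _).trans ?_
    have h4 : 3 * η₁ * ‖q - q'‖ ≤ 3 * η₁ * (C * ‖dm E₀ e x ζ - dm E₀ e x ζ'‖) :=
      mul_le_mul_of_nonneg_left h3 (by positivity)
    have h5 : 3 * η₁ * (C * ‖dm E₀ e x ζ - dm E₀ e x ζ'‖) =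
        η * ‖dm E₀ e x ζ - dm E₀ e x ζ'‖ := by
      rw [hη₁def]; field_simp
    linarith

theorem main : S_DISC.{u, v, w} := by
  intro E₀ _ _ _ M _ _ _ _ F _ _ e _ he hinj V η hη
  obtain ⟨r, hr, hP⟩ := exists_uniform_small (fun r x => ∃ D : F → M, D 0 = x ∧
      ∀ ζ ζ' : E₀, ‖dm E₀ e x ζ‖ < r →
      ‖dm E₀ e x ζ'‖ < r → ‖e (D (dm E₀ e x ζ)) - e (D (dm E₀ e x ζ')) -
        (dm E₀ e x ζ - dm E₀ e x ζ')‖ ≤ η * ‖dm E₀ e x ζ - dm E₀ e x ζ'‖) (by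
      rintro C C' x hCC' ⟨D, hD0, hD⟩
      exact ⟨D, hD0, fun ζ ζ' h h' => hD ζ ζ' (by linarith) (by linarith)⟩)
      (fun x₀ => loc he hinj hη x₀)
  choose D hD using hP
  refine ⟨r, hr, D, fun x => ⟨(hD x).1, ?_⟩⟩
  rintro _ ⟨ζ, -, rfl⟩ _ ⟨ζ', -, rfl⟩ h h'
  exact (hD x).2 ζ ζ' h h'

end Pool.Agent.N234.CP.Disc
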