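import Pool.Agent.N234.CP.Stm

set_option autoImplicit false

open Filter Topology Set Metric

namespace Pool.Agent.N234.CP.Ent

open Pool.Agent.N234.CP Pool.Agent.H721R2

universe v

/-- finite covers from the entropy -/
theorem hcov_of_entropy {M : Type v} [MetricSpace M] [CompactSpace M] (f : M ≃ₜ M) (h : ℝ)
    (hh : topEntropy f ≤ (h : EReal)) {h' : ℝ} (hh' : h < h') : HCov f h' := by
  intro θ hθ
  let U : SetRel M M := {p | dist p.1 p.2 < θ}
  have hUm : U ∈ uniformity M := Metric.dist_mem_uniformity hθ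
  have hUu : U ∈ @uniformity M uniformSpaceOfCompactR1 := by
    have h0 : @uniformity M uniformSpaceOfCompactR1 = 𝓝ˢ (diagonal M) := rfl
    rw [h0, nhdsSet_diagonal_eq_uniformity]
    exact hUm
  have h1 : Dynamics.coverEntropyEntourage f univ U ≤ (h : EReal) := by
    refine le_trans ?_ hh
    unfold topEntropy
    exact @Dynamics.coverEntropyEntourage_le_coverEntropy M U uniformSpaceOfCompactR1 f univ hUu
  have h2 : Dynamics.coverEntropyEntourage f univ U < (h' : EReal) :=
    lt_of_le_of_lt h1 (EReal.coe_lt_coe_iff.2 hh')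
  have h3 := ExpGrowth.eventually_le_exp h2
  have h4 : ∀ n : ℕ, ∃ s : Finset M, Dynamics.IsDynCoverOf f univ U n s ∧
      (s.card : ℕ∞) = Dynamics.coverMincard f univ U n := fun n =>
    (Dynamics.coverMincard_finite_iff f univ U n).1
      (Dynamics.coverMincard_finite_of_isCompact_invariant isCompact_univ (mapsTo_univ _ _) hUm n)
  choose s hs hcard using h4
  obtain ⟨n₀, hn₀⟩ := eventually_atTop.1 h3
  have h5 : ∀ n ≥ n₀, ((s n).card : ℝ) ≤ Real.exp (h' * n) := by
    intro n hn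
    have h6 := hn₀ n hn
    rw [← hcard n] at h6
    have h7 : (h' : EReal) * (n : EReal) = ((h' * n : ℝ) : EReal) := by
      rw [EReal.coe_mul]; rfl
    rw [h7, EReal.exp_coe] at h6
    have h8 : (((s n).card : ℕ∞) : ENNReal) = ENNReal.ofReal ((s n).card : ℝ) := by
      rw [ENNReal.ofReal_natCast]; simp
    rw [h8] at h6
    exact (ENNReal.ofReal_le_ofReal_iff (Real.exp_pos _).le).1 h6
  have hterm : ∀ k, 0 ≤ ((s (k + 1)).card : ℝ) / Real.exp (h' * k) := fun k => by positivity
  refine ⟨Real.exp h' + ∑ k ∈ Finset.range n₀, ((s (k + 1)).card : ℝ) / Real.exp (h' * k),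
    fun n => ⟨s (n + 1), ?_, ?_⟩⟩
  · have hsum : 0 ≤ ∑ k ∈ Finset.range n₀, ((s (k + 1)).card : ℝ) / Real.exp (h' * k) :=
      Finset.sum_nonneg fun k _ => hterm k
    rcases le_or_gt n₀ n with hn | hn
    · have h6 := h5 (n + 1) (by omega)
      have h7 : Real.exp (h' * ((n + 1 : ℕ) : ℝ)) = Real.exp h' * Real.exp (h' * n) := by
        rw [← Real.exp_add]; congr 1; push_cast; ring
      rw [h7] at h6
      refine h6.trans (mul_le_mul_of_nonneg_right ?_ (Real.exp_pos _).le)
      linarith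
    · have h6 : ((s (n + 1)).card : ℝ) / Real.exp (h' * n) ≤
          ∑ k ∈ Finset.range n₀, ((s (k + 1)).card : ℝ) / Real.exp (h' * k) :=
        Finset.single_le_sum (f := fun k : ℕ => ((s (k + 1)).card : ℝ) / Real.exp (h' * k))
          (fun k _ => hterm k) (Finset.mem_range.2 hn)
      have h7 : ((s (n + 1)).card : ℝ) =
          ((s (n + 1)).card : ℝ) / Real.exp (h' * n) * Real.exp (h' * n) := by
        rw [div_mul_cancel₀ _ (Real.exp_pos _).ne']
      rw [h7]
      refine mul_le_mul_of_nonneg_right ?_ (Real.exp_pos _).le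
      have := (Real.exp_pos h').le
      linarith
  · intro x
    obtain ⟨y, hy, hxy⟩ := hs (n + 1) (mem_univ x)
    refine ⟨y, hy, fun k hk => ?_⟩
    have h6 := Dynamics.mem_dynEntourage.1 hxy k (by omega)
    exact le_of_lt h6

theorem iter_cancel {M : Type v} [TopologicalSpace M] (f : M ≃ₜ M) (n : ℕ) (x : M) :
    f^[n] (f.symm^[n] x) = x := by
  have h := (Function.RightInverse.iterate (f := f) (g := f.symm)
    (fun y => f.apply_symm_apply y) n) x
  exact h

/-- `f.symm^[k] (f^[n] x) = f^[n-k] x` -/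
theorem symm_iter_sub {M : Type v} [TopologicalSpace M] (f : M ≃ₜ M) {n k : ℕ} (hk : k ≤ n)
    (x : M) : f.symm^[k] (f^[n] x) = f^[n - k] x := by
  have h1 : f^[n] x = f^[k] (f^[n - k] x) := by
    rw [← Function.iterate_add_apply]; congr 2; omega
  rw [h1]
  have h := (Function.LeftInverse.iterate (f := f) (g := f.symm)
    (fun y => f.symm_apply_apply y) k) (f^[n - k] x)
  exact h

theorem hcov_symm {M : Type v} [MetricSpace M] (f : M ≃ₜ M) {κ : ℝ} (h : HCov f κ) :
    HCov f.symm κ := by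
  classical
  intro θ hθ
  obtain ⟨C, hC⟩ := h θ hθ
  refine ⟨C, fun n => ?_⟩
  obtain ⟨Y, hY, hcov⟩ := hC n
  refine ⟨Y.image (f^[n]), ?_, fun x => ?_⟩
  · refine le_trans ?_ hY
    exact_mod_cast Finset.card_image_le
  · obtain ⟨y, hy, hxy⟩ := hcov (f.symm^[n] x)
    refine ⟨f^[n] y, Finset.mem_image_of_mem _ hy, fun k hk => ?_⟩
    have h1 := hxy (n - k) (Nat.sub_le _ _)
    rw [← symm_iter_sub f hk, ← symm_iter_sub f hk, iter_cancel] at h1
    exact h1

theorem hcov_iter {M : Type v} [MetricSpace M] (f : M ≃ₜ M) {κ : ℝ} (h : HCov f κ) (m : ℕ) :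
    HCov (iterHomeo f m) (κ * m) := by
  intro θ hθ
  obtain ⟨C, hC⟩ := h θ hθ
  refine ⟨C, fun n => ?_⟩
  obtain ⟨Y, hY, hcov⟩ := hC (n * m)
  refine ⟨Y, ?_, fun x => ?_⟩
  · refine hY.trans (le_of_eq ?_)
    congr 2; push_cast; ring
  · obtain ⟨y, hy, hxy⟩ := hcov x
    refine ⟨y, hy, fun k hk => ?_⟩
    have h1 := hxy (m * k) (by rw [mul_comm n m]; exact Nat.mul_le_mul_left m hk)
    have h2 : ∀ z, (iterHomeo f m)^[k] z = f^[m * k] z := by
      intro z
      rw [Function.iterate_mul]; rfl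
    rw [h2, h2]
    exact h1

theorem main : S_ENT.{v} := by
  intro M _ _ f h hh h' hh'
  have h1 := hcov_of_entropy f h hh hh'
  exact ⟨h1, hcov_symm f h1, fun n => ⟨hcov_iter f h1 n, hcov_symm _ (hcov_iter f h1 n)⟩⟩

end Pool.Agent.N234.CP.Ent
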