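import Pool.Agent.N234.CP.Stm

set_option autoImplicit false

/-! Project CP, job G1: the projection to a local stable set is Lipschitz at the points of this
set. -/

open Filter Topology Set Metric

namespace Pool.Agent.N234.CP.G1

open Pool.Agent.N234.CP Pool.Agent.H721R2 Pool.Agent.H789R2.AN Pool.Agent.H789R2.GP

universe v w

theorem main : S_G1.{v, w} := by
  intro X _ _ E _ _ S c _ br δ hb
  have hK := S.one_le_K
  obtain ⟨K, hKd⟩ : ∃ K : ℝ, K = S.K := ⟨_, rfl⟩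
  rw [← hKd] at hK
  obtain ⟨η, hη⟩ : ∃ η : ℝ, η = 1 / (8 * K + 4) := ⟨_, rfl⟩
  have hη0 : 0 < η := by rw [hη]; positivity
  have hη2 : 4 * K * η + 2 * η = 1 / 2 := by
    rw [hη]
    field_simp
    ring
  have hη1 : η ≤ 1 := by nlinarith
  obtain ⟨ε₁, hε₁, cs⟩ := S.coneS' η hη0 hη1
  obtain ⟨ε₂, hε₂, cu⟩ := S.symm.coneS' η hη0 hη1
  obtain ⟨ε, hε, h1, h2⟩ : ∃ ε : ℝ, 0 < ε ∧ ε ≤ ε₁ ∧ ε ≤ ε₂ :=
    ⟨min ε₁ ε₂, lt_min hε₁ hε₂, min_le_left _ _, min_le_right _ _⟩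
  obtain ⟨β, hβ, hb2⟩ := hb.b2 (ε / 2) (by positivity)
  refine ⟨min β (ε / 2), by positivity, fun x y q hxy hxq => ?_⟩
  obtain ⟨h3, h4⟩ := hb2 x q (lt_of_lt_of_le hxq (min_le_left _ _))
  obtain ⟨z, hz⟩ : ∃ z, z = br x q := ⟨_, rfl⟩
  rw [← hz] at h3 h4 ⊢
  have h5 : S.SRel ε₁ z y := by
    intro k
    have e1 := h3 k
    have e2 := (hxy k).trans (min_le_right _ _)
    rw [dist_comm] at e1
    have e3 := dist_triangle (S.g^[k] z) (S.g^[k] x) (S.g^[k] y)
    linarith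
  have h6 : S.symm.SRel ε₂ z q := by
    intro k
    have e1 := h4 k
    rw [dist_comm] at e1
    exact e1.trans (by linarith)
  obtain ⟨s, hs, hs1⟩ := cs z y h5
  obtain ⟨u, hu, hu1⟩ := cu z q h6
  have hu' : u ∈ S.Vu z := hu
  have hu1' : ‖S.e q - S.e z - u‖ ≤ 2 * η * dist z q := hu1
  obtain ⟨g1, g2⟩ := S.angle z s hs (-u) (neg_mem hu')
  rw [← hKd, norm_neg] at g2
  rw [← hKd] at g1 ⊢
  have e1 : s + -u = (S.e y - S.e q) - (S.e y - S.e z - s) + (S.e q - S.e z - u) := by abel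
  have e2 : ‖s + -u‖ ≤ dist q y + 2 * η * dist z y + 2 * η * dist z q := by
    rw [e1]
    refine (norm_add_le _ _).trans (add_le_add ((norm_sub_le _ _).trans (add_le_add ?_ hs1)) hu1')
    rw [S.isom, norm_sub_rev]
  have e3 : dist z y ≤ ‖s‖ + 2 * η * dist z y := by
    have e : S.e y - S.e z = s + (S.e y - S.e z - s) := by abel
    calc dist z y = ‖S.e y - S.e z‖ := by rw [S.isom, norm_sub_rev]
      _ ≤ ‖s‖ + ‖S.e y - S.e z - s‖ := by
          conv_lhs => rw [e]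
          exact norm_add_le _ _
      _ ≤ _ := by linarith
  have e4 : dist z q ≤ ‖u‖ + 2 * η * dist z q := by
    have e : S.e q - S.e z = u + (S.e q - S.e z - u) := by abel
    calc dist z q = ‖S.e q - S.e z‖ := by rw [S.isom, norm_sub_rev]
      _ ≤ ‖u‖ + ‖S.e q - S.e z - u‖ := by
          conv_lhs => rw [e]
          exact norm_add_le _ _
      _ ≤ _ := by linarith
  have hA : 0 ≤ dist z y := dist_nonneg
  have hB : 0 ≤ dist z q := dist_nonneg
  have e5 := mul_le_mul_of_nonneg_left e2 (by linarith : 0 ≤ K)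
  have e6 : (dist z y + dist z q) * (1 - (4 * K * η + 2 * η)) ≤ 2 * K * dist q y := by nlinarith
  rw [hη2] at e6
  linarith

end Pool.Agent.N234.CP.G1
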