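import Pool.Agent.N234.CP.Stm

set_option autoImplicit false

/-! Project CP, job G2: the projection of a disc to a local stable set is uniformly injective. -/

open Filter Topology Set Metric

namespace Pool.Agent.N234.CP.G2

open Pool.Agent.N234.CP Pool.Agent.H721R2 Pool.Agent.H789R2.AN Pool.Agent.H789R2.GP

universe v w

theorem main : S_G2.{v, w} := by
  intro X _ _ E _ _ S c hLP br δ hb
  have hK := S.one_le_K
  obtain ⟨K, hKd⟩ : ∃ K : ℝ, K = S.K := ⟨_, rfl⟩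
  rw [← hKd] at hK
  have hδ := hb.pos
  have hc := hLP.c_pos
  obtain ⟨η₀, hη₀⟩ : ∃ η : ℝ, η = 1 / (40 * K) := ⟨_, rfl⟩
  have hη0 : 0 < η₀ := by rw [hη₀]; positivity
  have hKη : K * η₀ = 1 / 40 := by rw [hη₀]; field_simp
  have hη1 : η₀ ≤ 1 / 40 := by nlinarith
  obtain ⟨εc, hεc, cu⟩ := S.symm.coneS' η₀ hη0 (by linarith)
  obtain ⟨rA, hrA, hA3⟩ := S.A3' η₀ hη0
  refine ⟨η₀, hη0, fun η r₀ D hη hr₀ hD => ?_⟩
  -- the discs with the constant `η₀`
  have hD1 : ∀ x, ∀ v ∈ S.Vs x, ∀ v' ∈ S.Vs x, ‖v‖ < r₀ → ‖v'‖ < r₀ →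
      ‖S.e (D x v) - S.e (D x v') - (v - v')‖ ≤ η₀ * ‖v - v'‖ := by
    intro x v hv v' hv' h1 h2
    exact ((hD x).2 v hv v' hv' h1 h2).trans (mul_le_mul_of_nonneg_right hη (norm_nonneg _))
  have hD2 : ∀ x, ∀ v ∈ S.Vs x, ∀ v' ∈ S.Vs x, ‖v‖ < r₀ → ‖v'‖ < r₀ →
      dist (D x v) (D x v') ≤ 2 * ‖v - v'‖ := by
    intro x v hv v' hv' h1 h2
    have h3 := hD1 x v hv v' hv' h1 h2
    have e : S.e (D x v) - S.e (D x v') = (v - v') + (S.e (D x v) - S.e (D x v') - (v - v')) := by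
      abel
    rw [S.isom, e]
    refine (norm_add_le _ _).trans ?_
    have := norm_nonneg (v - v')
    nlinarith
  have hD3 : ∀ x, ∀ v ∈ S.Vs x, ‖v‖ < r₀ → dist x (D x v) ≤ 2 * ‖v‖ := by
    intro x v hv h1
    have h2 := hD2 x v hv 0 (zero_mem _) h1 (by rwa [norm_zero])
    rw [(hD x).1, sub_zero] at h2
    rwa [dist_comm]
  -- the radii
  obtain ⟨ε, hε, k1, k2, k3, k4⟩ : ∃ ε : ℝ, 0 < ε ∧ 4 * ε ≤ εc ∧ ε ≤ c / 3 ∧ 8 * ε ≤ δ ∧
      8 * ε ≤ rA := by
    refine ⟨min (min (εc / 4) (c / 3)) (min (δ / 8) (rA / 8)), by positivity, ?_, ?_, ?_, ?_⟩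
    · have := (min_le_left (min (εc / 4) (c / 3)) (min (δ / 8) (rA / 8))).trans (min_le_left _ _)
      linarith
    · exact (min_le_left _ _).trans (min_le_right _ _)
    · have := (min_le_right (min (εc / 4) (c / 3)) (min (δ / 8) (rA / 8))).trans (min_le_left _ _)
      linarith
    · have := (min_le_right (min (εc / 4) (c / 3)) (min (δ / 8) (rA / 8))).trans (min_le_right _ _)
      linarith
  obtain ⟨β, hβ, hb2⟩ := hb.b2 ε hε
  obtain ⟨β', hβ', hb2'⟩ := hb.b2 (min ε (β / 4)) (by positivity)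
  obtain ⟨r, hr, l1, l2, l3, l4⟩ : ∃ r : ℝ, 0 < r ∧ r ≤ r₀ ∧ 2 * r ≤ β' ∧ 8 * r ≤ β ∧
      8 * r ≤ δ := by
    refine ⟨min (min r₀ (β' / 2)) (min (β / 8) (δ / 8)), by positivity, ?_, ?_, ?_, ?_⟩
    · exact (min_le_left _ _).trans (min_le_left _ _)
    · have := (min_le_left (min r₀ (β' / 2)) (min (β / 8) (δ / 8))).trans (min_le_right _ _)
      linarith
    · have := (min_le_right (min r₀ (β' / 2)) (min (β / 8) (δ / 8))).trans (min_le_left _ _)
      linarith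
    · have := (min_le_right (min r₀ (β' / 2)) (min (β / 8) (δ / 8))).trans (min_le_right _ _)
      linarith
  refine ⟨r, hr, l1, fun ρ hρ => ?_⟩
  obtain ⟨ε', hε', m1⟩ : ∃ ε' : ℝ, 0 < ε' ∧ 4 * K * ε' < ρ := by
    refine ⟨ρ / (8 * K), by positivity, ?_⟩
    have : 4 * K * (ρ / (8 * K)) = ρ / 2 := by field_simp; ring
    rw [this]
    linarith
  obtain ⟨τ, hτ, hb4⟩ := hb.b4 ε' hε'
  refine ⟨τ, hτ, fun x v hv v' hv' hvr hvr' hρv => ?_⟩
  by_contra hcon
  push Not at hcon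
  obtain ⟨q, hq⟩ : ∃ q, q = D x v := ⟨_, rfl⟩
  obtain ⟨q', hq'⟩ : ∃ q', q' = D x v' := ⟨_, rfl⟩
  obtain ⟨z, hz⟩ : ∃ z, z = br x q := ⟨_, rfl⟩
  obtain ⟨z', hz'⟩ : ∃ z', z' = br x q' := ⟨_, rfl⟩
  rw [← hq, ← hq', ← hz, ← hz'] at hcon
  have d1 : dist x q < 2 * r := by
    rw [hq]
    have := hD3 x v hv (hvr.trans_le l1)
    linarith
  have d2 : dist x q' < 2 * r := by
    rw [hq']
    have := hD3 x v' hv' (hvr'.trans_le l1)
    linarith
  obtain ⟨p1, p2⟩ := hb2' x q (by linarith)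
  obtain ⟨p3, p4⟩ := hb2' x q' (by linarith)
  rw [← hz] at p1 p2
  rw [← hz'] at p3 p4
  have o1 : dist x z ≤ min ε (β / 4) := by simpa using p1 0
  have o2 : dist x z' ≤ min ε (β / 4) := by simpa using p3 0
  have o1a := o1.trans (min_le_left _ _)
  have o1b := o1.trans (min_le_right _ _)
  have o2a := o2.trans (min_le_left _ _)
  have d3 : dist q' z < β := by
    have := dist_triangle q' x z
    rw [dist_comm] at d2
    linarith
  have d4 : dist q' z < δ := by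
    have := dist_triangle q' x z
    rw [dist_comm] at d2
    linarith
  have d5 : dist q' z' < δ := by
    have := dist_triangle q' x z'
    rw [dist_comm] at d2
    linarith
  have p2' : SR S.g.symm ε q z := p2.mono (min_le_left _ _)
  have p4' : SR S.g.symm ε q' z' := p4.mono (min_le_left _ _)
  have hq'br : q' = br q' z' := by
    refine hb.b3 q' z' q' d5 ?_ ?_
    · intro k
      rw [dist_self]
      positivity
    · exact (p4'.symm').mono k2
  obtain ⟨w, hw⟩ : ∃ w, w = br q' z := ⟨_, rfl⟩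
  have hwq' : dist w q' < ε' := by
    have := hb4 q' q' z z' d4 d5 (by rwa [dist_self]) hcon
    rwa [← hw, ← hq'br] at this
  obtain ⟨-, p6⟩ := hb2 q' z d3
  rw [← hw] at p6
  have p7 : S.symm.SRel εc w q := by
    intro k
    have e1 : dist (S.g.symm^[k] z) (S.g.symm^[k] w) ≤ ε := p6 k
    have e2 : dist (S.g.symm^[k] q) (S.g.symm^[k] z) ≤ ε := p2' k
    have e3 := dist_triangle (S.g.symm^[k] w) (S.g.symm^[k] z) (S.g.symm^[k] q)
    rw [dist_comm] at e1 e2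
    show dist (S.g.symm^[k] w) (S.g.symm^[k] q) ≤ εc
    linarith
  obtain ⟨u, hu, hu1⟩ := cu w q p7
  have hu' : u ∈ S.Vu w := hu
  have hu1' : ‖S.e q - S.e w - u‖ ≤ 2 * η₀ * dist w q := hu1
  have d6 : dist w x < rA := by
    have e1 : dist z w ≤ ε := by simpa using p6 0
    have e2 := dist_triangle w z x
    rw [dist_comm] at e1 o1a
    linarith
  obtain ⟨u', hu'x, hu2⟩ := hA3 w x d6 u hu'
  have hun : ‖u‖ ≤ 2 * dist w q := by
    have e : u = (S.e q - S.e w) - (S.e q - S.e w - u) := by abel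
    have h1 : ‖u‖ ≤ ‖S.e q - S.e w‖ + ‖S.e q - S.e w - u‖ := by
      conv_lhs => rw [e]
      exact norm_sub_le _ _
    have h2 : ‖S.e q - S.e w‖ = dist w q := by rw [S.isom, norm_sub_rev]
    have h3 : 0 ≤ dist w q := dist_nonneg
    nlinarith
  have h7 := hD1 x v hv v' hv' (hvr.trans_le l1) (hvr'.trans_le l1)
  have h8 := hD2 x v hv v' hv' (hvr.trans_le l1) (hvr'.trans_le l1)
  rw [← hq, ← hq'] at h7 h8
  have h9 : (v - v') + -u' = (S.e w - S.e q') - (S.e q - S.e q' - (v - v'))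
      + (S.e q - S.e w - u) + (u - u') := by abel
  have h10 : ‖S.e w - S.e q'‖ < ε' := by rw [← S.isom]; exact hwq'
  have h11 : ‖(v - v') + -u'‖ ≤ ε' + η₀ * ‖v - v'‖ + 2 * η₀ * dist w q + η₀ * (2 * dist w q) := by
    rw [h9]
    refine (norm_add_le _ _).trans (add_le_add ((norm_add_le _ _).trans (add_le_add
      ((norm_sub_le _ _).trans (add_le_add h10.le h7)) hu1')) ?_)
    exact hu2.trans (mul_le_mul_of_nonneg_left hun hη0.le)
  have h12 : dist w q ≤ 2 * ‖v - v'‖ + ε' := by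
    have := dist_triangle w q' q
    rw [dist_comm q q'] at h8
    linarith
  have h13 := (S.angle x (v - v') (sub_mem hv hv') (-u') (neg_mem hu'x)).1
  rw [← hKd] at h13
  have hm : 0 ≤ ‖v - v'‖ := norm_nonneg _
  have h14 : ‖(v - v') + -u'‖ ≤ 2 * ε' + 9 * η₀ * ‖v - v'‖ := by
    have h15 : 4 * η₀ * dist w q ≤ 4 * η₀ * (2 * ‖v - v'‖ + ε') :=
      mul_le_mul_of_nonneg_left h12 (by positivity)
    nlinarith
  have h15 : ‖v - v'‖ ≤ K * (2 * ε' + 9 * η₀ * ‖v - v'‖) :=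
    h13.trans (mul_le_mul_of_nonneg_left h14 (by linarith))
  have h16 : K * (2 * ε' + 9 * η₀ * ‖v - v'‖) = 2 * K * ε' + 9 / 40 * ‖v - v'‖ := by
    calc _ = 2 * K * ε' + 9 * (K * η₀) * ‖v - v'‖ := by ring
      _ = _ := by rw [hKη]; ring
  rw [h16] at h15
  have : 0 < K * ε' := by positivity
  linarith

end Pool.Agent.N234.CP.G2
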