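import Pool.Agent.N234.CP.Stm

set_option autoImplicit false

/-! Project CP, job G4: chains of dynamically close points project to stable chains. -/

open Filter Topology Set Metric

namespace Pool.Agent.N234.CP.G4

open Pool.Agent.N234.CP Pool.Agent.H721R2 Pool.Agent.H789R2.AN Pool.Agent.H789R2.GP

universe v

theorem main : S_G4.{v} := by
  intro X _ _ g c _ br δ hb δ₁ hδ₁
  obtain ⟨r, hr, h2⟩ := hb.b2 (δ₁ / 4) (by positivity)
  refine ⟨r, hr, δ₁ / 4, by positivity, fun x N n q hq hθ =>
    ⟨fun k => g.symm^[n] (br x (q k)), rfl, rfl, fun k hk i => ?_⟩⟩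
  obtain ⟨a1, a2⟩ := h2 x (q k) (hq k hk.le)
  obtain ⟨b1, b2⟩ := h2 x (q (k + 1)) (hq (k + 1) hk)
  simp only
  rcases le_total i n with hi | hi
  · rw [T1_iter_sub g hi, T1_iter_sub g hi]
    have e1 := a2 (n - i)
    have e2 := b2 (n - i)
    have e3 := hθ k hk (n - i) (Nat.sub_le n i)
    have e4 := dist_triangle4 (g.symm^[n - i] (br x (q k))) (g.symm^[n - i] (q k))
      (g.symm^[n - i] (q (k + 1))) (g.symm^[n - i] (br x (q (k + 1))))
    rw [dist_comm] at e1
    linarith
  · rw [T1_iter_add g hi, T1_iter_add g hi]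
    have e1 := a1 (i - n)
    have e2 := b1 (i - n)
    have e4 := dist_triangle (g^[i - n] (br x (q k))) (g^[i - n] x)
      (g^[i - n] (br x (q (k + 1))))
    rw [dist_comm] at e1
    linarith

end Pool.Agent.N234.CP.G4
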