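import Pool.Agent.N234.CP.Grow

set_option autoImplicit false
set_option linter.unusedSectionVars false

/-! Polynomial growth of the fundamental group under the coarse pinching condition: the exponent. -/

open Filter Topology Set Metric unitInterval
open scoped Pointwise

namespace Pool.Agent.N234.CP

open Pool.Agent.H789R2.AN Pool.Agent.H789R2.GP Pool.Agent.Y330.J

variable {X : Type*} [MetricSpace X] [CompactSpace X] {g : X ≃ₜ X} {c : ℝ}

/-- counting with dynamical balls -/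
theorem growth_of_cor2 (hg : LP g c) (hX : ULC X) {κ : ℝ} (hκ : 0 ≤ κ) (hcov : HCov g κ) (K₀ : ℝ)
    {x : X} {S : Set (FundamentalGroup X x)}
    (hcor : ∃ A : ℝ, ∀ n : ℕ, ∃ i j : ℕ, ((i + j : ℕ) : ℝ) ≤ A + K₀ * Real.log (n + 1) ∧
      ∀ α ∈ S ^ n, Cor g c i j (x := x) α) :
    ∃ C : ℝ, ∀ n : ℕ, ((S ^ n).ncard : ℝ) ≤ C * ((n : ℝ) + 1) ^ (κ * K₀) := by
  classical
  have hc := hg.c_pos
  obtain ⟨C, hC⟩ := hcov (c / 2) (by positivity)
  obtain ⟨A, hA⟩ := hcor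
  refine ⟨|C| * Real.exp (κ * A), fun n => ?_⟩
  obtain ⟨i, j, hij, hC1⟩ := hA n
  obtain ⟨Y, hY1, hY2⟩ := hC (i + j)
  have hne : Nonempty X := ⟨x⟩
  have hC' : ∀ α ∈ S ^ n, ∃ y : X, ∃ (p : Path.Homotopic.Quotient x y)
      (q : Path.Homotopic.Quotient y x), Scl g.symm p ∧ Scl g q ∧ α = p.trans q ∧
      (∀ l ≥ i, dist (g.symm^[l] x) (g.symm^[l] y) ≤ c / 2) ∧
      ∀ l ≥ j, dist (g^[l] y) (g^[l] x) ≤ c / 2 := hC1
  choose! y hy using hC'
  have hU : ∀ α ∈ S ^ n, ∀ l ≥ i, dist (g.symm^[l] x) (g.symm^[l] (y α)) ≤ c / 2 := by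
    intro α hα
    obtain ⟨p, r, -, -, -, h1, -⟩ := hy α hα
    exact h1
  have hV : ∀ α ∈ S ^ n, ∀ l ≥ j, dist (g^[l] (y α)) (g^[l] x) ≤ c / 2 := by
    intro α hα
    obtain ⟨p, r, -, -, -, -, h1⟩ := hy α hα
    exact h1
  choose w hw1 hw2 using hY2
  have e1 : ∀ m ≤ i, ∀ z : X, g^[m] (g.symm^[i] z) = g.symm^[i - m] z := by
    intro m hm z
    conv_lhs => rw [show i = m + (i - m) by omega, Function.iterate_add_apply]
    exact iterR _ _ _
  have e2 : ∀ m, ∀ z : X, g^[i + m] (g.symm^[i] z) = g^[m] z := by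
    intro m z
    rw [add_comm i m, Function.iterate_add_apply, iterR]
  have hinj : Set.InjOn (fun α => w (g.symm^[i] (y α))) (S ^ n) := by
    intro α hα β hβ hab
    have hab' : w (g.symm^[i] (y α)) = w (g.symm^[i] (y β)) := hab
    have hd : ∀ m ≤ i + j, dist (g^[m] (g.symm^[i] (y α))) (g^[m] (g.symm^[i] (y β))) ≤ c := by
      intro m hm
      have a1 := hw2 (g.symm^[i] (y α)) m hm
      have a2 := hw2 (g.symm^[i] (y β)) m hm
      rw [← hab'] at a2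
      have := dist_triangle_right (g^[m] (g.symm^[i] (y α))) (g^[m] (g.symm^[i] (y β)))
        (g^[m] (w (g.symm^[i] (y α))))
      linarith
    have h1 : y α = y β := by
      refine Pool.Agent.Y330.G.expans hg (fun m => ?_) fun m => ?_
      · rcases le_total j m with h | h
        · have := dist_triangle_right (g^[m] (y α)) (g^[m] (y β)) (g^[m] x)
          linarith [hV α hα m h, hV β hβ m h]
        · have := hd (i + m) (by omega)
          rwa [e2, e2] at this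
      · rcases le_total i m with h | h
        · have := dist_triangle_left (g.symm^[m] (y α)) (g.symm^[m] (y β)) (g.symm^[m] x)
          linarith [hU α hα m h, hU β hβ m h]
        · have := hd (i - m) (by omega)
          rw [e1 _ (by omega), e1 _ (by omega)] at this
          rwa [show i - (i - m) = m by omega] at this
    obtain ⟨p, r, p1, r1, e1, -, -⟩ := hy α hα
    obtain ⟨p', r', p2, r2, e2, -, -⟩ := hy β hβ
    rw [e1, e2]
    clear e1 e2 hab hab' hd hα hβ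
    generalize y β = yb at *
    subst h1
    rw [p1.unique hX p2, r1.unique hX r2]
  have hcard : (S ^ n).ncard ≤ Y.card := by
    have h1 := Set.ncard_le_ncard_of_injOn (t := (Y : Set X)) _ (fun α _ => hw1 _) hinj
      Y.finite_toSet
    rwa [Set.ncard_coe_finset] at h1
  have hn1 : (0 : ℝ) < (n : ℝ) + 1 := by positivity
  calc ((S ^ n).ncard : ℝ) ≤ Y.card := by exact_mod_cast hcard
    _ ≤ C * Real.exp (κ * ((i + j : ℕ) : ℝ)) := hY1
    _ ≤ |C| * Real.exp (κ * (A + K₀ * Real.log (n + 1))) := by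
        apply mul_le_mul (le_abs_self C) _ (Real.exp_pos _).le (abs_nonneg C)
        exact Real.exp_le_exp.mpr (mul_le_mul_of_nonneg_left hij hκ)
    _ = |C| * Real.exp (κ * A) * ((n : ℝ) + 1) ^ (κ * K₀) := by
        rw [Real.rpow_def_of_pos hn1, mul_assoc, ← Real.exp_add]
        congr 2
        ring

/-- the best position of the rectangle -/
theorem exists_km_opt {σ₁ σ₂ υ₁ υ₂ : ℝ} (h2 : 0 < σ₂) (h21 : σ₂ ≤ σ₁) (h4 : 0 < υ₂)
    (h43 : υ₂ ≤ υ₁) (hc : (σ₁ - σ₂) * (υ₁ - υ₂) < σ₂ * υ₂) {A₁ A₂ : ℝ} (h1 : 0 ≤ A₁)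
    (h3 : 0 ≤ A₂) :
    ∃ k m : ℕ, A₁ + σ₁ * k ≤ σ₂ * (k + m) ∧ A₂ + υ₁ * m ≤ υ₂ * (k + m) ∧
      ((k + m : ℕ) : ℝ) ≤ (υ₁ * (A₁ + (σ₁ - σ₂)) + σ₁ * (A₂ + (υ₁ - υ₂))) /
        (σ₂ * υ₂ - (σ₁ - σ₂) * (υ₁ - υ₂)) + 2 := by
  set D := σ₂ * υ₂ - (σ₁ - σ₂) * (υ₁ - υ₂) with hD
  have hD0 : 0 < D := by linarith
  set b₁ := A₁ + (σ₁ - σ₂) with hb₁
  set b₂ := A₂ + (υ₁ - υ₂) with hb₂
  have hb₁0 : 0 ≤ b₁ := by linarith
  have hb₂0 : 0 ≤ b₂ := by linarith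
  have hs0 : 0 ≤ σ₁ - σ₂ := by linarith
  have hu0 : 0 ≤ υ₁ - υ₂ := by linarith
  set ms := (υ₂ * b₁ + (σ₁ - σ₂) * b₂) / D with hms
  set ks := (σ₂ * b₂ + (υ₁ - υ₂) * b₁) / D with hks
  have hms0 : 0 ≤ ms := by positivity
  have hks0 : 0 ≤ ks := by positivity
  have e1 : σ₂ * ms - (σ₁ - σ₂) * ks = b₁ := by
    rw [hms, hks]
    field_simp
    rw [hD]
    ring
  have e2 : υ₂ * ks - (υ₁ - υ₂) * ms = b₂ := by
    rw [hms, hks]
    field_simp
    rw [hD]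
    ring
  have k1 : ks ≤ ⌈ks⌉₊ := Nat.le_ceil _
  have k2 : (⌈ks⌉₊ : ℝ) < ks + 1 := Nat.ceil_lt_add_one hks0
  have m1 : ms ≤ ⌈ms⌉₊ := Nat.le_ceil _
  have m2 : (⌈ms⌉₊ : ℝ) < ms + 1 := Nat.ceil_lt_add_one hms0
  refine ⟨⌈ks⌉₊, ⌈ms⌉₊, ?_, ?_, ?_⟩
  · have f1 : (σ₁ - σ₂) * (⌈ks⌉₊ : ℝ) ≤ (σ₁ - σ₂) * (ks + 1) :=
      mul_le_mul_of_nonneg_left k2.le hs0
    have f2 : σ₂ * ms ≤ σ₂ * (⌈ms⌉₊ : ℝ) := mul_le_mul_of_nonneg_left m1 h2.le
    linarith
  · have f1 : (υ₁ - υ₂) * (⌈ms⌉₊ : ℝ) ≤ (υ₁ - υ₂) * (ms + 1) :=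
      mul_le_mul_of_nonneg_left m2.le hu0
    have f2 : υ₂ * ks ≤ υ₂ * (⌈ks⌉₊ : ℝ) := mul_le_mul_of_nonneg_left k1 h4.le
    linarith
  · push_cast
    have f1 : (υ₁ * b₁ + σ₁ * b₂) / D = ks + ms := by
      rw [hms, hks, ← add_div]
      congr 1
      ring
    rw [f1]
    linarith

/-- **Polynomial growth** under the coarse pinching condition, abstract form, with the exponent. -/
theorem growth_of_rates2 (hg : LP g c) (hX : ULC X) (hex : Ex g) {δ : ℝ} (hδ : 0 < δ)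
    (hδc : δ ≤ c) {σ₁ σ₂ υ₁ υ₂ : ℝ} (h2 : 0 < σ₂) (h21 : σ₂ ≤ σ₁) (h4 : 0 < υ₂) (h43 : υ₂ ≤ υ₁)
    (hcond : (σ₁ - σ₂) * (υ₁ - υ₂) < σ₂ * υ₂) (hS1 : UpRate g δ σ₁) (hS2 : LoRate g δ σ₂)
    (hU1 : UpRate g.symm δ υ₁) (hU2 : LoRate g.symm δ υ₂) {κ : ℝ} (hκ : 0 ≤ κ)
    (hcov : HCov g κ) (x : X) (S : Set (FundamentalGroup X x)) (hS : S.Finite) :
      ∃ C : ℝ, ∀ n : ℕ, ((S ^ n).ncard : ℝ) ≤
        C * ((n : ℝ) + 1) ^ (κ * ((υ₁ + σ₁) / (σ₂ * υ₂ - (σ₁ - σ₂) * (υ₁ - υ₂)))) := by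
  have hc := hg.c_pos
  obtain ⟨br, δb, hb⟩ := exists_BrP hg
  obtain ⟨δq, hδq, hsq⟩ := square hg hX
  -- scales
  set δ₁ := min (min δ (c / 3)) δq with hδ₁
  have d0 : 0 < δ₁ := lt_min (lt_min hδ (by linarith)) hδq
  have d1 : δ₁ ≤ δ := (min_le_left _ _).trans (min_le_left _ _)
  have d2 : 3 * δ₁ ≤ c := by
    have : δ₁ ≤ c / 3 := (min_le_left _ _).trans (min_le_right _ _)
    linarith
  have d3 : δ₁ ≤ δq := min_le_right _ _
  obtain ⟨η₁, hη₁, hb2⟩ := hb.b2 δ₁ d0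
  set η := min η₁ δb with hη
  have e0 : 0 < η := lt_min hη₁ hb.pos
  obtain ⟨ηg, hηg, hgap⟩ := qs_SR_of_dist hg δ₁ d0
  set ρ := min δ₁ (min (η / 4) (ηg / 4)) with hρ
  have r0 : 0 < ρ := by positivity
  have r1 : ρ ≤ δ₁ := min_le_left _ _
  have r2 : ρ ≤ η / 4 := (min_le_right _ _).trans (min_le_left _ _)
  have r3 : ρ ≤ ηg / 4 := (min_le_right _ _).trans (min_le_right _ _)
  obtain ⟨C₁, hC₁, U1⟩ := hS1.fine hg hδc r0
  obtain ⟨C₂, hC₂, U2⟩ := hU1.fine hg.symm hδc r0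
  obtain ⟨D₁, hD₁, V1⟩ := hS2.fine hg h2 hδc r0
  obtain ⟨D₂, hD₂, V2⟩ := hU2.fine hg.symm h4 hδc r0
  set DD := σ₂ * υ₂ - (σ₁ - σ₂) * (υ₁ - υ₂) with hDD
  have hDD0 : 0 < DD := by linarith
  refine growth_of_cor2 hg hX hκ hcov ((υ₁ + σ₁) / DD) ?_
  obtain ⟨N, hN⟩ := Gen.finite (c := c) hg hX hex hδ hS
  set B₁ := Real.log (D₁ * C₁) + σ₁ * N with hB₁
  set B₂ := Real.log (D₂ * C₂) + υ₁ * N with hB₂
  have hDC₁ : 0 < D₁ * C₁ := by positivity
  have hDC₂ : 0 < D₂ * C₂ := by positivity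
  have hB₁0 : 0 ≤ B₁ := by
    have a1 : 0 ≤ Real.log (D₁ * C₁) := Real.log_nonneg (by nlinarith)
    have a2 : 0 ≤ σ₁ * N := mul_nonneg (by linarith) (Nat.cast_nonneg _)
    linarith
  have hB₂0 : 0 ≤ B₂ := by
    have a1 : 0 ≤ Real.log (D₂ * C₂) := Real.log_nonneg (by nlinarith)
    have a2 : 0 ≤ υ₁ * N := mul_nonneg (by linarith) (Nat.cast_nonneg _)
    linarith
  refine ⟨(υ₁ * (B₁ + (σ₁ - σ₂)) + σ₁ * (B₂ + (υ₁ - υ₂))) / DD + 2, fun n => ?_⟩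
  have hn1 : (0 : ℝ) < (n : ℝ) + 1 := by positivity
  have hlog0 : 0 ≤ Real.log ((n : ℝ) + 1) := Real.log_nonneg (by
    have : (0 : ℝ) ≤ n := Nat.cast_nonneg _
    linarith)
  obtain ⟨k, m, hk1, hk2, hk3⟩ := exists_km_opt h2 h21 h4 h43 hcond
    (A₁ := B₁ + Real.log (n + 1)) (A₂ := B₂ + Real.log (n + 1)) (by linarith) (by linarith)
  rw [← hDD] at hk3
  set L₁ := ⌊C₁ * Real.exp (σ₁ * ((k + N : ℕ) : ℝ))⌋₊ with hL₁
  set J₁ := ⌊C₂ * Real.exp (υ₁ * ((m + N : ℕ) : ℝ))⌋₊ with hJ₁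
  have K1 : D₁ * ((n * L₁ : ℕ) : ℝ) ≤ Real.exp (σ₂ * ((k + m : ℕ) : ℝ)) := by
    have a1 : (L₁ : ℝ) ≤ C₁ * Real.exp (σ₁ * ((k + N : ℕ) : ℝ)) :=
      Nat.floor_le (by positivity)
    calc D₁ * ((n * L₁ : ℕ) : ℝ) = D₁ * (n * L₁) := by push_cast; ring
      _ ≤ D₁ * ((n + 1) * (C₁ * Real.exp (σ₁ * ((k + N : ℕ) : ℝ)))) := by
          apply mul_le_mul_of_nonneg_left _ (by linarith)
          exact mul_le_mul (by linarith) a1 (Nat.cast_nonneg _) (by linarith)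
      _ = Real.exp (B₁ + Real.log (n + 1) + σ₁ * k) := by
          rw [hB₁, Real.exp_add, Real.exp_add, Real.exp_add, Real.exp_log hDC₁,
            Real.exp_log hn1]
          have : Real.exp (σ₁ * ((k + N : ℕ) : ℝ)) = Real.exp (σ₁ * N) * Real.exp (σ₁ * k) := by
            rw [← Real.exp_add]; congr 1; push_cast; ring
          rw [this]; ring
      _ ≤ _ := Real.exp_le_exp.mpr (by push_cast; exact hk1)
  have K2 : D₂ * ((n * J₁ : ℕ) : ℝ) ≤ Real.exp (υ₂ * ((k + m : ℕ) : ℝ)) := by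
    have a1 : (J₁ : ℝ) ≤ C₂ * Real.exp (υ₁ * ((m + N : ℕ) : ℝ)) :=
      Nat.floor_le (by positivity)
    calc D₂ * ((n * J₁ : ℕ) : ℝ) = D₂ * (n * J₁) := by push_cast; ring
      _ ≤ D₂ * ((n + 1) * (C₂ * Real.exp (υ₁ * ((m + N : ℕ) : ℝ)))) := by
          apply mul_le_mul_of_nonneg_left _ (by linarith)
          exact mul_le_mul (by linarith) a1 (Nat.cast_nonneg _) (by linarith)
      _ = Real.exp (B₂ + Real.log (n + 1) + υ₁ * m) := by
          rw [hB₂, Real.exp_add, Real.exp_add, Real.exp_add, Real.exp_log hDC₂,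
            Real.exp_log hn1]
          have : Real.exp (υ₁ * ((m + N : ℕ) : ℝ)) = Real.exp (υ₁ * N) * Real.exp (υ₁ * m) := by
            rw [← Real.exp_add]; congr 1; push_cast; ring
          rw [this]; ring
      _ ≤ _ := Real.exp_le_exp.mpr (by push_cast; exact hk2)
  have F : Fr g c br δb δ₁ ρ η k m (n * J₁) (n * L₁) := {
    hb := hb
    hδ₁ := d2
    hρ0 := r0.le
    hρδ := r1
    hρη := by linarith
    hη := min_le_right _ _
    b2 := fun x y hxy => hb2 x y (hxy.trans_le (min_le_left _ _))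
    gap := fun x y hxy hd => hgap x y hxy (by linarith)
    CS := by
      intro i hi a b hs
      have h5 := V1 i (k + m) _ _ (le_trans (mul_le_mul_of_nonneg_left
        (by exact_mod_cast hi) (by linarith)) K1) (hs.mono d1)
      rw [Nat.add_comm k m, Function.iterate_add_apply, Function.iterate_add_apply, iterR,
        iterR] at h5
      exact h5
    CU := by
      intro i hi a b hs
      have h5 := V2 i (k + m) _ _ (le_trans (mul_le_mul_of_nonneg_left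
        (by exact_mod_cast hi) (by linarith)) K2) (hs.mono d1)
      rw [Function.iterate_add_apply, Function.iterate_add_apply, iterL, iterL] at h5
      exact h5
    sq := fun hα hβ hβ' hα' s1 s2 s3 s4 => hsq m hα hβ hβ' hα' (s1.mono d3) (s2.mono d3)
      (s3.mono d3) (s4.mono d3) }
  have hpow := St.pow hg hX F hN
    (fun a b hab => by
      obtain ⟨M, hM, hs⟩ := U1 a b hab (k + N)
      exact ⟨M, Nat.le_floor hM, hs⟩)
    (fun a b hab => by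
      obtain ⟨M, hM, hs⟩ := U2 a b hab (m + N)
      exact ⟨M, Nat.le_floor hM, hs⟩) n le_rfl
  refine ⟨k, m, ?_, fun α hα => ?_⟩
  · refine hk3.trans (le_of_eq ?_)
    field_simp
    ring
  · obtain ⟨L, hL, y, p, b, b', α', β', h5, h6, h7, h8, h9, ⟨i, hi, h10⟩, h11⟩ := hpow α hα
    subst h5
    have hρc : ρ ≤ c / 2 := by linarith
    have s1 := F.CU i hi _ _ h10
    have s2 : SR g ρ (g^[m] (p 0)) (g^[m] x) := by
      apply F.CS L hL
      rw [← h6]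
      exact ⟨fun t => g.symm^[k] (p t), rfl, rfl, fun t ht => (h11 t ht).1⟩
    refine ⟨p 0, α', β', h7, h8, h9, fun l hl => ?_, fun l hl => ?_⟩
    · have := s1 (l - k)
      rw [← Function.iterate_add_apply, ← Function.iterate_add_apply,
        Nat.sub_add_cancel hl] at this
      exact this.trans hρc
    · have := s2 (l - m)
      rw [← Function.iterate_add_apply, ← Function.iterate_add_apply,
        Nat.sub_add_cancel hl] at this
      exact this.trans hρc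

end Pool.Agent.N234.CP
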