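import Pool.Agent.N234.CP.Stm
import Pool.Agent.H789R2.GP.QSx

/-! Task CP/Qsx (helper232): the quadrilateral structure made of strips. -/

set_option autoImplicit false

open Filter Topology Set Metric unitInterval

universe v

namespace Pool.Agent.N234.CP.Qsx

open Pool.Agent.H721R2 Pool.Agent.H789R2.AN Pool.Agent.H789R2.GP Pool.Agent.N234.CP

variable {X : Type*} [MetricSpace X]

theorem exists_QS' [CompactSpace X] {g : X ≃ₜ X} {c : ℝ} (h : LP g c) (hX : ULC X)
    (hall : ∀ a s, WS g a s → Lf g a s) :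
    ∃ c' > 0, ∃ T : QS g c', ∀ a s u x, T.Q a s u x ↔ QJ g a s u x := by
  have hc := h.c_pos
  obtain ⟨br, δ, hδ, b1, b2, b3, b4⟩ := exists_br h
  obtain ⟨η0, hη0, hp⟩ := leaf_path h.symm hX (δ / 3) (by linarith)
  set c' := min η0 (min (δ / 3) (c / 3)) with hc'
  have hc'0 : 0 < c' := lt_min hη0 (lt_min (by linarith) (by linarith))
  have hc'1 : c' ≤ η0 := min_le_left _ _
  have hc'2 : c' ≤ δ / 3 := (min_le_right _ _).trans (min_le_left _ _)
  have hc'3 : c' ≤ c / 3 := (min_le_right _ _).trans (min_le_right _ _)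
  -- local strips
  have loc : ∀ a s u, SR g c' a s → SR g.symm c' a u → dist u s < δ ∧ QJ g a s u (br u s) := by
    intro a s u has hau
    obtain ⟨v, v0, v1, vt⟩ := hp ⟨a⟩ ⟨u⟩ ((SM.dist_le _ _ hη0.le).2 (hau.mono hc'1))
    have hd : ∀ t, dist (v t).val s < δ := by
      intro t
      have h1 : SR g.symm (δ / 3) a (v t).val := (SM.dist_le _ _ (by linarith)).1 (vt t)
      have h2 : dist a (v t).val ≤ δ / 3 := h1 0
      have h3 : dist a s ≤ c' := has 0
      have h4 := dist_triangle (v t).val a s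
      rw [dist_comm (v t).val a] at h4
      linarith
    have h1 := qs_br_strip h b1 b4 v s hd
    have hd0 := hd 0
    have hd1 := hd 1
    rw [v0, v1] at h1
    rw [v0] at hd0
    rw [v1] at hd1
    have h2 : s = br a s := b3 a s s hd0 (has.mono hc'3) (qs_SR_refl _ (by linarith) s)
    refine ⟨hd1, ?_⟩
    have h3 : QJ g a (br a s) u (br u s) := h1
    rwa [← h2] at h3
  have key : ∀ a s u x, QJ g a s u x → SR g c' a s → SR g.symm c' a u →
      dist u s < δ ∧ x = br u s := by
    intro a s u x hQ has hau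
    obtain ⟨h1, h2⟩ := loc a s u has hau
    exact ⟨h1, QJ.unique h hX hall hQ h2⟩
  have cg : ∀ x, g (g x) = g (g x) := fun _ => rfl
  have cgs : ∀ x, g.symm (g x) = g (g.symm x) := fun x => by simp
  have cgs' : ∀ x, g (g.symm x) = g.symm (g x) := fun x => by simp
  refine ⟨c', hc'0, ?_⟩
  refine ⟨
    { Q := QJ g
      ex := fun a s u hs hu => QJ.ex h hX hall hs hu
      unique := fun a s u x x' h1 h2 => QJ.unique h hX hall h1 h2
      wS := fun a s u x h1 => h1.choose_spec.choose
      wU := fun a s u x h1 => h1.wU h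
      compU := fun a s u x u' x' h1 h2 => h1.compU h2
      compS := fun a s u x s' x' h1 h2 => h1.compS h hX hall h2
      flipU := fun a s u x h1 => h1.flipU
      flipS := fun a s u x h1 => h1.flipS
      tiny := ?_
      contS := ?_
      contU := ?_ }, fun a s u x => Iff.rfl⟩
  · refine ⟨c', hc'0, fun a s u x h1 h2 h3 h4 => ?_⟩
    obtain ⟨h5, h6⟩ := loc a s u h1 h2
    rwa [← b3 u s x h5 (h3.mono hc'3) (h4.mono hc'3)] at h6
  · intro j ε hε
    obtain ⟨η1, hη1, A1⟩ := qs_SR_of_dist h ε hε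
    obtain ⟨η2, hη2, A2⟩ := b4 η1 hη1
    obtain ⟨η3, hη3, A3⟩ := map_SM_iter cgs j (min c' (η2 / 2))
      (lt_min hc'0 (half_pos hη2))
    refine ⟨η3, hη3, fun a s u x hQ has hau => ?_⟩
    have B1 := A3 a s has
    have hQj := hQ.iter cgs j
    obtain ⟨B2, B3⟩ := key _ _ _ _ hQj (B1.mono (min_le_left _ _)) hau
    have B4 : dist (g.symm^[j] u) (g.symm^[j] a) < δ := by
      have : dist (g.symm^[j] a) (g.symm^[j] u) ≤ c' := hau 0
      rw [dist_comm]
      linarith
    have B5 : g.symm^[j] u = br (g.symm^[j] u) (g.symm^[j] a) :=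
      b3 _ _ _ B4 (qs_SR_refl _ (by linarith) _) (hau.mono hc'3)
    have B6 : dist (g.symm^[j] a) (g.symm^[j] s) < η2 := by
      have : dist (g.symm^[j] a) (g.symm^[j] s) ≤ η2 / 2 := (B1.mono (min_le_right _ _)) 0
      linarith
    have B7 : dist (g.symm^[j] u) (g.symm^[j] x) < η1 := by
      have := A2 _ _ _ _ B4 B2 (by rw [dist_self]; exact hη2) B6
      rwa [← B5, ← B3] at this
    have B8 : SR g c (g.symm^[j] u) (g.symm^[j] x) := by
      have := (b1 _ _ B2).1
      rw [← B3] at this
      exact this.mono (by linarith)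
    have B9 := A1 _ _ B8 B7
    intro k
    have := B9 (k + j)
    rwa [Function.iterate_add_apply, Function.iterate_add_apply, iterR, iterR] at this
  · intro j ε hε
    obtain ⟨η1, hη1, A1⟩ := qs_SR_of_dist h.symm ε hε
    obtain ⟨η2, hη2, A2⟩ := b4 η1 hη1
    obtain ⟨η3, hη3, A3⟩ := map_SM_iter cgs' j (min c' (η2 / 2))
      (lt_min hc'0 (half_pos hη2))
    refine ⟨η3, hη3, fun a s u x hQ hau has => ?_⟩
    have B1 := A3 a u hau
    have hQj := hQ.iter cg j
    obtain ⟨B2, B3⟩ := key _ _ _ _ hQj has (B1.mono (min_le_left _ _))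
    have B4 : dist (g^[j] a) (g^[j] s) < δ := by
      have : dist (g^[j] a) (g^[j] s) ≤ c' := has 0
      linarith
    have B5 : g^[j] s = br (g^[j] a) (g^[j] s) :=
      b3 _ _ _ B4 (has.mono hc'3) (qs_SR_refl _ (by linarith) _)
    have B6 : dist (g^[j] a) (g^[j] u) < η2 := by
      have : dist (g^[j] a) (g^[j] u) ≤ η2 / 2 := (B1.mono (min_le_right _ _)) 0
      linarith
    have B7 : dist (g^[j] s) (g^[j] x) < η1 := by
      have := A2 _ _ _ _ B4 B2 B6 (by rw [dist_self]; exact hη2)
      rwa [← B5, ← B3] at this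
    have B8 : SR g.symm c (g^[j] s) (g^[j] x) := by
      have := (b1 _ _ B2).2
      rw [← B3] at this
      exact this.mono (by linarith)
    have B9 := A1 _ _ B8 B7
    intro k
    have := B9 (k + j)
    rwa [Function.iterate_add_apply, Function.iterate_add_apply, iterL, iterL] at this


/-- QSX: the quadrilateral structure made of strips. -/
theorem main : S_QSX.{v} := by
  intro X _ _ g c h hX hall
  obtain ⟨c', hc', T, hT⟩ := exists_QS' h hX hall
  have cg : ∀ x, g (g x) = g (g x) := fun _ => rfl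
  have cgs : ∀ x, g.symm (g x) = g (g.symm x) := fun x => by simp
  refine ⟨c', hc', T, hT, fun a s u x hQ => ?_, fun a s u x hQ => ?_⟩
  · rw [hT] at hQ ⊢
    have := hQ.iter cg 1
    simpa only [Function.iterate_one] using this
  · rw [hT] at hQ ⊢
    have := hQ.iter cgs 1
    simpa only [Function.iterate_one] using this

end Pool.Agent.N234.CP.Qsx
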