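import Pool.Agent.N234.CP.Stm
import Pool.Agent.H789R2.AN.Man

set_option autoImplicit false
set_option linter.unusedSectionVars false

/-! Project CP, part RATE: Anosov data in the ambient space with given rates. -/

open Filter Topology Set Metric
open scoped Manifold ContDiff

namespace Pool.Agent.N234.CP.Rate

open Pool.Agent.H721R2 Pool.Agent.H789R2.AN Pool.Agent.H789R2.GP Pool.Agent.N234.CP

universe u v w

theorem main : S_RATE.{u, v, w} := by
  intro E₀ _ _ _ M _ _ _ _ F _ _ e he hinj f Es Eu h s u hs hu hcs hcu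
  obtain ⟨N1, C1, hN1, hC1, hrs⟩ := hcs
  obtain ⟨N2, C2, hN2, hC2, hru⟩ := hcu
  obtain ⟨R1, hR1, hcmp1⟩ := tnm_compare hN1 e he hinj
  obtain ⟨R2, hR2, hcmp2⟩ := tnm_compare hN2 e he hinj
  have hsm : ContMDiff 𝓘(ℝ, E₀) 𝓘(ℝ, E₀) 1 f.toHomeomorph := f.contMDiff
  have hsm' : ContMDiff 𝓘(ℝ, E₀) 𝓘(ℝ, E₀) 1 f.toHomeomorph.symm := f.symm.contMDiff
  set φ := f.toHomeomorph with hφ
  let Es' : M → Submodule ℝ E₀ := Es
  let Eu' : M → Submodule ℝ E₀ := Eu
  have map1 : ∀ (E : M → Submodule ℝ E₀), (∀ x, (E x).map (dg E₀ φ x).toLinearMap = E (φ x)) →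
      ∀ (n : ℕ) (x : M), ∀ v ∈ E x, dg E₀ (φ^[n]) x v ∈ E (φ^[n] x) := by
    intro E hE n
    induction n with
    | zero =>
      intro x v hv
      have : dg E₀ (φ^[0]) x v = v := by
        show mfderiv 𝓘(ℝ, E₀) 𝓘(ℝ, E₀) id x v = v
        rw [mfderiv_id]; rfl
      rw [this]; exact hv
    | succ n ih =>
      intro x v hv
      rw [Function.iterate_succ, dg_comp _ _ hsm (iter_smooth φ hsm n)]
      apply ih
      rw [← hE]
      exact ⟨v, hv, rfl⟩
  have map2 : ∀ (E : M → Submodule ℝ E₀), (∀ x, (E x).map (dg E₀ φ x).toLinearMap = E (φ x)) →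
      ∀ (n : ℕ) (x : M), ∀ v ∈ E x, dg E₀ (φ.symm^[n]) x v ∈ E (φ.symm^[n] x) := by
    intro E hE n
    have base : ∀ (x : M), ∀ v ∈ E x, dg E₀ φ.symm x v ∈ E (φ.symm x) := by
      intro x v hv
      have hx : E x = E (φ (φ.symm x)) := by rw [Homeomorph.apply_symm_apply]
      rw [hx, ← hE] at hv
      obtain ⟨w, hw, hwv⟩ := hv
      have h1 := dg_inv φ φ.symm hsm hsm' (fun x => φ.symm_apply_apply x) (φ.symm x) w
      rw [Homeomorph.apply_symm_apply] at h1
      have h2 : dg E₀ φ (φ.symm x) w = v := hwv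
      rw [h2] at h1
      rw [h1]; exact hw
    induction n with
    | zero =>
      intro x v hv
      have : dg E₀ (φ.symm^[0]) x v = v := by
        show mfderiv 𝓘(ℝ, E₀) 𝓘(ℝ, E₀) id x v = v
        rw [mfderiv_id]; rfl
      rw [this]; exact hv
    | succ n ih =>
      intro x v hv
      rw [Function.iterate_succ, dg_comp _ _ hsm' (iter_smooth φ.symm hsm' n)]
      exact ih _ _ (base x v hv)
  have hEs : ∀ x, (Es' x).map (dg E₀ φ x).toLinearMap = Es' (φ x) := h.map_s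
  have hEu : ∀ x, (Eu' x).map (dg E₀ φ x).toLinearMap = Eu' (φ x) := h.map_u
  set C' := max 1 (max (R1 * R1 * C1) (R2 * R2 * C2)) with hC'
  have hC'1 : 1 ≤ C' := le_max_left _ _
  have hC'2 : R1 * R1 * C1 ≤ C' := (le_max_left _ _).trans (le_max_right _ _)
  have hC'3 : R2 * R2 * C2 ≤ C' := (le_max_right _ _).trans (le_max_right _ _)
  have trans : ∀ (N : TangentBundle 𝓘(ℝ, E₀) M → ℝ) (R C : ℝ), 0 < R → 0 < C → R * R * C ≤ C' →
      (∀ (x : M) (v : E₀), ‖dm E₀ e x v‖ ≤ R * tnm N x v ∧ tnm N x v ≤ R * ‖dm E₀ e x v‖) →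
      ∀ (x y : M) (v w : E₀) (q : ℝ), 0 ≤ q → tnm N y w ≤ C * q * tnm N x v →
      ‖dm E₀ e y w‖ ≤ C' * q * ‖dm E₀ e x v‖ := by
    intro N R C hR hC hle' hcmp x y v w q hq hle
    have h1 := (hcmp y w).1
    have h2 := (hcmp x v).2
    calc ‖dm E₀ e y w‖ ≤ R * tnm N y w := h1
      _ ≤ R * (C * q * tnm N x v) := mul_le_mul_of_nonneg_left hle hR.le
      _ ≤ R * (C * q * (R * ‖dm E₀ e x v‖)) := by
          apply mul_le_mul_of_nonneg_left _ hR.le
          exact mul_le_mul_of_nonneg_left h2 (by positivity)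
      _ = (R * R * C) * (q * ‖dm E₀ e x v‖) := by ring
      _ ≤ C' * (q * ‖dm E₀ e x v‖) := mul_le_mul_of_nonneg_right hle' (by positivity)
      _ = _ := by ring
  obtain ⟨Bu, hBu, hbu⟩ := iter_bound e he hinj φ hsm
  obtain ⟨Bs, hBs, hbs⟩ := iter_bound e he hinj φ.symm hsm'
  refine ⟨C', Bs, Bu, {
    smooth := hsm
    smooth' := hsm'
    compl := h.isCompl
    C_pos := hC'1
    a_pos := Real.exp_pos _
    b_pos := Real.exp_pos _
    a_lt := Real.exp_lt_one_iff.2 (by linarith)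
    b_lt := Real.exp_lt_one_iff.2 (by linarith)
    Ls_le := hBs
    Lu_le := hBu
    mapS := map1 Es' hEs
    mapU := map1 Eu' hEu
    mapS' := map2 Es' hEs
    mapU' := map2 Eu' hEu
    hS := ?_
    hU' := ?_
    hS' := ?_
    hU := ?_ }⟩
  · intro n x v hv
    exact trans N1 R1 C1 hR1 hC1 hC'2 hcmp1 x _ v _ _ (by positivity) (hrs n x v hv)
  · intro n x v hv
    exact trans N2 R2 C2 hR2 hC2 hC'3 hcmp2 x _ v _ _ (by positivity) (hru n x v hv)
  · intro n x v _
    refine (hbs n x v).trans ?_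
    apply mul_le_mul_of_nonneg_right _ (norm_nonneg _)
    have : 0 ≤ Bs ^ n := by positivity
    nlinarith
  · intro n x v _
    refine (hbu n x v).trans ?_
    apply mul_le_mul_of_nonneg_right _ (norm_nonneg _)
    have : 0 ≤ Bu ^ n := by positivity
    nlinarith

end Pool.Agent.N234.CP.Rate
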