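import Pool.Agent.N234.CP.Leg
import Pool.Agent.N234.CP.LiftAll

set_option autoImplicit false

/-! Project CP, part LEG, with the coarse lower rate. -/

open Filter Topology Set Metric

namespace Pool.Agent.N234.CP.Leg2

open Pool.Agent.H721R2 Pool.Agent.H789R2.AN Pool.Agent.H789R2.GP Pool.Agent.N234.CP
open Pool.Agent.N234.CP.Leg

universe v w

/-- LEG with the coarse lower rate. -/
def S_LEG2 : Prop := ∀ (X : Type v) [MetricSpace X] [CompactSpace X] (E : Type w)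
  [NormedAddCommGroup E] [InnerProductSpace ℝ E] [FiniteDimensional ℝ E] (S : HypSys X E) (c : ℝ),
  LP S.g c → ∀ (br : X → X → X) (δ : ℝ), BrP S.g c br δ →
  ∀ (d : ℕ) (σ κ : ℝ), 0 < σ → HCov S.g.symm κ →
  ∀ δ₁ : ℝ, 0 < δ₁ → δ₁ ≤ c → LoRate S.g δ₁ σ →
  ∃ η₀ > 0, ∀ (η r₀ : ℝ) (D : X → E → X), η ≤ η₀ → 0 < r₀ →
  Discs S.e S.Vs η r₀ D → ∀ ε₁ > 0, ∃ r > 0, r ≤ r₀ ∧ ∀ ε > 0, ∃ C : ℝ, ∀ (n : ℕ) (x : X)
    (b : OrthonormalBasis (Fin d) ℝ (S.Vs x)) (i : Fin d) (a : ℝ) (v : S.Vs x),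
    ‖v‖ < r → ‖v + a • b i‖ < r → ∃ (N : ℕ) (p p' : X),
      (N : ℝ) ≤ C * Real.exp ((κ - (d - 1) * σ) * n) ∧
      Steps S.g δ₁ N (S.g.symm^[n] p) (S.g.symm^[n] p') ∧ SR S.g ε₁ x p ∧ SR S.g ε₁ x p' ∧
      dist p (br x (D x (v : E))) ≤ ε ∧ dist p' (br x (D x ((v + a • b i : S.Vs x) : E))) ≤ ε

theorem main2 (hB : S_BES.{v}) (h2 : S_G2.{v,w}) (h4 : S_G4.{v}) : S_LEG2.{v,w} := by
  intro X _ _ E _ _ _ S c hLP br δ hbr d σ κ hσ hcov δ₁ hδ₁ hδ₁c hLo
  obtain ⟨r₄, hr₄, θ, hθ, H4⟩ := h4 X S.g c hLP br δ hbr δ₁ hδ₁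
  obtain ⟨η₂, hη₂, H2⟩ := h2 X E S c hLP br δ hbr
  refine ⟨min η₂ 1, lt_min hη₂ one_pos, fun η r₀ D hη hr₀ hD ε₁ hε₁ => ?_⟩
  have hη1 : η ≤ 1 := hη.trans (min_le_right _ _)
  obtain ⟨r₂, hr₂, hr₂₀, H2'⟩ := H2 η r₀ D (hη.trans (min_le_left _ _)) hr₀ hD
  obtain ⟨β, hβ, hb2⟩ := hbr.b2 ε₁ hε₁
  have hδ := hbr.pos
  set R : ℝ := min r₂ (min (r₄ / 3) (min (β / 3) (δ / 3))) with hRdef
  have hR : 0 < R := by
    refine lt_min hr₂ (lt_min (by linarith) (lt_min (by linarith) (by linarith)))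
  have hR2 : R ≤ r₂ := min_le_left _ _
  have hR4 : R ≤ r₄ / 3 := (min_le_right _ _).trans (min_le_left _ _)
  have hRβ : R ≤ β / 3 := (min_le_right _ _).trans ((min_le_right _ _).trans (min_le_left _ _))
  have hRδ : R ≤ δ / 3 := (min_le_right _ _).trans ((min_le_right _ _).trans (min_le_right _ _))
  have hR0 : R ≤ r₀ := hR2.trans hr₂₀
  refine ⟨R / 2, by linarith, by linarith, fun ε hε => ?_⟩
  obtain ⟨η₄, hη₄, hb4⟩ := hbr.b4 ε hε
  set ρ : ℝ := min (R / (2 * (d + 1))) (η₄ / (4 * (d + 1))) with hρdef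
  have hd0 : (0:ℝ) ≤ d := Nat.cast_nonneg d
  have hρ : 0 < ρ := lt_min (by positivity) (by positivity)
  have hρR : d * ρ / 2 < R / 2 := by
    have h5 : ρ ≤ R / (2 * (d + 1)) := min_le_left _ _
    rw [le_div_iff₀ (by positivity)] at h5
    nlinarith
  have hρη : d * ρ < η₄ := by
    have h5 : ρ ≤ η₄ / (4 * (d + 1)) := min_le_right _ _
    rw [le_div_iff₀ (by positivity)] at h5
    nlinarith
  obtain ⟨τ, hτ, H2''⟩ := H2' ρ hρ
  obtain ⟨CH, hCH⟩ := hcov θ hθ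
  obtain ⟨CL, hCL, hfine⟩ := hLo.fine hLP hσ hδ₁c (half_pos hτ)
  have hCL0 : 0 < CL := by linarith
  refine ⟨2 ^ d * |CH| * CL ^ (d - 1), fun n x b i a v hv hv' => ?_⟩
  obtain ⟨Y, hYc, hY⟩ := hCH n
  -- the map of the box
  set q : (Fin d → ℝ) → X := fun c => D x ((W b i a ρ v c : S.Vs x) : E) with hq
  have hWn : ∀ c ∈ cube d, ‖((W b i a ρ v c : S.Vs x) : E)‖ < R := by
    intro c hc
    have h5 := W_norm b i hρ.le hv hv' hc
    have h6 : ‖((W b i a ρ v c : S.Vs x) : E)‖ = ‖W b i a ρ v c‖ := rfl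
    rw [h6]; linarith
  have hxq : ∀ c ∈ cube d, dist x (q c) < 2 * R := by
    intro c hc
    have h5 := disc_dist S.isom hη1 hD x (W b i a ρ v c).2 ((hWn c hc).trans_le hR0)
    have h6 := hWn c hc
    simp only [hq]
    linarith
  have hqq : ∀ c ∈ cube d, ∀ c' ∈ cube d, dist (q c) (q c') ≤
      2 * dist (W b i a ρ v c) (W b i a ρ v c') := by
    intro c hc c' hc'
    rw [dist_eq_norm]
    exact disc_lip S.isom hη1 hD x (W b i a ρ v c).2 (W b i a ρ v c').2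
      ((hWn c hc).trans_le hR0) ((hWn c' hc').trans_le hR0)
  have hqcont : ContinuousOn q (cube d) := by
    rw [Metric.continuousOn_iff]
    intro c hc ε' hε'
    have h5 := (W_cont b i a ρ v).continuousAt (x := c)
    rw [Metric.continuousAt_iff] at h5
    obtain ⟨δ', hδ', h6⟩ := h5 (ε' / 2) (by linarith)
    refine ⟨δ', hδ', fun c' hc' hcc => ?_⟩
    have h7 := h6 hcc
    have h8 := hqq c' hc' c hc
    linarith
  -- the sets of the cover
  set B : Y → Set (Fin d → ℝ) := fun y =>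
    {c | c ∈ cube d ∧ ∀ k ≤ n, dist (S.g.symm^[k] (q c)) (S.g.symm^[k] y) ≤ θ} with hBdef
  have hBcl : ∀ y, IsClosed (B y) := by
    intro y
    have h5 : B y = ⋂ k ∈ {k : ℕ | k ≤ n}, (cube d ∩
        (fun c => dist (S.g.symm^[k] (q c)) (S.g.symm^[k] y)) ⁻¹' (Set.Iic θ)) := by
      ext c
      simp only [hBdef, Set.mem_ofPred_eq, Set.mem_iInter, Set.mem_inter_iff, Set.mem_preimage,
        Set.mem_Iic]
      constructor
      · rintro ⟨h6, h7⟩ k hk
        exact ⟨h6, h7 k hk⟩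
      · intro h6
        exact ⟨(h6 0 (Nat.zero_le n)).1, fun k hk => (h6 k hk).2⟩
    rw [h5]
    refine isClosed_biInter fun k _ => ?_
    refine ContinuousOn.preimage_isClosed_of_isClosed ?_ (cube_closed d) isClosed_Iic
    have h6 : Continuous fun z : X => dist (S.g.symm^[k] z) (S.g.symm^[k] (y : X)) :=
      (S.g.symm.continuous.iterate k).dist continuous_const
    exact h6.comp_continuousOn hqcont
  have hBcov : ∀ c : Fin d → ℝ, (∀ i, 0 ≤ c i ∧ c i ≤ 1) → ∃ y, c ∈ B y := by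
    intro c hc
    obtain ⟨y, hy, h5⟩ := hY (q c)
    exact ⟨⟨y, hy⟩, hc, h5⟩
  -- chains of the cover give stable chains
  have hsteps : ∀ (j : Fin d) (N : ℕ) (c : ℕ → Fin d → ℝ), CChain B j N c →
      Steps S.g δ₁ N (S.g.symm^[n] (br x (q (c 0)))) (S.g.symm^[n] (br x (q (c N)))) := by
    intro j N c hc
    obtain ⟨h5, h6, h7, h8⟩ := hc
    refine H4 x N n (fun k => q (c k)) (fun k hk => ?_) (fun k hk m hm => ?_)
    · have h9 := hxq (c k) (h5 k hk)
      linarith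
    · obtain ⟨y, h9, h10⟩ := h8 k hk
      have h11 := h9.2 m hm
      have h12 := h10.2 m hm
      have h13 := dist_triangle_right (S.g.symm^[m] (q (c k))) (S.g.symm^[m] (q (c (k + 1))))
        (S.g.symm^[m] (y : X))
      linarith
  have hexp : Real.exp (-σ) ^ n = Real.exp (-(σ * n)) := by
    rw [← Real.exp_nat_mul]
    congr 1
    ring
  have hlong : ∀ j, j ≠ i → ∀ N c, CChain B j N c → Real.exp (σ * n) / CL ≤ (N : ℝ) := by
    intro j hj N c hc
    by_contra hcon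
    push Not at hcon
    rw [lt_div_iff₀ hCL0] at hcon
    have h5 := hfine N n _ _ (by linarith) (hsteps j N c hc) 0
    simp only [Function.iterate_zero, id_eq] at h5
    rw [iterR, iterR] at h5
    have h6 := hc.1 0 (Nat.zero_le N)
    have h7 := hc.1 N le_rfl
    have h8 := W_sep b i a ρ v hj hc.2.1 hc.2.2.1
    have h9 := H2'' x _ (W b i a ρ v (c 0)).2 _ (W b i a ρ v (c N)).2
      ((hWn _ h6).trans_le hR2) ((hWn _ h7).trans_le hR2) h8
    linarith
  obtain ⟨N, c', hc', hN⟩ := hB Y d B hBcl hBcov i (Real.exp (σ * n) / CL) (by positivity)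
    hlong
  have hc0 : c' 0 ∈ cube d := hc'.1 0 (Nat.zero_le N)
  have hcN : c' N ∈ cube d := hc'.1 N le_rfl
  have hvE : ‖(v : E)‖ < R / 2 := hv
  have hvE' : ‖((v + a • b i : S.Vs x) : E)‖ < R / 2 := hv'
  have hWv : ∀ c ∈ cube d, ∀ u : S.Vs x, ‖(u : E)‖ < R / 2 → v + (c i * a) • b i = u →
      dist (br x (q c)) (br x (D x (u : E))) ≤ ε := by
    intro c hc u hu huc
    have h5 := hxq c hc
    have h6 := disc_dist S.isom hη1 hD x u.2 (by linarith : ‖(u : E)‖ < r₀)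
    have h7 : dist (q c) (D x (u : E)) ≤ d * ρ := by
      have h8 := disc_lip S.isom hη1 hD x (W b i a ρ v c).2 u.2 ((hWn c hc).trans_le hR0)
        (by linarith : ‖(u : E)‖ < r₀)
      have h9 : ((W b i a ρ v c : S.Vs x) : E) - (u : E) =
          ((∑ j ∈ Finset.univ.erase i, (ρ * (c j - 1/2)) • b j : S.Vs x) : E) := by
        rw [← Submodule.coe_sub]
        congr 1
        unfold W
        rw [huc]
        abel
      rw [h9] at h8
      have h10 : ‖((∑ j ∈ Finset.univ.erase i, (ρ * (c j - 1/2)) • b j : S.Vs x) : E)‖ ≤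
          d * ρ / 2 := W_tail b i hρ.le hc
      linarith
    refine (hb4 x x (q c) (D x (u : E)) (by linarith) (by linarith) ?_ (by linarith)).le
    rw [dist_self]; exact hη₄
  refine ⟨N, br x (q (c' 0)), br x (q (c' N)), ?_, hsteps i N c' hc', ?_, ?_, ?_, ?_⟩
  · -- the count
    have hd1 : 1 ≤ d := (Nat.zero_le i.1).trans_lt i.2
    have h5 : (N : ℝ) * (Real.exp (σ * n) / CL) ^ (d - 1) ≤
        2 ^ d * |CH| * Real.exp (κ * n) := by
      refine hN.trans ?_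
      rw [Fintype.card_coe]
      have h6 : CH * Real.exp (κ * n) ≤ |CH| * Real.exp (κ * n) :=
        mul_le_mul_of_nonneg_right (le_abs_self _) (Real.exp_pos _).le
      calc (2:ℝ) ^ d * (Y.card : ℝ) ≤ 2 ^ d * (|CH| * Real.exp (κ * n)) :=
            mul_le_mul_of_nonneg_left (hYc.trans h6) (by positivity)
        _ = _ := by ring
    have h7 : (Real.exp (σ * n) / CL) ^ (d - 1) * CL ^ (d - 1) *
        Real.exp (-((d - 1) * σ * n)) = 1 := by
      rw [← mul_pow]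
      have h8 : Real.exp (σ * n) / CL * CL = Real.exp (σ * n) := by
        field_simp
      rw [h8, ← Real.exp_nat_mul, Nat.cast_sub hd1, ← Real.exp_add]
      simp
      ring
    have h9 : 0 ≤ CL ^ (d - 1) * Real.exp (-((d - 1) * σ * n)) := by positivity
    calc (N : ℝ) = N * ((Real.exp (σ * n) / CL) ^ (d - 1) * CL ^ (d - 1) *
          Real.exp (-((d - 1) * σ * n))) := by rw [h7, mul_one]
      _ = (N * (Real.exp (σ * n) / CL) ^ (d - 1)) * (CL ^ (d - 1) *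
          Real.exp (-((d - 1) * σ * n))) := by ring
      _ ≤ (2 ^ d * |CH| * Real.exp (κ * n)) * (CL ^ (d - 1) *
          Real.exp (-((d - 1) * σ * n))) := mul_le_mul_of_nonneg_right h5 h9
      _ = 2 ^ d * |CH| * CL ^ (d - 1) * (Real.exp (κ * n) *
          Real.exp (-((d - 1) * σ * n))) := by ring
      _ = _ := by
        rw [← Real.exp_add]
        congr 2
        ring
  · have h5 := hxq _ hc0
    exact (hb2 x _ (by linarith)).1
  · have h5 := hxq _ hcN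
    exact (hb2 x _ (by linarith)).1
  · refine hWv _ hc0 v hvE ?_
    rw [hc'.2.1]; simp
  · refine hWv _ hcN _ hvE' ?_
    rw [hc'.2.2.1]; simp

end Pool.Agent.N234.CP.Leg2
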