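import Pool.Agent.N234.CP.Rec
import Pool.Agent.N234.CP.Leg2

set_option autoImplicit false

/-! REC with the coarse lower rate. -/

open Filter Topology Set Metric

namespace Pool.Agent.N234.CP.Rec2

open Pool.Agent.H721R2 Pool.Agent.H789R2.AN Pool.Agent.H789R2.GP Pool.Agent.N234.CP
open Pool.Agent.N234.CP.Rec

universe v w

/-- REC with the coarse lower rate: the upper rate from the entropy and the lower rate. -/
def S_REC2 : Prop := ∀ (X : Type v) [MetricSpace X] [CompactSpace X] (E : Type w)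
  [NormedAddCommGroup E] [InnerProductSpace ℝ E] [FiniteDimensional ℝ E] (S : HypSys X E) (c : ℝ),
  LP S.g c → ∀ (br : X → X → X) (δ : ℝ), BrP S.g c br δ →
  ∀ (d : ℕ) (σ κ σ₁ : ℝ), (∀ x, Module.finrank ℝ (S.Vs x) = d) → 0 < σ →
  (∃ δ₀ > 0, ∀ δ₁ : ℝ, 0 < δ₁ → δ₁ ≤ δ₀ → LoRate S.g δ₁ σ) →
  HCov S.g.symm κ → (∀ η > 0, ∃ r > 0, ∃ D : X → E → X, Discs S.e S.Vs η r D) →
  0 < σ₁ → κ - (d - 1) * σ ≤ σ₁ → ∃ δ₀ > 0, ∀ δ₁ : ℝ, 0 < δ₁ → δ₁ ≤ δ₀ → UpRate S.g δ₁ σ₁

theorem main2 (hL : Leg2.S_LEG2.{v, w}) (h1 : S_G1.{v, w}) : S_REC2.{v, w} := by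
  intro X _ _ E _ _ _ S c hLP br δ hbr d σ κ σ₁ hd hσ ha hcov hdisc hσ₁ hκ
  have hc0 := hLP.c_pos
  obtain ⟨δ₀, hδ₀, hLo⟩ := ha
  -- constants
  set δf := min δ₀ c with hδf
  have hδf0 : 0 < δf := lt_min hδ₀ hc0
  obtain ⟨η₀, hη₀, hleg1⟩ := hL X E S c hLP br δ hbr d σ κ hσ hcov δf hδf0 (min_le_right _ _)
    (hLo δf hδf0 (min_le_left _ _))
  have hK := S.one_le_K
  have hLs := S.one_le_Ls
  set m : ℕ := ⌈4 * S.Ls⌉₊ with hm
  have hmL : 4 * S.Ls ≤ m := Nat.le_ceil _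
  have hmR : (1 : ℝ) ≤ m := by linarith
  have hm1 : 1 ≤ m := by exact_mod_cast hmR
  obtain ⟨c₁, hc₁⟩ : ∃ c₁ : ℕ, (2 * d + 1) * Real.exp (-(σ₁ * c₁)) ≤ 1 / 2 := by
    have ht : Tendsto (fun n : ℕ => (2 * (d : ℝ) + 1) * Real.exp (-(σ₁ * n))) atTop (𝓝 0) := by
      have h2 : Tendsto (fun n : ℕ => σ₁ * (n : ℝ)) atTop atTop :=
        tendsto_natCast_atTop_atTop.const_mul_atTop hσ₁
      have h3 := (Real.tendsto_exp_neg_atTop_nhds_zero.comp h2).const_mul (2 * (d : ℝ) + 1)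
      simpa using h3
    obtain ⟨n, hn⟩ := ((tendsto_order.mp ht).2 (1 / 2) (by norm_num)).exists
    exact ⟨n, hn.le⟩
  have hmc : (1 : ℝ) ≤ (m : ℝ) ^ c₁ := one_le_pow₀ hmR
  set η := min η₀ (min (1 / 4) (1 / (16 * S.K * (m : ℝ) ^ c₁))) with hη
  have hden : 0 < 16 * S.K * (m : ℝ) ^ c₁ := by positivity
  have hη0 : 0 < η := lt_min hη₀ (lt_min (by norm_num) (by positivity))
  have hη1 : η ≤ η₀ := min_le_left _ _
  have hη2 : η ≤ 1 / 4 := (min_le_right _ _).trans (min_le_left _ _)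
  have hη3 : 16 * S.K * (m : ℝ) ^ c₁ * η ≤ 1 := by
    have : η ≤ 1 / (16 * S.K * (m : ℝ) ^ c₁) := (min_le_right _ _).trans (min_le_right _ _)
    rw [le_div_iff₀ hden] at this
    linarith
  obtain ⟨r₀, hr₀, D, hD⟩ := hdisc η hη0
  obtain ⟨εa, hεa, contr⟩ := S.contraction_iter (1 / 8) (by linarith [S.a_le])
  set ε₁ := min εa (c / 3) / 2 with hε₁
  have hε₁0 : 0 < ε₁ := by
    have : 0 < min εa (c / 3) := lt_min hεa (by linarith)
    linarith
  have hε₁a : 2 * ε₁ ≤ εa := by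
    have : min εa (c / 3) ≤ εa := min_le_left _ _
    linarith
  obtain ⟨r, hr, hrr₀, hleg2⟩ := hleg1 η r₀ D hη1 hr₀ hD ε₁ hε₁0
  obtain ⟨εc, hεc, cone⟩ := S.coneS' η hη0 (by linarith)
  obtain ⟨r₁, hr₁, hG1⟩ := h1 X E S c hLP br δ hbr
  obtain ⟨δs, hδs, subd⟩ := S.subdivide m hmL
  obtain ⟨β, hβ, hb2⟩ := hbr.b2 ε₁ hε₁0
  have hδ0 := hbr.pos
  -- the small radius
  obtain ⟨δ', hδ'0, hδ'⟩ : ∃ δ' > 0, δ' ≤ δf ∧ δ' ≤ δs ∧ δ' ≤ εa / 4 ∧ δ' ≤ εc ∧ δ' ≤ r₁ ∧
      2 * (d + 1) * δ' < r ∧ 4 * (d + 1) * δ' < r₁ ∧ 4 * (d + 1) * δ' < β ∧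
      4 * (d + 1) * δ' < δ := by
    have hd1 : (0 : ℝ) < 4 * (d + 1) := by positivity
    set R := min (min δf δs) (min (min (εa / 4) εc) (min r₁ (min (min r β) δ))) with hR
    have hR0 : 0 < R := by
      simp only [hR, lt_min_iff]
      exact ⟨⟨hδf0, hδs⟩, ⟨by linarith, hεc⟩, hr₁, ⟨hr, hβ⟩, hδ0⟩
    have q1 : R ≤ δf := (min_le_left _ _).trans (min_le_left _ _)
    have q2 : R ≤ δs := (min_le_left _ _).trans (min_le_right _ _)
    have q3 : R ≤ εa / 4 := (min_le_right _ _).trans ((min_le_left _ _).trans (min_le_left _ _))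
    have q4 : R ≤ εc := (min_le_right _ _).trans ((min_le_left _ _).trans (min_le_right _ _))
    have q5 : R ≤ r₁ := (min_le_right _ _).trans ((min_le_right _ _).trans (min_le_left _ _))
    have q6 : R ≤ min (min r β) δ :=
      (min_le_right _ _).trans ((min_le_right _ _).trans (min_le_right _ _))
    have q7 : R ≤ r := q6.trans ((min_le_left _ _).trans (min_le_left _ _))
    have q8 : R ≤ β := q6.trans ((min_le_left _ _).trans (min_le_right _ _))
    have q9 : R ≤ δ := q6.trans (min_le_right _ _)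
    have e1 : 4 * ((d : ℝ) + 1) * (R / (8 * (d + 1))) = R / 2 := by
      field_simp
      ring
    have e2 : R / (8 * ((d : ℝ) + 1)) ≤ R := by
      apply div_le_self hR0.le
      have : (0 : ℝ) ≤ d := Nat.cast_nonneg _
      linarith
    have e3 : 0 < R / (8 * ((d : ℝ) + 1)) := by positivity
    refine ⟨R / (8 * (d + 1)), e3, e2.trans q1, e2.trans q2, e2.trans q3, e2.trans q4,
      e2.trans q5, ?_, ?_, ?_, ?_⟩
    · have e4 : 2 * ((d : ℝ) + 1) * (R / (8 * (d + 1))) = R / 2 / 2 := by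
        rw [← e1]; ring
      rw [e4]; linarith
    · rw [e1]; linarith
    · rw [e1]; linarith
    · rw [e1]; linarith
  obtain ⟨d1, d2, d3, d4, d5, d6, d7, d8, d9⟩ := hδ'
  have hdR : (0 : ℝ) ≤ d := Nat.cast_nonneg _
  -- near pairs
  obtain ⟨ε, hε, near⟩ : ∃ ε > 0, ∀ x a b : X, SR S.g ε₁ x a → SR S.g ε₁ x b → dist a b ≤ ε →
      SR S.g δ' (S.g.symm^[c₁] a) (S.g.symm^[c₁] b) := by
    obtain ⟨η', hη', hu⟩ := T1_unif S.g.symm c₁ hδ'0
    refine ⟨min (η' / 2) δ', lt_min (by linarith) hδ'0, fun x a b hxa hxb hab j => ?_⟩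
    have hab1 : dist a b < η' := by
      have := hab.trans (min_le_left _ _)
      linarith
    have hab2 : dist a b ≤ δ' := hab.trans (min_le_right _ _)
    rcases le_total j c₁ with hj | hj
    · rw [T1_iter_sub S.g hj, T1_iter_sub S.g hj]
      exact (hu _ (Nat.sub_le _ _) _ _ hab1).le
    · rw [T1_iter_add S.g hj, T1_iter_add S.g hj]
      have hSR : SR S.g εa a b := by
        have h3 := qs_SR_add hxa.symm' hxb
        exact h3.mono (by linarith)
      have h4 := contr a b hSR (j - c₁)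
      have h5 : (1 / 8 : ℝ) ^ (j - c₁) ≤ 1 := pow_le_one₀ (by norm_num) (by norm_num)
      calc _ ≤ (1 / 8 : ℝ) ^ (j - c₁) * dist a b := h4
        _ ≤ 1 * dist a b := mul_le_mul_of_nonneg_right h5 dist_nonneg
        _ ≤ δ' := by linarith
  obtain ⟨C, hC⟩ := hleg2 ε hε
  set A := max ((m : ℝ) ^ c₁) (2 * d * |C|) with hA
  -- discs
  have hDd : ∀ (x : X) (u : E), u ∈ S.Vs x → ‖u‖ < r → dist x (D x u) ≤ 2 * ‖u‖ := by
    intro x u hu hur
    have h3 := (hD x).2 u hu 0 (Submodule.zero_mem _) (lt_of_lt_of_le hur hrr₀) (by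
      rw [norm_zero]; exact hr₀)
    rw [(hD x).1, sub_zero] at h3
    rw [dist_comm, S.isom]
    have h4 := norm_add_le (S.e (D x u) - S.e x - u) u
    rw [sub_add_cancel] at h4
    have h5 : η * ‖u‖ ≤ 1 * ‖u‖ := mul_le_mul_of_nonneg_right (by linarith) (norm_nonneg _)
    linarith
  have hcore : ∀ (n : ℕ) (x y : X), SR S.g δ' x y → ∃ N : ℕ, (N : ℝ) ≤ A * Real.exp (σ₁ * n) ∧
      Steps S.g δf N (S.g.symm^[n] x) (S.g.symm^[n] y) := by
    refine core S.g δf δ' σ₁ A C d m c₁ hσ₁ hm1 hc₁ (le_max_left _ _) (le_max_right _ _) d1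
      (fun x y hxy => subd δ' hδ'0 d2 x y hxy) ?_
    intro x y hxy n
    have hxyd : dist x y ≤ δ' := hxy 0
    obtain ⟨s, hs, hs1⟩ := cone x y (hxy.mono d4)
    have hse : ‖S.e y - S.e x‖ = dist x y := by rw [dist_comm, S.isom]
    have hs2 : ‖s‖ ≤ 2 * dist x y := by
      have h3 := norm_sub_le (S.e y - S.e x) (S.e y - S.e x - s)
      rw [sub_sub_cancel, hse] at h3
      have h4 : 2 * η * dist x y ≤ 1 * dist x y :=
        mul_le_mul_of_nonneg_right (by linarith) dist_nonneg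
      linarith
    have hs3 : ‖s‖ ≤ 2 * δ' := by linarith
    let b : OrthonormalBasis (Fin d) ℝ (S.Vs x) :=
      (stdOrthonormalBasis ℝ (S.Vs x)).reindex (finCongr (hd x))
    obtain ⟨vv, hv0, hvd, hvn, hvs⟩ := exists_axis b (⟨s, hs⟩ : S.Vs x)
    have hvn' : ∀ i, ‖vv i‖ ≤ 2 * d * δ' := by
      intro i
      refine (hvn i).trans ?_
      have h3 : ‖(⟨s, hs⟩ : S.Vs x)‖ = ‖s‖ := rfl
      rw [h3]
      calc (d : ℝ) * ‖s‖ ≤ d * (2 * δ') := mul_le_mul_of_nonneg_left hs3 hdR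
        _ = _ := by ring
    have hvr : ∀ i, ‖vv i‖ < r := by
      intro i
      refine (hvn' i).trans_lt ?_
      nlinarith
    have hdz : ∀ i, dist x (D x (vv i : E)) ≤ 4 * d * δ' := by
      intro i
      have h3 := hDd x (vv i : E) (vv i).2 (hvr i)
      have h4 : ‖(vv i : E)‖ = ‖vv i‖ := rfl
      rw [h4] at h3
      have h5 := hvn' i
      linarith
    have hzSR : ∀ i, SR S.g ε₁ x (br x (D x (vv i : E))) := by
      intro i
      refine (hb2 x _ ((hdz i).trans_lt ?_)).1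
      nlinarith
    refine ⟨fun i => br x (D x (vv i : E)), ?_, ?_, ?_⟩
    · show br x (D x (vv 0 : E)) = x
      rw [hv0]
      have h3 : ((0 : S.Vs x) : E) = 0 := rfl
      rw [h3, (hD x).1]
      exact (hbr.b3 x x x (by rw [dist_self]; exact hδ0) (qs_SR_refl _ (by linarith) x)
        (qs_SR_refl _ (by linarith) x)).symm
    · intro i hi
      obtain ⟨t, ht⟩ := hvs i hi
      have h3 : ‖vv i + t • b ⟨i, hi⟩‖ < r := by
        rw [← ht]
        exact hvr _
      obtain ⟨N, p, p', hN, hSt, hp, hp', hpz, hpz'⟩ := hC n x b ⟨i, hi⟩ t (vv i) (hvr i) h3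
      rw [← ht] at hpz'
      refine ⟨N, p, p', ?_, hSt, ?_, ?_⟩
      · refine hN.trans ?_
        have h4 : Real.exp ((κ - (d - 1) * σ) * n) ≤ Real.exp (σ₁ * n) :=
          Real.exp_le_exp.mpr (mul_le_mul_of_nonneg_right hκ (Nat.cast_nonneg _))
        calc C * Real.exp ((κ - (d - 1) * σ) * n) ≤ |C| * Real.exp ((κ - (d - 1) * σ) * n) :=
              mul_le_mul_of_nonneg_right (le_abs_self _) (Real.exp_pos _).le
          _ ≤ _ := mul_le_mul_of_nonneg_left h4 (abs_nonneg _)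
      · exact near x _ _ (hzSR i) hp (by rw [dist_comm]; exact hpz)
      · exact near x _ _ hp' (hzSR (i + 1)) hpz'
    · show SR S.g δ' (S.g.symm^[c₁] (br x (D x (vv d : E)))) (S.g.symm^[c₁] y)
      rw [hvd]
      have hsv : ‖s‖ < r := by
        refine hs3.trans_lt ?_
        nlinarith
      have h3 : ((⟨s, hs⟩ : S.Vs x) : E) = s := rfl
      rw [h3]
      have hds := hDd x s hs hsv
      have hds1 : dist x (D x s) < r₁ := by
        have : 4 * δ' ≤ 4 * (d + 1) * δ' := by nlinarith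
        linarith
      have hdy : dist (D x s) y ≤ 4 * η * δ' := by
        have h4 := (hD x).2 s hs 0 (Submodule.zero_mem _) (lt_of_lt_of_le hsv hrr₀) (by
          rw [norm_zero]; exact hr₀)
        rw [(hD x).1, sub_zero] at h4
        rw [S.isom]
        have e1 : S.e (D x s) - S.e y = (S.e (D x s) - S.e x - s) - (S.e y - S.e x - s) := by abel
        rw [e1]
        have h5 := norm_sub_le (S.e (D x s) - S.e x - s) (S.e y - S.e x - s)
        have h6 : η * ‖s‖ ≤ η * (2 * δ') := mul_le_mul_of_nonneg_left hs3 hη0.le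
        have h7 : 2 * η * dist x y ≤ 2 * η * δ' :=
          mul_le_mul_of_nonneg_left hxyd (by positivity)
        linarith
      have hzy := hG1 x y (D x s) (hxy.mono d5) hds1
      set z := br x (D x s) with hz
      set t := 16 * S.K * η * δ' with ht
      have ht0 : 0 < t := by positivity
      have hmt : (m : ℝ) ^ c₁ * t ≤ δ' := by
        have : (m : ℝ) ^ c₁ * t = (16 * S.K * (m : ℝ) ^ c₁ * η) * δ' := by rw [ht]; ring
        rw [this]
        nlinarith
      have htδ : t ≤ δ' := by nlinarith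
      have hzt : dist z y ≤ t := by
        refine hzy.trans ?_
        calc 4 * S.K * dist (D x s) y ≤ 4 * S.K * (4 * η * δ') :=
              mul_le_mul_of_nonneg_left hdy (by positivity)
          _ = t := by rw [ht]; ring
      have hzSR' : SR S.g εa z y := by
        have h4 : SR S.g ε₁ x z := by
          have := hzSR d
          rw [hvd] at this
          exact this
        exact (qs_SR_add h4.symm' hxy).mono (by linarith)
      have hzyt : SR S.g t z y := by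
        intro k
        have h4 := contr z y hzSR' k
        have h5 : (1 / 8 : ℝ) ^ k ≤ 1 := pow_le_one₀ (by norm_num) (by norm_num)
        calc _ ≤ (1 / 8 : ℝ) ^ k * dist z y := h4
          _ ≤ 1 * dist z y := mul_le_mul_of_nonneg_right h5 dist_nonneg
          _ ≤ t := by linarith
      have hst := pull S.g t m (fun x y hxy => subd t ht0 (htδ.trans d2) x y hxy) c₁ z y hzyt
      refine (steps_SR hst).mono ?_
      push_cast
      exact hmt
  -- conclusion
  refine ⟨δ', hδ'0, fun δ₁ hδ₁ hδ₁' => ?_⟩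
  obtain ⟨k, hk⟩ := qs_exists_pow hc0 hδ₁
  refine ⟨A * Real.exp (σ₁ * k), fun x y hxy n => ?_⟩
  obtain ⟨N, hN, hS⟩ := hcore (n + k) x y (hxy.mono hδ₁')
  refine ⟨N, hN.trans (le_of_eq ?_), ?_⟩
  · rw [mul_assoc, ← Real.exp_add]
    congr 2
    push_cast
    ring
  · have h3 := steps_push hLP (min_le_right _ _) hk hS
    have h4 : ∀ w : X, S.g^[k] (S.g.symm^[n + k] w) = S.g.symm^[n] w := by
      intro w
      rw [T1_iter_sub S.g (by omega), Nat.add_sub_cancel]
    rwa [h4, h4] at h3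

end Pool.Agent.N234.CP.Rec2
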