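import Pool.Agent.N234.CP.Top

set_option autoImplicit false

/-! Coarse rates in topological form, and their transfer to iterates in a metric, second part. -/

open Filter Topology Set Metric

namespace Pool.Agent.N234.CP

open Pool.Agent.H721R2 Pool.Agent.H789R2.AN Pool.Agent.H789R2.GP

section

variable {X : Type*} [MetricSpace X] [CompactSpace X]

omit [MetricSpace X] [CompactSpace X] in
theorem CoarseContracts.mono' [TopologicalSpace X] {f : X → X} {s s' : ℝ}
    (h : CoarseContracts f s) (hs : s' ≤ s) : CoarseContracts f s' := by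
  obtain ⟨𝒰₀, h𝒰₀, h1⟩ := h
  refine ⟨𝒰₀, h𝒰₀, fun 𝒰 h𝒰 => ?_⟩
  obtain ⟨C, hC, h2⟩ := h1 𝒰 h𝒰
  refine ⟨C, hC, fun N n x y hN hch => h2 N n x y (hN.trans ?_) hch⟩
  exact Real.exp_le_exp.mpr (mul_le_mul_of_nonneg_right hs (Nat.cast_nonneg _))

/-- From the upper rate of an iterate to coarse expansion. -/
theorem coarse_of_upRate {f : X ≃ₜ X} {m : ℕ} (hm : 1 ≤ m) {c : ℝ} (hLP : LP (iterHomeo f m) c)
    {S δ : ℝ} (hS : 0 ≤ S) (hδ : 0 < δ) (hδc : δ ≤ c) (h : UpRate (iterHomeo f m) δ (S * m)) :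
    CoarseExpands f S := by
  have hm0 : (0 : ℝ) < m := by exact_mod_cast hm
  refine ⟨{p | dist p.1 p.2 < δ}, diag_mem.2 ⟨δ, hδ, fun x y h => h⟩, fun 𝒰 h𝒰 => ?_⟩
  obtain ⟨ρ, hρ, h1⟩ := close_of_SR f hm h𝒰
  obtain ⟨C, hC, h2⟩ := h.fine hLP hδc hρ
  refine ⟨C * Real.exp (S * m), fun x y hxy n => ?_⟩
  have hxy' : SR (iterHomeo f m) δ x y := SR_of_close f m (fun p hp => le_of_lt hp) hxy
  obtain ⟨r, hr⟩ : ∃ r, m * (n / m + 1) = n + r := by
    have h3 := Nat.div_add_mod n m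
    have h4 := Nat.mod_lt n (show 0 < m by omega)
    refine ⟨m * (n / m + 1) - n, ?_⟩
    have h5 : m * (n / m + 1) = m * (n / m) + m := by ring
    omega
  obtain ⟨N, hN, z, z0, zN, hz⟩ := h2 x y hxy' (n / m + 1)
  rw [iterHomeo_symm_iter, hr] at z0 zN
  have e : ∀ a : X, f^[r] (f.symm^[n + r] a) = f.symm^[n] a := fun a => by
    rw [Nat.add_comm n r, Function.iterate_add_apply, iterR]
  refine ⟨N, ?_, fun i => f^[r] (z i), ?_, ?_, fun i hi k => ?_⟩
  · refine hN.trans ?_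
    have h6 : S * m * ((n / m + 1 : ℕ) : ℝ) ≤ S * m + S * n := by
      have h7 : m * (n / m) ≤ n := Nat.mul_div_le n m
      have h8 : (m : ℝ) * ((n / m : ℕ) : ℝ) ≤ n := by exact_mod_cast h7
      push_cast
      have h9 := mul_le_mul_of_nonneg_left h8 hS
      nlinarith
    calc C * Real.exp (S * m * ((n / m + 1 : ℕ) : ℝ)) ≤ C * Real.exp (S * m + S * n) :=
          mul_le_mul_of_nonneg_left (Real.exp_le_exp.mpr h6) (by linarith)
      _ = _ := by rw [Real.exp_add]; ring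
  · show f^[r] (z 0) = _
    rw [z0, e]
  · show f^[r] (z N) = _
    rw [zN, e]
  · have h9 := h1 _ _ (hz i hi) (k + r)
    rw [Function.iterate_add_apply, Function.iterate_add_apply] at h9
    exact h9

end

end Pool.Agent.N234.CP
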