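import Pool.Agent.N234.CP.Main
import Pool.Agent.N234.CP.Top2
import Pool.Agent.N234.CP.Grow2
import Pool.Agent.N234.CP.Rec2
import Pool.Agent.N234.CP.Bes
import Pool.Agent.N234.CP.G1
import Pool.Agent.N234.CP.G2
import Pool.Agent.N234.CP.G4
import Pool.Agent.N234.CP.Disc
import Pool.Agent.N234.CP.Ent
import Pool.Agent.N234.CP.Rate
import Pool.Agent.N234.CP.Qsx
import Pool.Agent.H789R2.AN.Man
import Pool.Agent.W740.TU.Sym

set_option autoImplicit false
set_option linter.unusedSectionVars false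

/-! Coarse pinching and the entropy criterion: final assembly. -/

open Filter Topology Set Metric
open scoped Manifold ContDiff Pointwise

namespace Pool.Agent.N234.CP

open Pool.Agent.H721R2 Pool.Agent.H789R2.AN Pool.Agent.H789R2.GP Pool.Agent.Y330.J
open Pool.Agent.TH289.K (GPS)

universe u v w

theorem rec2 : Rec2.S_REC2.{v, 0} := Rec2.main2 (Leg2.main2 Bes.main G2.main G4.main) G1.main

section metric

variable {E : Type u} [NormedAddCommGroup E] [NormedSpace ℝ E] [FiniteDimensional ℝ E]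
  {M : Type v} [MetricSpace M] [CompactSpace M]
  [ChartedSpace E M] [IsManifold 𝓘(ℝ, E) 1 M]
  {F : Type w} [NormedAddCommGroup F] [NormedSpace ℝ F]

/-- a large iterate as an abstract hyperbolic system -/
theorem exists_sys {e : M → F} (hiso : ∀ x y, dist x y = ‖e x - e y‖)
    (he : ContMDiff 𝓘(ℝ, E) 𝓘(ℝ, F) 1 e) (hinj : ∀ x, Function.Injective (dm E e x))
    {f : M ≃ₜ M} {Es Eu : M → Submodule ℝ E} {C a b Ls Lu : ℝ}
    (h : EAnosov e f Es Eu C a b Ls Lu) {a' b' : ℝ} (ha : a < a') (hb : b < b') :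
    ∃ (n : ℕ) (S : HypSys M F), 1 ≤ n ∧ S.g = iterHomeo f n ∧ S.e = e ∧ S.a < a' ^ n ∧
      S.b < b' ^ n ∧
      (∀ x, S.Vs x = (Es x).map (dm E e x).toLinearMap) ∧
      (∀ x, S.Vu x = (Eu x).map (dm E e x).toLinearMap) := by
  obtain ⟨K, hK, hang⟩ := h.angle he hinj
  have t1 : ∀ r : ℝ, 0 < r → r < 1 → ∀ᶠ n : ℕ in atTop, K * (C * r ^ n) < 1 / 16 := by
    intro r hr hr1
    have := ((tendsto_pow_atTop_nhds_zero_of_lt_one hr.le hr1).const_mul C).const_mul K
    simp only [mul_zero] at this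
    exact (tendsto_order.mp this).2 _ (by norm_num)
  have t2 : ∀ r r' : ℝ, 0 < r → r < r' → ∀ᶠ n : ℕ in atTop, C * r ^ n < r' ^ n := by
    intro r r' hr hr'
    have h0 : 0 < r' := hr.trans hr'
    have h1 : r / r' < 1 := by rwa [div_lt_one h0]
    have := (tendsto_pow_atTop_nhds_zero_of_lt_one (by positivity : 0 ≤ r / r') h1).const_mul C
    simp only [mul_zero] at this
    filter_upwards [(tendsto_order.mp this).2 1 one_pos] with n hn
    rw [div_pow, ← mul_div_assoc, div_lt_one (by positivity)] at hn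
    exact hn
  obtain ⟨n, ⟨⟨⟨n1, n2⟩, n3⟩, n4⟩, hn1⟩ := (((((t1 a h.a_pos h.a_lt).and
    (t1 b h.b_pos h.b_lt)).and (t2 a a' h.a_pos ha)).and
    (t2 b b' h.b_pos hb)).and (eventually_ge_atTop 1)).exists
  obtain ⟨S, hg, hSe, hSa, hSb, hVs, hVu⟩ :=
    exists_sys_rates hiso he hinj h K hK hang n n1.le n2.le
  exact ⟨n, S, hn1, hg, hSe, by rw [hSa]; exact n3, by rw [hSb]; exact n4, hVs, hVu⟩

end metric

section manifold

variable {E : Type u} [NormedAddCommGroup E] [NormedSpace ℝ E] [FiniteDimensional ℝ E]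
  {M : Type v} [TopologicalSpace M] [T2Space M] [CompactSpace M] [ConnectedSpace M]
  [ChartedSpace E M] [IsManifold 𝓘(ℝ, E) ∞ M]

/-- Infinitesimal contraction implies coarse contraction. -/
theorem coarse_of_contractsAt (f : Diffeomorph 𝓘(ℝ, E) 𝓘(ℝ, E) M M 1)
    (Es Eu : ∀ x : M, Submodule ℝ (TangentSpace 𝓘(ℝ, E) x)) (hA : IsAnosov f Es Eu)
    (s : ℝ) (h1 : ContractsAt f Es s) (s' : ℝ) (hs'0 : 0 < s') (hs' : s' < s) :
    CoarseContracts f s' := by
  obtain ⟨m, e, he, hemb, hinj⟩ := exists_embedding_euclidean_of_compact (I := 𝓘(ℝ, E)) (M := M)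
  let _ : MetricSpace M := hemb.isEmbedding.comapMetricSpace e
  have hiso : ∀ x y : M, dist x y = ‖e x - e y‖ := fun x y => dist_eq_norm (e x) (e y)
  have he1 : ContMDiff 𝓘(ℝ, E) (𝓡 m) 1 e := he.of_le (by simp)
  obtain ⟨N, C₀, l, hN, hC₀, hl0, hl1, -, hru⟩ := hA.rates
  have hlog : 0 < -Real.log l := by
    have := Real.log_neg hl0 hl1
    linarith
  have h2 : ContractsAt f.symm Eu (-Real.log l) := by
    refine ⟨N, C₀, hN, hC₀, ?_⟩
    rw [neg_neg, Real.exp_log hl0]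
    exact hru
  obtain ⟨C, Ls, Lu, hE⟩ := Rate.main E M _ e he1 hinj f Es Eu hA s _ (hs'0.trans hs') hlog h1 h2
  obtain ⟨n, S, hn1, hg, -, hSa, -, -, -⟩ := exists_sys hiso he1 hinj hE
    (a' := Real.exp (-s')) (b' := 1) (Real.exp_lt_exp.mpr (by linarith))
    (by rw [Real.exp_lt_one_iff]; linarith)
  obtain ⟨c, hLP⟩ := exists_LP S
  have hn0 : (0 : ℝ) < n := by
    have : (1 : ℝ) ≤ n := by exact_mod_cast hn1
    linarith
  obtain ⟨δ₀, hδ₀, R⟩ := loRate S (κ := s' * n) (by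
    rw [← Real.exp_nat_mul] at hSa
    convert hSa using 2
    ring) (by positivity)
  have hc := hLP.c_pos
  have hLo := R (min δ₀ c) (lt_min hδ₀ hc) (min_le_left _ _)
  rw [hg] at hLP hLo
  exact coarse_of_loRate (f := f.toHomeomorph) hn1 hLP hs'0 (lt_min hδ₀ hc) (min_le_right _ _) hLo

/-- Coarse expansion from coarse contraction and entropy. -/
theorem coarseExpands_of_entropy (f : Diffeomorph 𝓘(ℝ, E) 𝓘(ℝ, E) M M 1)
    (Es Eu : ∀ x : M, Submodule ℝ (TangentSpace 𝓘(ℝ, E) x)) (hA : IsAnosov f Es Eu)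
    (ds : ℕ) (hds : ∀ x, Module.finrank ℝ (Es x) = ds) (s S : ℝ) (hs : 0 < s) (hS : 0 < S)
    (h1 : CoarseContracts f s) (hh : topEntropy f < ((S + (ds - 1) * s : ℝ) : EReal) ∨
      topEntropy f.symm < ((S + (ds - 1) * s : ℝ) : EReal)) :
    CoarseExpands f.toHomeomorph S := by
  obtain ⟨m, e, he, hemb, hinj⟩ := exists_embedding_euclidean_of_compact (I := 𝓘(ℝ, E)) (M := M)
  let _ : MetricSpace M := hemb.isEmbedding.comapMetricSpace e
  have hiso : ∀ x y : M, dist x y = ‖e x - e y‖ := fun x y => dist_eq_norm (e x) (e y)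
  have he1 : ContMDiff 𝓘(ℝ, E) (𝓡 m) 1 e := he.of_le (by simp)
  obtain ⟨C, a, b, Ls, Lu, hE⟩ := eanosov_of_isAnosov e he1 hinj f Es Eu hA
  obtain ⟨n, Sy, hn1, hg, hSe, -, -, hVs, -⟩ := exists_sys hiso he1 hinj hE
    (a' := 1) (b' := 1) hE.a_lt hE.b_lt
  obtain ⟨c, hLP⟩ := exists_LP Sy
  obtain ⟨br, δb, hb⟩ := exists_BrP hLP
  have hc := hLP.c_pos
  have hn0 : (0 : ℝ) < n := by
    have : (1 : ℝ) ≤ n := by exact_mod_cast hn1
    linarith
  -- entropy
  have hc1 : HCov Sy.g.symm ((S + (ds - 1) * s) * n) := by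
    rw [hg]
    rcases hh with hh | hh
    · obtain ⟨h, hh1, hh2⟩ := EReal.lt_iff_exists_real_btwn.1 hh
      have hh3 : h < S + (ds - 1) * s := by exact_mod_cast hh2
      exact ((Ent.main M f.toHomeomorph h (by exact hh1.le) _ hh3).2.2 n).2
    · obtain ⟨h, hh1, hh2⟩ := EReal.lt_iff_exists_real_btwn.1 hh
      have hh3 : h < S + (ds - 1) * s := by exact_mod_cast hh2
      exact ((Ent.main M f.symm.toHomeomorph h (by exact hh1.le) _ hh3).2.2 n).1
  have dimS : ∀ x, Module.finrank ℝ (Sy.Vs x) = ds := by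
    intro x
    rw [hVs, ← hds x]
    exact (LinearEquiv.finrank_eq (Submodule.equivMapOfInjective _ (hinj x) _)).symm
  have discS : ∀ η > 0, ∃ r > 0, ∃ D : M → EuclideanSpace ℝ (Fin m) → M,
      Discs Sy.e Sy.Vs η r D := by
    intro η hη
    obtain ⟨r, hr, D, hD⟩ := Disc.main E M _ e hiso he1 hinj Es η hη
    refine ⟨r, hr, D, ?_⟩
    have : Sy.Vs = fun x => (Es x).map (dm E e x).toLinearMap := funext hVs
    rw [hSe, this]
    exact hD
  have hLo : ∃ δ₀ > 0, ∀ δ₁ : ℝ, 0 < δ₁ → δ₁ ≤ δ₀ → LoRate Sy.g δ₁ (s * n) := by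
    rw [hg]
    exact CoarseContracts.loRate (f := f.toHomeomorph) h1 hn1
  obtain ⟨δ₁, hδ₁, R1⟩ := rec2 M _ Sy c hLP br δb hb ds (s * n) ((S + (ds - 1) * s) * n) (S * n)
    dimS (by positivity) hLo hc1 discS (by positivity) (le_of_eq (by ring))
  have hUp := R1 (min δ₁ c) (lt_min hδ₁ hc) (min_le_left _ _)
  rw [hg] at hLP hUp
  exact coarse_of_upRate (f := f.toHomeomorph) hn1 hLP hS.le (lt_min hδ₁ hc) (min_le_right _ _) hUp

/-- Coarse pinching. -/
theorem coarse_pinching (f : Diffeomorph 𝓘(ℝ, E) 𝓘(ℝ, E) M M 1)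
    (Es Eu : ∀ x : M, Submodule ℝ (TangentSpace 𝓘(ℝ, E) x)) (hA : IsAnosov f Es Eu)
    (s S u U : ℝ) (hs : 0 < s) (hsS : s ≤ S) (hu : 0 < u) (huU : u ≤ U)
    (h1 : CoarseContracts f s) (h2 : CoarseExpands f.toHomeomorph S)
    (h3 : CoarseContracts f.symm u) (h4 : CoarseExpands f.toHomeomorph.symm U)
    (hlt : 1 < s / S + u / U) :
    TopTransitive f ∧ Dense (Function.periodicPts f) ∧ GPS f.toHomeomorph ∧
      (∃ q : E → M, IsCoveringMap q ∧ Function.Surjective q) ∧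
      ∃ d : ℕ, ∀ (x : M) (S : Set (FundamentalGroup M x)), S.Finite →
        ∃ C : ℕ, ∀ n : ℕ, (S ^ n).ncard ≤ C * (n + 1) ^ d := by
  obtain ⟨m, e, he, hemb, hinj⟩ := exists_embedding_euclidean_of_compact (I := 𝓘(ℝ, E)) (M := M)
  let _ : MetricSpace M := hemb.isEmbedding.comapMetricSpace e
  have hiso : ∀ x y : M, dist x y = ‖e x - e y‖ := fun x y => dist_eq_norm (e x) (e y)
  have he1 : ContMDiff 𝓘(ℝ, E) (𝓡 m) 1 e := he.of_le (by simp)
  obtain ⟨C, a, b, Ls, Lu, hE⟩ := eanosov_of_isAnosov e he1 hinj f Es Eu hA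
  obtain ⟨n, Sy, hn1, hg, -, -, -, -, -⟩ := exists_sys hiso he1 hinj hE
    (a' := 1) (b' := 1) hE.a_lt hE.b_lt
  obtain ⟨c, hLP⟩ := exists_LP Sy
  have hc := hLP.c_pos
  have hn0 : (0 : ℝ) < n := by
    have : (1 : ℝ) ≤ n := by exact_mod_cast hn1
    linarith
  have hsym : (iterHomeo f.toHomeomorph n).symm = iterHomeo f.toHomeomorph.symm n := rfl
  have hS0 : 0 < S := hs.trans_le hsS
  have hU0 : 0 < U := hu.trans_le huU
  obtain ⟨δ₁, hδ₁, R1⟩ := h2.upRate hn1
  obtain ⟨δ₂, hδ₂, R2⟩ := h4.upRate hn1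
  obtain ⟨δ₃, hδ₃, R3⟩ := CoarseContracts.loRate (f := f.toHomeomorph) h1 hn1
  obtain ⟨δ₄, hδ₄, R4⟩ := CoarseContracts.loRate (f := f.toHomeomorph.symm) h3 hn1
  rw [← hsym] at R2 R4
  rw [← hg] at R1 R2 R3 R4
  set δ := min (min δ₁ δ₂) (min (min δ₃ δ₄) c) with hδ
  have d0 : 0 < δ := by positivity
  have d1 : δ ≤ δ₁ := (min_le_left _ _).trans (min_le_left _ _)
  have d2 : δ ≤ δ₂ := (min_le_left _ _).trans (min_le_right _ _)
  have d3 : δ ≤ δ₃ := (min_le_right _ _).trans ((min_le_left _ _).trans (min_le_left _ _))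
  have d4 : δ ≤ δ₄ := (min_le_right _ _).trans ((min_le_left _ _).trans (min_le_right _ _))
  have d5 : δ ≤ c := (min_le_right _ _).trans (min_le_right _ _)
  have cond : (S * n - s * n) * (U * n - u * n) < s * n * (u * n) := by
    have e1 : S * U < s * U + u * S := by
      have := mul_lt_mul_of_pos_right hlt (mul_pos hS0 hU0)
      have e2 : (s / S + u / U) * (S * U) = s * U + u * S := by
        field_simp
      rw [one_mul, e2] at this
      exact this
    have e3 : (S - s) * (U - u) < s * u := by nlinarith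
    have e4 := mul_lt_mul_of_pos_left e3 (mul_pos hn0 hn0)
    calc (S * n - s * n) * (U * n - u * n) = n * n * ((S - s) * (U - u)) := by ring
      _ < n * n * (s * u) := e4
      _ = _ := by ring
  have p1 : 0 < s * n := by positivity
  have p2 : 0 < u * n := by positivity
  have p3 : s * n ≤ S * n := mul_le_mul_of_nonneg_right hsS hn0.le
  have p4 : u * n ≤ U * n := mul_le_mul_of_nonneg_right huU hn0.le
  have hall := lift_all hLP d0 d5 p1 p3 p2 p4 cond (R1 δ d0 d1) (R3 δ d0 d3) (R2 δ d0 d2)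
    (R4 δ d0 d4)
  have : ProperSpace E := FiniteDimensional.proper_real E
  obtain ⟨a1, a2, q₀, hq₀⟩ := abs_main (E' := E) Qsx.main Sy hLP hall hn1 hg
  have hX : ULC M := ulc_of_charted (X := M) (E := E)
  obtain ⟨c₁, hc₁, hsl⟩ := Pool.Agent.Y330.H.exists_sl hLP
  have hex := ex_of_lf hLP hc₁ hsl hall
  have hpg := growth_of_rates hLP hX hex d0 d5 p1 p3 p2 p4 cond (R1 δ d0 d1) (R3 δ d0 d3)
    (R2 δ d0 d2) (R4 δ d0 d4)
  have hgi : ∀ x, Sy.g x = f^[n] x := fun x => by rw [hg]; rfl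
  refine ⟨conclude f hgi a1, fun x => ?_, a2, ⟨q₀, hq₀, covering_surj hq₀⟩, hpg⟩
  rw [Metric.mem_closure_iff]
  intro ε hε
  obtain ⟨y, N, hN1, hy, hd⟩ := Pool.Agent.H779R2.An.periodic_dense Sy a1 x ε hε
  refine ⟨y, ⟨n * N, Nat.mul_pos hn1 hN1, ?_⟩, by rwa [dist_comm]⟩
  rw [Function.IsPeriodicPt, Function.IsFixedPt]
  have h3 : Sy.g^[N] = f^[n * N] := by
    rw [Function.iterate_mul]
    congr 1
    funext x
    exact hgi x
  rw [← h3]
  exact hy

/-- The exponent of growth. -/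
theorem coarse_growth (f : Diffeomorph 𝓘(ℝ, E) 𝓘(ℝ, E) M M 1)
    (Es Eu : ∀ x : M, Submodule ℝ (TangentSpace 𝓘(ℝ, E) x)) (hA : IsAnosov f Es Eu)
    (s S u U : ℝ) (hs : 0 < s) (hsS : s ≤ S) (hu : 0 < u) (huU : u ≤ U)
    (h1 : CoarseContracts f s) (h2 : CoarseExpands f.toHomeomorph S)
    (h3 : CoarseContracts f.symm u) (h4 : CoarseExpands f.toHomeomorph.symm U)
    (hlt : 1 < s / S + u / U) (h d : ℝ) (hh0 : 0 ≤ h) (hh : topEntropy f ≤ (h : EReal))
    (hd : h * (S + U) / (s * U + u * S - S * U) < d) (x : M)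
    (G : Set (FundamentalGroup M x)) (hG : G.Finite) :
    ∃ C : ℝ, ∀ n : ℕ, ((G ^ n).ncard : ℝ) ≤ C * ((n : ℝ) + 1) ^ d := by
  obtain ⟨m, e, he, hemb, hinj⟩ := exists_embedding_euclidean_of_compact (I := 𝓘(ℝ, E)) (M := M)
  let _ : MetricSpace M := hemb.isEmbedding.comapMetricSpace e
  have hiso : ∀ x y : M, dist x y = ‖e x - e y‖ := fun x y => dist_eq_norm (e x) (e y)
  have he1 : ContMDiff 𝓘(ℝ, E) (𝓡 m) 1 e := he.of_le (by simp)
  obtain ⟨C, a, b, Ls, Lu, hE⟩ := eanosov_of_isAnosov e he1 hinj f Es Eu hA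
  obtain ⟨n, Sy, hn1, hg, -, -, -, -, -⟩ := exists_sys hiso he1 hinj hE
    (a' := 1) (b' := 1) hE.a_lt hE.b_lt
  obtain ⟨c, hLP⟩ := exists_LP Sy
  have hc := hLP.c_pos
  have hn0 : (0 : ℝ) < n := by
    have : (1 : ℝ) ≤ n := by exact_mod_cast hn1
    linarith
  have hsym : (iterHomeo f.toHomeomorph n).symm = iterHomeo f.toHomeomorph.symm n := rfl
  have hS0 : 0 < S := hs.trans_le hsS
  have hU0 : 0 < U := hu.trans_le huU
  obtain ⟨δ₁, hδ₁, R1⟩ := h2.upRate hn1
  obtain ⟨δ₂, hδ₂, R2⟩ := h4.upRate hn1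
  obtain ⟨δ₃, hδ₃, R3⟩ := CoarseContracts.loRate (f := f.toHomeomorph) h1 hn1
  obtain ⟨δ₄, hδ₄, R4⟩ := CoarseContracts.loRate (f := f.toHomeomorph.symm) h3 hn1
  rw [← hsym] at R2 R4
  rw [← hg] at R1 R2 R3 R4
  set δ := min (min δ₁ δ₂) (min (min δ₃ δ₄) c) with hδ
  have d0 : 0 < δ := by positivity
  have d1 : δ ≤ δ₁ := (min_le_left _ _).trans (min_le_left _ _)
  have d2 : δ ≤ δ₂ := (min_le_left _ _).trans (min_le_right _ _)
  have d3 : δ ≤ δ₃ := (min_le_right _ _).trans ((min_le_left _ _).trans (min_le_left _ _))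
  have d4 : δ ≤ δ₄ := (min_le_right _ _).trans ((min_le_left _ _).trans (min_le_right _ _))
  have d5 : δ ≤ c := (min_le_right _ _).trans (min_le_right _ _)
  have e1 : S * U < s * U + u * S := by
    have := mul_lt_mul_of_pos_right hlt (mul_pos hS0 hU0)
    have e2 : (s / S + u / U) * (S * U) = s * U + u * S := by
      field_simp
    rw [one_mul, e2] at this
    exact this
  have cond : (S * n - s * n) * (U * n - u * n) < s * n * (u * n) := by
    have e3 : (S - s) * (U - u) < s * u := by nlinarith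
    have e4 := mul_lt_mul_of_pos_left e3 (mul_pos hn0 hn0)
    calc (S * n - s * n) * (U * n - u * n) = n * n * ((S - s) * (U - u)) := by ring
      _ < n * n * (s * u) := e4
      _ = _ := by ring
  have p1 : 0 < s * n := by positivity
  have p2 : 0 < u * n := by positivity
  have p3 : s * n ≤ S * n := mul_le_mul_of_nonneg_right hsS hn0.le
  have p4 : u * n ≤ U * n := mul_le_mul_of_nonneg_right huU hn0.le
  have hall := lift_all hLP d0 d5 p1 p3 p2 p4 cond (R1 δ d0 d1) (R3 δ d0 d3) (R2 δ d0 d2)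
    (R4 δ d0 d4)
  have hX : ULC M := ulc_of_charted (X := M) (E := E)
  obtain ⟨c₁, hc₁, hsl⟩ := Pool.Agent.Y330.H.exists_sl hLP
  have hex := ex_of_lf hLP hc₁ hsl hall
  -- the exponent
  have hD0 : 0 < s * U + u * S - S * U := by linarith
  obtain ⟨h', hh', hd'⟩ : ∃ h' : ℝ, h < h' ∧ h' * (S + U) / (s * U + u * S - S * U) ≤ d := by
    refine ⟨d * (s * U + u * S - S * U) / (S + U), ?_, le_of_eq ?_⟩
    · rw [div_lt_iff₀ hD0] at hd
      rwa [lt_div_iff₀ (by positivity)]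
    · have h6 : S + U ≠ 0 := by positivity
      rw [div_mul_cancel₀ _ h6, mul_div_assoc, div_self hD0.ne', mul_one]
  have hent := Ent.main M f.toHomeomorph h (by exact hh) h' hh'
  have hcov : HCov Sy.g (h' * n) := by rw [hg]; exact (hent.2.2 n).1
  have h'0 : 0 ≤ h' := by linarith
  obtain ⟨C', hC'⟩ := growth_of_rates2 hLP hX hex d0 d5 p1 p3 p2 p4 cond (R1 δ d0 d1)
    (R3 δ d0 d3) (R2 δ d0 d2) (R4 δ d0 d4) (by positivity) hcov x G hG
  refine ⟨|C'|, fun N => (hC' N).trans ?_⟩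
  have hexp : h' * n * ((U * n + S * n) / (s * n * (u * n) -
      (S * n - s * n) * (U * n - u * n))) ≤ d := by
    refine le_trans (le_of_eq ?_) hd'
    have e5 : s * n * (u * n) - (S * n - s * n) * (U * n - u * n) =
        n * n * (s * U + u * S - S * U) := by ring
    rw [e5]
    have hD1 := hD0.ne'
    have hn2 := hn0.ne'
    field_simp
    ring
  have hN1 : (1 : ℝ) ≤ (N : ℝ) + 1 := by
    have : (0 : ℝ) ≤ N := Nat.cast_nonneg _
    linarith
  apply mul_le_mul (le_abs_self _) (Real.rpow_le_rpow_of_exponent_le hN1 hexp) _ (abs_nonneg _)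
  positivity

/-- The entropy criterion in the form of coarse rates: the four rates exist. -/
theorem rates_of_entropy (f : Diffeomorph 𝓘(ℝ, E) 𝓘(ℝ, E) M M 1)
    (Es Eu : ∀ x : M, Submodule ℝ (TangentSpace 𝓘(ℝ, E) x)) (hA : IsAnosov f Es Eu)
    (ds du : ℕ) (hds : ∀ x, Module.finrank ℝ (Es x) = ds)
    (hdu : ∀ x, Module.finrank ℝ (Eu x) = du) (s u h : ℝ) (hs : 0 < s) (hu : 0 < u)
    (h1 : ContractsAt f Es s ∨ CoarseContracts f s)
    (h2 : ContractsAt f.symm Eu u ∨ CoarseContracts f.symm u) (hh : topEntropy f ≤ (h : EReal))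
    (hlt : (h - ds * s) * (h - du * u) < s * u) :
    ∃ s' S' u' U' : ℝ, 0 < s' ∧ s' ≤ S' ∧ 0 < u' ∧ u' ≤ U' ∧ CoarseContracts f s' ∧
      CoarseExpands f.toHomeomorph S' ∧ CoarseContracts f.symm u' ∧
      CoarseExpands f.toHomeomorph.symm U' ∧ 1 < s' / S' + u' / U' := by
  obtain ⟨s', u', h', hs'0, hs', hu'0, hu', hh', hlt'⟩ := exists_rates hs hu hlt
  have c1 : CoarseContracts f s' := by
    rcases h1 with h1 | h1
    · exact coarse_of_contractsAt f Es Eu hA s h1 s' hs'0 hs'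
    · exact h1.mono' hs'.le
  have c2 : CoarseContracts f.symm u' := by
    rcases h2 with h2 | h2
    · exact coarse_of_contractsAt f.symm Eu Es (Pool.Agent.W740.TU.anosov_symm f Es Eu hA) u h2 u'
        hu'0 hu'
    · exact h2.mono' hu'.le
  have hE : topEntropy f < (h' : EReal) := lt_of_le_of_lt hh (by exact_mod_cast hh')
  set S' := max s' (h' - (ds - 1) * s') with hS'
  set U' := max u' (h' - (du - 1) * u') with hU'
  have q1 : s' ≤ S' := le_max_left _ _
  have q2 : u' ≤ U' := le_max_left _ _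
  have c3 : CoarseExpands f.toHomeomorph S' := by
    refine coarseExpands_of_entropy f Es Eu hA ds hds s' S' hs'0 (hs'0.trans_le q1) c1
      (Or.inl (lt_of_lt_of_le hE ?_))
    have : h' ≤ S' + (ds - 1) * s' := by
      have := le_max_right s' (h' - (ds - 1) * s')
      linarith
    exact_mod_cast this
  have c4 : CoarseExpands f.toHomeomorph.symm U' := by
    refine coarseExpands_of_entropy f.symm Eu Es (Pool.Agent.W740.TU.anosov_symm f Es Eu hA) du
      hdu u' U' hu'0 (hu'0.trans_le q2) c2 (Or.inr (lt_of_lt_of_le (b := (h' : EReal)) hE ?_))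
    have : h' ≤ U' + (du - 1) * u' := by
      have := le_max_right u' (h' - (du - 1) * u')
      linarith
    exact_mod_cast this
  refine ⟨s', S', u', U', hs'0, q1, hu'0, q2, c1, c3, c2, c4, ?_⟩
  have e1 : S' - s' = max 0 (h' - ds * s') := by
    rw [hS', max_sub_sub_right s' _ s' |>.symm, sub_self]
    congr 1
    ring
  have e2 : U' - u' = max 0 (h' - du * u') := by
    rw [hU', max_sub_sub_right u' _ u' |>.symm, sub_self]
    congr 1
    ring
  rw [← e1, ← e2] at hlt'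
  have hS0 : 0 < S' := hs'0.trans_le q1
  have hU0 : 0 < U' := hu'0.trans_le q2
  have e3 : s' / S' + u' / U' = (s' * U' + u' * S') / (S' * U') := by
    field_simp
  rw [e3, one_lt_div (by positivity)]
  nlinarith

end manifold

end Pool.Agent.N234.CP
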