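import Pool.Agent.N234.CP.Row

set_option autoImplicit false
set_option linter.unusedSectionVars false

/-! Polynomial growth of the fundamental group under the coarse pinching condition. -/

open Filter Topology Set Metric unitInterval
open scoped Pointwise

namespace Pool.Agent.N234.CP

open Pool.Agent.H789R2.AN Pool.Agent.H789R2.GP Pool.Agent.Y330.J

variable {X : Type*} [MetricSpace X] [CompactSpace X] {g : X ≃ₜ X} {c : ℝ}

/-- corner data for a class -/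
def Cor (g : X ≃ₜ X) (c : ℝ) (i j : ℕ) {x : X} (α : Path.Homotopic.Quotient x x) : Prop :=
  ∃ (y : X) (p : Path.Homotopic.Quotient x y) (q : Path.Homotopic.Quotient y x),
    Scl g.symm p ∧ Scl g q ∧ α = p.trans q ∧
    (∀ l ≥ i, dist (g.symm^[l] x) (g.symm^[l] y) ≤ c / 2) ∧
    ∀ l ≥ j, dist (g^[l] y) (g^[l] x) ≤ c / 2

/-- counting -/
theorem growth_of_cor (hg : LP g c) (hX : ULC X) (K₀ : ℕ)
    (hcor : ∀ (x : X) (S : Set (FundamentalGroup X x)), S.Finite → ∃ A : ℕ, ∀ n : ℕ, ∃ i j : ℕ,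
      i + j ≤ A + K₀ * Nat.log 2 (n + 1) ∧ ∀ α ∈ S ^ n, Cor g c i j (x := x) α) :
    ∃ d : ℕ, ∀ (x : X) (S : Set (FundamentalGroup X x)), S.Finite →
      ∃ C : ℕ, ∀ n : ℕ, (S ^ n).ncard ≤ C * (n + 1) ^ d := by
  classical
  have hc := hg.c_pos
  obtain ⟨Q, col, hcol⟩ := exists_col X hc
  refine ⟨Q * K₀, fun x S hS => ?_⟩
  obtain ⟨A, hA⟩ := hcor x S hS
  refine ⟨(2 ^ Q) ^ (A + 1), fun n => ?_⟩
  obtain ⟨i, j, hij, hC⟩ := hA n
  have hne : Nonempty X := ⟨x⟩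
  have hC' : ∀ α ∈ S ^ n, ∃ y : X, ∃ (p : Path.Homotopic.Quotient x y)
      (q : Path.Homotopic.Quotient y x), Scl g.symm p ∧ Scl g q ∧ α = p.trans q ∧
      (∀ l ≥ i, dist (g.symm^[l] x) (g.symm^[l] y) ≤ c / 2) ∧
      ∀ l ≥ j, dist (g^[l] y) (g^[l] x) ≤ c / 2 := hC
  choose! y hy using hC'
  have hU : ∀ α ∈ S ^ n, ∀ l ≥ i, dist (g.symm^[l] x) (g.symm^[l] (y α)) ≤ c / 2 := by
    intro α hα
    obtain ⟨p, r, -, -, -, h1, -⟩ := hy α hα
    exact h1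
  have hV : ∀ α ∈ S ^ n, ∀ l ≥ j, dist (g^[l] (y α)) (g^[l] x) ≤ c / 2 := by
    intro α hα
    obtain ⟨p, r, -, -, -, -, h1⟩ := hy α hα
    exact h1
  have hinj : Set.InjOn (fun α => fun m : Fin (i + j + 1) =>
      col (g^[(m : ℕ)] (g.symm^[i] (y α)))) (S ^ n) := by
    intro α hα β hβ hab
    have h1 : y α = y β := col_eq hg hcol
      (fun m hm => by
        have := dist_triangle_left (g.symm^[m] (y α)) (g.symm^[m] (y β)) (g.symm^[m] x)
        linarith [hU α hα m hm, hU β hβ m hm])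
      (fun m hm => by
        have := dist_triangle_right (g^[m] (y α)) (g^[m] (y β)) (g^[m] x)
        linarith [hV α hα m hm, hV β hβ m hm])
      (fun m hm => congrFun hab ⟨m, by omega⟩)
    obtain ⟨p, r, p1, r1, e1, -, -⟩ := hy α hα
    obtain ⟨p', r', p2, r2, e2, -, -⟩ := hy β hβ
    rw [e1, e2]
    clear e1 e2 hab hα hβ
    generalize y β = yb at *
    subst h1
    rw [p1.unique hX p2, r1.unique hX r2]
  have hcard : (S ^ n).ncard ≤ (Q + 1) ^ (i + j + 1) := by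
    have h1 := Set.ncard_le_ncard_of_injOn _ (t := (Set.univ : Set (Fin (i + j + 1) → Fin (Q + 1))))
      (fun α _ => mem_univ _) hinj
    rwa [Set.ncard_univ, Nat.card_eq_fintype_card, Fintype.card_fun, Fintype.card_fin,
      Fintype.card_fin] at h1
  have hQ2 : (Q + 1) ^ (i + j + 1) ≤ (2 ^ Q) ^ (i + j + 1) :=
    Nat.pow_le_pow_left Nat.lt_two_pow_self _
  have h3 : (2 ^ Q) ^ (i + j + 1) ≤ (2 ^ Q) ^ (A + 1 + K₀ * Nat.log 2 (n + 1)) :=
    Nat.pow_le_pow_right (by positivity) (by omega)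
  have h4 : (2 ^ Q) ^ (K₀ * Nat.log 2 (n + 1)) ≤ (n + 1) ^ (Q * K₀) := by
    calc (2 ^ Q) ^ (K₀ * Nat.log 2 (n + 1)) = (2 ^ Nat.log 2 (n + 1)) ^ (Q * K₀) := by
          rw [← pow_mul, ← pow_mul]
          congr 1
          ring
      _ ≤ _ := Nat.pow_le_pow_left (Nat.pow_log_le_self 2 (by omega)) _
  refine hcard.trans (hQ2.trans (h3.trans ?_))
  rw [pow_add]
  exact Nat.mul_le_mul_left _ h4

/-- the choice of the position of the rectangle, with a bound -/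
theorem exists_km_bd {σ₁ σ₂ υ₁ υ₂ : ℝ} (h2 : 0 < σ₂) (h21 : σ₂ ≤ σ₁) (h4 : 0 < υ₂)
    (h43 : υ₂ ≤ υ₁) (hc : (σ₁ - σ₂) * (υ₁ - υ₂) < σ₂ * υ₂) :
    ∃ K : ℝ, 0 ≤ K ∧ ∀ A₁ A₂ : ℝ,
    ∃ k m : ℕ, A₁ + σ₁ * k ≤ σ₂ * (k + m) ∧ A₂ + υ₁ * m ≤ υ₂ * (k + m) ∧
      ((k + m : ℕ) : ℝ) ≤ K * (1 + |A₁| + |A₂|) := by
  set α := (σ₁ - σ₂) / σ₂ with hα
  set β := (υ₁ - υ₂) / υ₂ with hβ
  have hα0 : 0 ≤ α := div_nonneg (by linarith) h2.le
  have hβ0 : 0 ≤ β := div_nonneg (by linarith) h4.le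
  have hαβ : α * β < 1 := by
    rw [hα, hβ, div_mul_div_comm, div_lt_one (by positivity)]
    exact hc
  have hαβ' : 0 < 1 - α * β := by linarith
  refine ⟨(1 + α) * ((β / σ₂ + β + 1 / υ₂) / (1 - α * β) + 1) + 1 / σ₂ + 1, by positivity,
    fun A₁ A₂ => ?_⟩
  set T := 1 + |A₁| + |A₂| with hT
  have hT1 : 1 ≤ T := by
    have := abs_nonneg A₁
    have := abs_nonneg A₂
    linarith
  have hTA₁ : |A₁| ≤ T := by
    have := abs_nonneg A₂
    linarith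
  have hTA₂ : |A₂| ≤ T := by
    have := abs_nonneg A₁
    linarith
  set P := β * (|A₁| / σ₂ + 1) + |A₂| / υ₂ with hP
  have hP0 : 0 ≤ P := by positivity
  have hPT : P ≤ (β / σ₂ + β + 1 / υ₂) * T := by
    have e1 : β * (|A₁| / σ₂) ≤ β / σ₂ * T := by
      calc β * (|A₁| / σ₂) = β / σ₂ * |A₁| := by ring
        _ ≤ _ := mul_le_mul_of_nonneg_left hTA₁ (by positivity)
    have e2 : |A₂| / υ₂ ≤ 1 / υ₂ * T := by
      calc |A₂| / υ₂ = 1 / υ₂ * |A₂| := by ring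
        _ ≤ _ := mul_le_mul_of_nonneg_left hTA₂ (by positivity)
    have e3 : β * 1 ≤ β * T := mul_le_mul_of_nonneg_left hT1 hβ0
    calc P = β * (|A₁| / σ₂) + β * 1 + |A₂| / υ₂ := by rw [hP]; ring
      _ ≤ β / σ₂ * T + β * T + 1 / υ₂ * T := by linarith
      _ = _ := by ring
  set k := ⌈P / (1 - α * β)⌉₊ with hk
  have hk1 : P ≤ k * (1 - α * β) := by
    have := Nat.le_ceil (P / (1 - α * β))
    rwa [div_le_iff₀ hαβ'] at this
  have hk2 : (k : ℝ) ≤ ((β / σ₂ + β + 1 / υ₂) / (1 - α * β) + 1) * T := by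
    have e1 : (k : ℝ) < P / (1 - α * β) + 1 := Nat.ceil_lt_add_one (by positivity)
    have e2 : P / (1 - α * β) ≤ (β / σ₂ + β + 1 / υ₂) * T / (1 - α * β) :=
      div_le_div_of_nonneg_right hPT hαβ'.le
    have e3 : ((β / σ₂ + β + 1 / υ₂) / (1 - α * β) + 1) * T =
        (β / σ₂ + β + 1 / υ₂) * T / (1 - α * β) + T := by ring
    rw [e3]
    linarith
  set m := ⌈|A₁| / σ₂ + α * k⌉₊ with hm
  have hx0 : 0 ≤ |A₁| / σ₂ + α * k := by positivity
  have hm1 : |A₁| / σ₂ + α * k ≤ m := Nat.le_ceil _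
  have hm2 : (m : ℝ) < |A₁| / σ₂ + α * k + 1 := Nat.ceil_lt_add_one hx0
  refine ⟨k, m, ?_, ?_, ?_⟩
  · have h5 : σ₂ * (|A₁| / σ₂ + α * k) ≤ σ₂ * m := mul_le_mul_of_nonneg_left hm1 h2.le
    have h6 : σ₂ * (|A₁| / σ₂ + α * k) = |A₁| + (σ₁ - σ₂) * k := by
      rw [hα]; field_simp
    have h7 := le_abs_self A₁
    nlinarith
  · have h5 : β * m ≤ β * (|A₁| / σ₂ + α * k + 1) := mul_le_mul_of_nonneg_left hm2.le hβ0
    have h6 : β * m + |A₂| / υ₂ ≤ k := by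
      have : β * (|A₁| / σ₂ + α * k + 1) + |A₂| / υ₂ = P + k * (α * β) := by rw [hP]; ring
      nlinarith
    have h7 : υ₂ * (β * m + |A₂| / υ₂) ≤ υ₂ * k := mul_le_mul_of_nonneg_left h6 h4.le
    have h8 : υ₂ * (β * m + |A₂| / υ₂) = (υ₁ - υ₂) * m + |A₂| := by
      rw [hβ]; field_simp
    have h9 := le_abs_self A₂
    nlinarith
  · push_cast
    have e1 : |A₁| / σ₂ ≤ 1 / σ₂ * T := by
      calc |A₁| / σ₂ = 1 / σ₂ * |A₁| := by ring
        _ ≤ _ := mul_le_mul_of_nonneg_left hTA₁ (by positivity)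
    have e2 : (1 + α) * (k : ℝ) ≤
        (1 + α) * (((β / σ₂ + β + 1 / υ₂) / (1 - α * β) + 1) * T) :=
      mul_le_mul_of_nonneg_left hk2 (by positivity)
    have e3 : ((1 + α) * ((β / σ₂ + β + 1 / υ₂) / (1 - α * β) + 1) + 1 / σ₂ + 1) * T =
        (1 + α) * (((β / σ₂ + β + 1 / υ₂) / (1 - α * β) + 1) * T) + 1 / σ₂ * T + T := by ring
    rw [e3]
    linarith

/-- data for a generator -/
def Gen (g : X ≃ₜ X) (δ : ℝ) (N : ℕ) {x : X} (α : Path.Homotopic.Quotient x x) : Prop :=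
  ∃ (y : X) (p : Path.Homotopic.Quotient x y) (q : Path.Homotopic.Quotient y x),
    Scl g.symm p ∧ Scl g q ∧ α = p.trans q ∧ SR g.symm δ (g.symm^[N] x) (g.symm^[N] y) ∧
    SR g δ (g^[N] y) (g^[N] x)

theorem Gen.exists (hg : LP g c) (hX : ULC X) (hex : Ex g) {δ : ℝ} (hδ : 0 < δ) {x : X}
    (α : Path.Homotopic.Quotient x x) : ∃ N : ℕ, ∀ b ≥ N, Gen g δ b α := by
  obtain ⟨p₀, rfl⟩ := Path.Homotopic.Quotient.mk_surjective α
  obtain ⟨y, p, q, hp, hq, he⟩ := nf_all hg hX hex p₀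
  obtain ⟨n₁, h1⟩ := hp δ hδ
  obtain ⟨n₂, h2⟩ := hq.symm δ hδ
  refine ⟨n₁ + n₂, fun b hb => ⟨y, cl p, cl q, ⟨p, hp, rfl⟩, ⟨q, hq, rfl⟩, he, fun k => ?_,
    fun k => ?_⟩⟩
  · rw [← Function.iterate_add_apply, ← Function.iterate_add_apply]
    have := h1 (k + b) (by omega) 1
    simpa using this
  · rw [← Function.iterate_add_apply, ← Function.iterate_add_apply]
    have := h2 (k + b) (by omega) 1
    rw [dist_comm]
    simpa using this

theorem Gen.finite (hg : LP g c) (hX : ULC X) (hex : Ex g) {δ : ℝ} (hδ : 0 < δ) {x : X}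
    {S : Set (FundamentalGroup X x)} (hS : S.Finite) :
    ∃ N : ℕ, ∀ α ∈ S, Gen g δ N (x := x) α := by
  choose N hN using fun α : FundamentalGroup X x => Gen.exists (c := c) hg hX hex hδ (x := x) α
  obtain ⟨m, hm⟩ := (hS.image N).bddAbove
  exact ⟨m, fun α hα => hN α m (hm (mem_image_of_mem _ hα))⟩

/-- products of generators -/
theorem St.pow (hg : LP g c) (hX : ULC X) {br : X → X → X} {δb δ₁ ρ η : ℝ} {k m n J₁ L₁ : ℕ}
    (F : Fr g c br δb δ₁ ρ η k m (n * J₁) (n * L₁)) {δ : ℝ} {N : ℕ} {x : X}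
    {S : Set (FundamentalGroup X x)} (hS : ∀ α ∈ S, Gen g δ N (x := x) α)
    (U1 : ∀ a b, SR g δ a b → ∃ M ≤ L₁, Steps g ρ M (g.symm^[k + N] a) (g.symm^[k + N] b))
    (U2 : ∀ a b, SR g.symm δ a b → ∃ M ≤ J₁, Steps g.symm ρ M (g^[m + N] a) (g^[m + N] b)) :
    ∀ i ≤ n, ∀ α ∈ S ^ i, ∃ L ≤ i * L₁, St g k m δ₁ ρ (i * J₁) L (x := x) (z := x) α := by
  intro i
  induction i with
  | zero =>
    intro _ α hα
    rw [pow_zero, Set.mem_one] at hα
    rw [hα, FundamentalGroup.one_def]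
    exact ⟨0, Nat.zero_le _, (St.init g k m δ₁ ρ x).mono (Nat.zero_le _)⟩
  | succ i ih =>
    intro hi α hα
    rw [pow_succ'] at hα
    obtain ⟨γ, hγ, β, hβ, rfl⟩ := Set.mem_mul.1 hα
    rw [FundamentalGroup.mul_def]
    obtain ⟨L, hL, h1⟩ := ih (by omega) β hβ
    obtain ⟨y, p, q, hp, hq, he, s1, s2⟩ := hS γ hγ
    obtain ⟨M, hM, t1⟩ := U2 _ _ s1
    obtain ⟨M', hM', t2⟩ := U1 _ _ s2
    have e1 : ∀ a : X, g^[m + N] (g.symm^[N] a) = g^[m] a := fun a => by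
      rw [Function.iterate_add_apply, iterR]
    have e2 : ∀ a : X, g.symm^[k + N] (g^[N] a) = g.symm^[k] a := fun a => by
      rw [Function.iterate_add_apply, iterL]
    rw [e1, e1] at t1
    rw [e2, e2] at t2
    have hn1 : (i + 1) * J₁ ≤ n * J₁ := Nat.mul_le_mul_right _ hi
    have hn2 : (i + 1) * L₁ ≤ n * L₁ := Nat.mul_le_mul_right _ hi
    have a1 : (i + 1) * J₁ = i * J₁ + J₁ := by ring
    have a2 : (i + 1) * L₁ = i * L₁ + L₁ := by ring
    have h2 := h1.stepsU hg hX F (N := M) (by omega) (by omega) hp t1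
    have h3 := h2.stepsS hg hX F.hρδ (by linarith [F.hδ₁, F.hρ0, F.hρδ]) hq t2
    refine ⟨L + M', by omega, ?_⟩
    have h4 : (β : Path.Homotopic.Quotient x x).trans γ = (β.trans p).trans q := by
      rw [Path.Homotopic.Quotient.trans_assoc, ← he]
    rw [h4]
    exact h3.mono (by omega)

/-- **Polynomial growth** under the coarse pinching condition, abstract form. -/
theorem growth_of_rates (hg : LP g c) (hX : ULC X) (hex : Ex g) {δ : ℝ} (hδ : 0 < δ)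
    (hδc : δ ≤ c) {σ₁ σ₂ υ₁ υ₂ : ℝ} (h2 : 0 < σ₂) (h21 : σ₂ ≤ σ₁) (h4 : 0 < υ₂) (h43 : υ₂ ≤ υ₁)
    (hcond : (σ₁ - σ₂) * (υ₁ - υ₂) < σ₂ * υ₂) (hS1 : UpRate g δ σ₁) (hS2 : LoRate g δ σ₂)
    (hU1 : UpRate g.symm δ υ₁) (hU2 : LoRate g.symm δ υ₂) :
    ∃ d : ℕ, ∀ (x : X) (S : Set (FundamentalGroup X x)), S.Finite →
      ∃ C : ℕ, ∀ n : ℕ, (S ^ n).ncard ≤ C * (n + 1) ^ d := by
  have hc := hg.c_pos
  obtain ⟨br, δb, hb⟩ := exists_BrP hg
  obtain ⟨δq, hδq, hsq⟩ := square hg hX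
  -- scales
  set δ₁ := min (min δ (c / 3)) δq with hδ₁
  have d0 : 0 < δ₁ := lt_min (lt_min hδ (by linarith)) hδq
  have d1 : δ₁ ≤ δ := (min_le_left _ _).trans (min_le_left _ _)
  have d2 : 3 * δ₁ ≤ c := by
    have : δ₁ ≤ c / 3 := (min_le_left _ _).trans (min_le_right _ _)
    linarith
  have d3 : δ₁ ≤ δq := min_le_right _ _
  obtain ⟨η₁, hη₁, hb2⟩ := hb.b2 δ₁ d0
  set η := min η₁ δb with hη
  have e0 : 0 < η := lt_min hη₁ hb.pos
  obtain ⟨ηg, hηg, hgap⟩ := qs_SR_of_dist hg δ₁ d0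
  set ρ := min δ₁ (min (η / 4) (ηg / 4)) with hρ
  have r0 : 0 < ρ := by positivity
  have r1 : ρ ≤ δ₁ := min_le_left _ _
  have r2 : ρ ≤ η / 4 := (min_le_right _ _).trans (min_le_left _ _)
  have r3 : ρ ≤ ηg / 4 := (min_le_right _ _).trans (min_le_right _ _)
  obtain ⟨C₁, hC₁, U1⟩ := hS1.fine hg hδc r0
  obtain ⟨C₂, hC₂, U2⟩ := hU1.fine hg.symm hδc r0
  obtain ⟨D₁, hD₁, V1⟩ := hS2.fine hg h2 hδc r0
  obtain ⟨D₂, hD₂, V2⟩ := hU2.fine hg.symm h4 hδc r0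
  obtain ⟨K, hK, hkm⟩ := exists_km_bd h2 h21 h4 h43 hcond
  refine growth_of_cor hg hX ⌈2 * K⌉₊ fun x S hS => ?_
  obtain ⟨N, hN⟩ := Gen.finite (c := c) hg hX hex hδ hS
  set B₁ := Real.log (D₁ * C₁) + σ₁ * N with hB₁
  set B₂ := Real.log (D₂ * C₂) + υ₁ * N with hB₂
  have hDC₁ : 0 < D₁ * C₁ := by positivity
  have hDC₂ : 0 < D₂ * C₂ := by positivity
  refine ⟨⌈K * (1 + |B₁| + |B₂|) + 2 * K⌉₊, fun n => ?_⟩
  have hn1 : (0 : ℝ) < (n : ℝ) + 1 := by positivity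
  have hlog0 : 0 ≤ Real.log ((n : ℝ) + 1) := Real.log_nonneg (by
    have : (0 : ℝ) ≤ n := Nat.cast_nonneg _
    linarith)
  obtain ⟨k, m, hk1, hk2, hk3⟩ := hkm (B₁ + Real.log (n + 1)) (B₂ + Real.log (n + 1))
  set L₁ := ⌊C₁ * Real.exp (σ₁ * ((k + N : ℕ) : ℝ))⌋₊ with hL₁
  set J₁ := ⌊C₂ * Real.exp (υ₁ * ((m + N : ℕ) : ℝ))⌋₊ with hJ₁
  have K1 : D₁ * ((n * L₁ : ℕ) : ℝ) ≤ Real.exp (σ₂ * ((k + m : ℕ) : ℝ)) := by
    have a1 : (L₁ : ℝ) ≤ C₁ * Real.exp (σ₁ * ((k + N : ℕ) : ℝ)) :=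
      Nat.floor_le (by positivity)
    calc D₁ * ((n * L₁ : ℕ) : ℝ) = D₁ * (n * L₁) := by push_cast; ring
      _ ≤ D₁ * ((n + 1) * (C₁ * Real.exp (σ₁ * ((k + N : ℕ) : ℝ)))) := by
          apply mul_le_mul_of_nonneg_left _ (by linarith)
          exact mul_le_mul (by linarith) a1 (Nat.cast_nonneg _) (by linarith)
      _ = Real.exp (B₁ + Real.log (n + 1) + σ₁ * k) := by
          rw [hB₁, Real.exp_add, Real.exp_add, Real.exp_add, Real.exp_log hDC₁,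
            Real.exp_log hn1]
          have : Real.exp (σ₁ * ((k + N : ℕ) : ℝ)) = Real.exp (σ₁ * N) * Real.exp (σ₁ * k) := by
            rw [← Real.exp_add]; congr 1; push_cast; ring
          rw [this]; ring
      _ ≤ _ := Real.exp_le_exp.mpr (by push_cast; exact hk1)
  have K2 : D₂ * ((n * J₁ : ℕ) : ℝ) ≤ Real.exp (υ₂ * ((k + m : ℕ) : ℝ)) := by
    have a1 : (J₁ : ℝ) ≤ C₂ * Real.exp (υ₁ * ((m + N : ℕ) : ℝ)) :=
      Nat.floor_le (by positivity)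
    calc D₂ * ((n * J₁ : ℕ) : ℝ) = D₂ * (n * J₁) := by push_cast; ring
      _ ≤ D₂ * ((n + 1) * (C₂ * Real.exp (υ₁ * ((m + N : ℕ) : ℝ)))) := by
          apply mul_le_mul_of_nonneg_left _ (by linarith)
          exact mul_le_mul (by linarith) a1 (Nat.cast_nonneg _) (by linarith)
      _ = Real.exp (B₂ + Real.log (n + 1) + υ₁ * m) := by
          rw [hB₂, Real.exp_add, Real.exp_add, Real.exp_add, Real.exp_log hDC₂,
            Real.exp_log hn1]
          have : Real.exp (υ₁ * ((m + N : ℕ) : ℝ)) = Real.exp (υ₁ * N) * Real.exp (υ₁ * m) := by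
            rw [← Real.exp_add]; congr 1; push_cast; ring
          rw [this]; ring
      _ ≤ _ := Real.exp_le_exp.mpr (by push_cast; exact hk2)
  have F : Fr g c br δb δ₁ ρ η k m (n * J₁) (n * L₁) := {
    hb := hb
    hδ₁ := d2
    hρ0 := r0.le
    hρδ := r1
    hρη := by linarith
    hη := min_le_right _ _
    b2 := fun x y hxy => hb2 x y (hxy.trans_le (min_le_left _ _))
    gap := fun x y hxy hd => hgap x y hxy (by linarith)
    CS := by
      intro i hi a b hs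
      have h5 := V1 i (k + m) _ _ (le_trans (mul_le_mul_of_nonneg_left
        (by exact_mod_cast hi) (by linarith)) K1) (hs.mono d1)
      rw [Nat.add_comm k m, Function.iterate_add_apply, Function.iterate_add_apply, iterR,
        iterR] at h5
      exact h5
    CU := by
      intro i hi a b hs
      have h5 := V2 i (k + m) _ _ (le_trans (mul_le_mul_of_nonneg_left
        (by exact_mod_cast hi) (by linarith)) K2) (hs.mono d1)
      rw [Function.iterate_add_apply, Function.iterate_add_apply, iterL, iterL] at h5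
      exact h5
    sq := fun hα hβ hβ' hα' s1 s2 s3 s4 => hsq m hα hβ hβ' hα' (s1.mono d3) (s2.mono d3)
      (s3.mono d3) (s4.mono d3) }
  have hpow := St.pow hg hX F hN
    (fun a b hab => by
      obtain ⟨M, hM, hs⟩ := U1 a b hab (k + N)
      exact ⟨M, Nat.le_floor hM, hs⟩)
    (fun a b hab => by
      obtain ⟨M, hM, hs⟩ := U2 a b hab (m + N)
      exact ⟨M, Nat.le_floor hM, hs⟩) n le_rfl
  refine ⟨k, m, ?_, fun α hα => ?_⟩
  · have a1 : |B₁ + Real.log (n + 1)| ≤ |B₁| + Real.log (n + 1) := by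
      refine (abs_add_le _ _).trans ?_
      rw [abs_of_nonneg hlog0]
    have a2 : |B₂ + Real.log (n + 1)| ≤ |B₂| + Real.log (n + 1) := by
      refine (abs_add_le _ _).trans ?_
      rw [abs_of_nonneg hlog0]
    have a3 : Real.log ((n : ℝ) + 1) ≤ (Nat.log 2 (n + 1) : ℝ) + 1 := by
      have b1 : n + 1 < 2 ^ (Nat.log 2 (n + 1) + 1) :=
        Nat.lt_pow_succ_log_self (by norm_num) _
      have b2 : ((n : ℝ) + 1) ≤ 2 ^ (Nat.log 2 (n + 1) + 1) := by exact_mod_cast b1.le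
      have b3 := Real.log_le_log hn1 b2
      rw [Real.log_pow] at b3
      have b4 : Real.log 2 ≤ 1 := by
        have := Real.log_two_lt_d9
        linarith
      have b5 : (0 : ℝ) ≤ ((Nat.log 2 (n + 1) + 1 : ℕ) : ℝ) := Nat.cast_nonneg _
      calc _ ≤ ((Nat.log 2 (n + 1) + 1 : ℕ) : ℝ) * Real.log 2 := b3
        _ ≤ ((Nat.log 2 (n + 1) + 1 : ℕ) : ℝ) * 1 := mul_le_mul_of_nonneg_left b4 b5
        _ = _ := by push_cast; ring
    have a4 : ((k + m : ℕ) : ℝ) ≤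
        (K * (1 + |B₁| + |B₂|) + 2 * K) + 2 * K * (Nat.log 2 (n + 1) : ℝ) := by
      refine hk3.trans ?_
      have : K * (1 + |B₁ + Real.log (n + 1)| + |B₂ + Real.log (n + 1)|) ≤
          K * (1 + |B₁| + |B₂| + 2 * ((Nat.log 2 (n + 1) : ℝ) + 1)) :=
        mul_le_mul_of_nonneg_left (by linarith) hK
      refine this.trans (le_of_eq ?_)
      ring
    have a5 : ((k + m : ℕ) : ℝ) ≤ ((⌈K * (1 + |B₁| + |B₂|) + 2 * K⌉₊ +
        ⌈2 * K⌉₊ * Nat.log 2 (n + 1) : ℕ) : ℝ) := by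
      push_cast
      push_cast at a4
      have c1 := Nat.le_ceil (K * (1 + |B₁| + |B₂|) + 2 * K)
      have c2 := mul_le_mul_of_nonneg_right (Nat.le_ceil (2 * K))
        (Nat.cast_nonneg (α := ℝ) (Nat.log 2 (n + 1)))
      linarith
    exact_mod_cast a5
  · obtain ⟨L, hL, y, p, b, b', α', β', h5, h6, h7, h8, h9, ⟨i, hi, h10⟩, h11⟩ := hpow α hα
    subst h5
    have hρc : ρ ≤ c / 2 := by linarith
    have s1 := F.CU i hi _ _ h10
    have s2 : SR g ρ (g^[m] (p 0)) (g^[m] x) := by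
      apply F.CS L hL
      rw [← h6]
      exact ⟨fun t => g.symm^[k] (p t), rfl, rfl, fun t ht => (h11 t ht).1⟩
    refine ⟨p 0, α', β', h7, h8, h9, fun l hl => ?_, fun l hl => ?_⟩
    · have := s1 (l - k)
      rw [← Function.iterate_add_apply, ← Function.iterate_add_apply,
        Nat.sub_add_cancel hl] at this
      exact this.trans hρc
    · have := s2 (l - m)
      rw [← Function.iterate_add_apply, ← Function.iterate_add_apply,
        Nat.sub_add_cancel hl] at this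
      exact this.trans hρc

end Pool.Agent.N234.CP
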