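import Pool.Agent.N234.CP.Base
import Pool.Agent.H789R2.GP.Good
import Pool.Agent.H789R2.GP.QSx

set_option autoImplicit false

/-! The ladder: unstable chains slide along stable chains. -/

open Filter Topology Set Metric unitInterval

namespace Pool.Agent.N234.CP

open Pool.Agent.H789R2.AN Pool.Agent.H789R2.GP

variable {X : Type*} [MetricSpace X]

theorem exists_BrP [CompactSpace X] {g : X ≃ₜ X} {c : ℝ} (h : LP g c) :
    ∃ (br : X → X → X) (δ : ℝ), BrP g c br δ := by
  obtain ⟨br, δ, h0, h1, h2, h3, h4⟩ := exists_br h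
  exact ⟨br, δ, h0, h1, h2, h3, h4⟩

theorem SR.iter {g : X ≃ₜ X} {ε : ℝ} {x y : X} (h : SR g ε x y) (m : ℕ) :
    SR g ε (g^[m] x) (g^[m] y) := fun k => by
  rw [← Function.iterate_add_apply, ← Function.iterate_add_apply]
  exact h _

theorem Steps.mono {g : X ≃ₜ X} {δ δ' : ℝ} {N : ℕ} {x y : X} (h : Steps g δ N x y)
    (hd : δ ≤ δ') : Steps g δ' N x y := by
  obtain ⟨z, h0, h1, h2⟩ := h
  exact ⟨z, h0, h1, fun i hi => (h2 i hi).mono hd⟩

theorem Steps.snoc {g : X ≃ₜ X} {δ : ℝ} {N : ℕ} {x y z : X} (h : Steps g δ N x y)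
    (h' : SR g δ y z) : Steps g δ (N + 1) x z := by
  obtain ⟨w, h0, h1, h2⟩ := h
  refine ⟨fun i => if i ≤ N then w i else z, by simp [h0], by simp, fun i hi => ?_⟩
  rcases Nat.lt_or_ge i N with h3 | h3
  · beta_reduce
    rw [if_pos h3.le, if_pos (by omega : i + 1 ≤ N)]
    exact h2 i h3
  · obtain rfl : i = N := by omega
    beta_reduce
    rw [if_pos le_rfl, if_neg (by omega), h1]
    exact h'

theorem Steps.of_chain {g : X ≃ₜ X} {δ : ℝ} {N : ℕ} {p : ℕ → X}
    (h : ∀ i < N, SR g δ (p i) (p (i + 1))) {i : ℕ} (hi : i ≤ N) : Steps g δ i (p 0) (p i) :=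
  ⟨p, rfl, rfl, fun j hj => h j (by omega)⟩

theorem Steps.ws {g : X ≃ₜ X} {c : ℝ} (h : LP g c) {δ : ℝ} (hδ : δ ≤ c) {N : ℕ} {x y : X}
    (hs : Steps g δ N x y) : WS g x y := by
  obtain ⟨z, h0, h1, h2⟩ := hs
  have key : ∀ i ≤ N, WS g (z 0) (z i) := by
    intro i
    induction i with
    | zero => intro _; exact WS.refl _ _
    | succ i ih =>
      intro hi
      exact (ih (by omega)).trans (WS.of_SR (h.cS _ _ ((h2 i (by omega)).mono hδ)))
  have := key N le_rfl
  rwa [h0, h1] at this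

/-- The ladder. -/
theorem ladder {g : X ≃ₜ X} {c : ℝ} (h : LP g c) {br : X → X → X} {δb : ℝ}
    (hb : BrP g c br δb) {δ₁ ρ η : ℝ} (hδ₁ : 3 * δ₁ ≤ c) (hρ0 : 0 ≤ ρ) (hρδ : ρ ≤ δ₁)
    (hρη : 2 * ρ < η) (hη : η ≤ δb)
    (b2 : ∀ x y, dist x y < η → SR g δ₁ x (br x y) ∧ SR g.symm δ₁ y (br x y))
    (gap : ∀ x y, SR g c x y → dist x y ≤ 3 * ρ → SR g δ₁ x y)
    (n L J : ℕ)
    (CS : ∀ i ≤ L, ∀ x y, Steps g δ₁ i x y → SR g ρ (g^[n] x) (g^[n] y))
    (CU : ∀ j ≤ J, ∀ x y, Steps g.symm δ₁ j x y → SR g.symm ρ (g.symm^[n] x) (g.symm^[n] y))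
    (z w : ℕ → X) (hz : ∀ i < L, SR g ρ (z i) (z (i + 1)))
    (hw : ∀ j < J, SR g.symm ρ (w j) (w (j + 1))) (h0 : w 0 = g^[n] (z 0)) :
    ∀ j ≤ J, ∃ p : ℕ → X, g^[n] (p 0) = w j ∧ (∀ i < L, SR g δ₁ (p i) (p (i + 1))) ∧
      ∀ i ≤ L, Steps g.symm δ₁ j (g^[n] (z i)) (g^[n] (p i)) := by
  have hc := h.c_pos
  intro j
  induction j with
  | zero =>
    intro _
    exact ⟨z, h0.symm, fun i hi => (hz i hi).mono hρδ, fun i _ => ⟨fun _ => g^[n] (z i), rfl, rfl,
      fun k hk => absurd hk (Nat.not_lt_zero k)⟩⟩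
  | succ j ih =>
    intro hj
    obtain ⟨p, hp0, hp1, hp2⟩ := ih (by omega)
    have hd : ∀ i ≤ L, dist (w (j + 1)) (g^[n] (p i)) < η := by
      intro i hi
      have h1 : dist (w j) (w (j + 1)) ≤ ρ := hw j (by omega) 0
      have h2 : dist (g^[n] (p 0)) (g^[n] (p i)) ≤ ρ := CS i hi _ _ (Steps.of_chain hp1 hi) 0
      rw [hp0] at h2
      have h3 := dist_triangle (w (j + 1)) (w j) (g^[n] (p i))
      rw [dist_comm (w (j + 1)) (w j)] at h3
      linarith
    let q : ℕ → X := fun i => br (w (j + 1)) (g^[n] (p i))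
    have hq : ∀ i, g^[n] (g.symm^[n] (q i)) = q i := fun i => iterR g n (q i)
    have hsteps : ∀ i ≤ L, Steps g.symm δ₁ (j + 1) (g^[n] (z i)) (q i) := fun i hi =>
      (hp2 i hi).snoc (b2 _ _ (hd i hi)).2
    have hzp : ∀ i ≤ L, SR g.symm ρ (z i) (g.symm^[n] (q i)) := by
      intro i hi
      have h1 := CU (j + 1) hj _ _ (hsteps i hi)
      rwa [iterL] at h1
    refine ⟨fun i => g.symm^[n] (q i), ?_, ?_, ?_⟩
    · show g^[n] (g.symm^[n] (q 0)) = w (j + 1)
      rw [hq]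
      have h1 : dist (w (j + 1)) (w j) < δb := by
        have h2 : dist (w j) (w (j + 1)) ≤ ρ := hw j (by omega) 0
        rw [dist_comm]
        linarith
      have h2 := hb.b3 (w (j + 1)) (w j) (w (j + 1)) h1 (qs_SR_refl _ (by linarith) _)
        ((hw j (by omega)).mono (by linarith))
      show br (w (j + 1)) (g^[n] (p 0)) = w (j + 1)
      rw [hp0]
      exact h2.symm
    · intro i hi
      show SR g δ₁ (g.symm^[n] (q i)) (g.symm^[n] (q (i + 1)))
      apply gap
      · intro k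
        rcases le_total k n with hk | hk
        · rw [T1_iter_sub g hk, T1_iter_sub g hk]
          have h1 := (b2 _ _ (hd i hi.le)).2 (n - k)
          have h2 := (b2 _ _ (hd (i + 1) hi)).2 (n - k)
          have h3 : ∀ x : X, g.symm^[n - k] (g^[n] x) = g^[k] x := by
            intro x
            have : g^[n] x = g^[n - k] (g^[k] x) := by
              rw [← Function.iterate_add_apply, Nat.sub_add_cancel hk]
            rw [this, iterL]
          rw [h3] at h1 h2
          have h4 := hp1 i hi k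
          have h5 := dist_triangle4 (g.symm^[n - k] (q i)) (g^[k] (p i)) (g^[k] (p (i + 1)))
            (g.symm^[n - k] (q (i + 1)))
          have h6 : dist (g.symm^[n - k] (q i)) (g^[k] (p i)) ≤ δ₁ := by
            rw [dist_comm]; exact h1
          have h7 : dist (g^[k] (p (i + 1))) (g.symm^[n - k] (q (i + 1))) ≤ δ₁ := h2
          linarith
        · rw [T1_iter_add g hk, T1_iter_add g hk]
          have h1 := (b2 _ _ (hd i hi.le)).1 (k - n)
          have h2 := (b2 _ _ (hd (i + 1) hi)).1 (k - n)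
          have h3 := dist_triangle_left (g^[k - n] (q i)) (g^[k - n] (q (i + 1)))
            (g^[k - n] (w (j + 1)))
          have h4 : dist (g^[k - n] (w (j + 1))) (g^[k - n] (q i)) ≤ δ₁ := h1
          have h5 : dist (g^[k - n] (w (j + 1))) (g^[k - n] (q (i + 1))) ≤ δ₁ := h2
          linarith
      · have h1 : dist (z i) (g.symm^[n] (q i)) ≤ ρ := hzp i hi.le 0
        have h2 : dist (z (i + 1)) (g.symm^[n] (q (i + 1))) ≤ ρ := hzp (i + 1) hi 0
        have h3 : dist (z i) (z (i + 1)) ≤ ρ := hz i hi 0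
        have h5 := dist_triangle4 (g.symm^[n] (q i)) (z i) (z (i + 1)) (g.symm^[n] (q (i + 1)))
        rw [dist_comm (g.symm^[n] (q i)) (z i)] at h5
        linarith
    · intro i hi
      show Steps g.symm δ₁ (j + 1) (g^[n] (z i)) (g^[n] (g.symm^[n] (q i)))
      rw [hq]
      exact hsteps i hi

/-- The strip of brackets with a fixed point. -/
theorem br_strip [CompactSpace X] {g : X ≃ₜ X} {c : ℝ} (h : LP g c) {br : X → X → X} {δ : ℝ}
    (hb : BrP g c br δ) (v : C(I, SM g.symm)) (s : X) (hv : ∀ t, dist (v t).val s < δ) :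
    ∃ K : C(I, Pr g), ∀ t, (K t).x = (v t).val ∧ (K t).y = br (v t).val s := by
  have hc := h.c_pos
  have b1 := hb.b1
  have b4 := hb.b4
  have hS : ∀ t, SR g c (v t).val (br (v t).val s) := fun t =>
    (b1 _ _ (hv t)).1.mono (by linarith)
  let K : I → Pr g := fun t => ⟨(v t).val, br (v t).val s, WS.of_SR (h.cS _ _ (hS t))⟩
  have hK : Continuous K := by
    rw [Pr.continuous_iff]
    refine ⟨v.continuous, ?_, fun t ε hε => ?_⟩
    · rw [Metric.continuous_iff']
      intro t ε hε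
      obtain ⟨η, hη, h1⟩ := qs_SR_of_dist h.symm (ε / 2) (half_pos hε)
      obtain ⟨η', hη', h2⟩ := b4 η hη
      filter_upwards [(Metric.continuous_iff'.1 v.continuous) t η' hη'] with r hr
      have h3 : SR g.symm (ε / 2) (br (v r).val s) (br (v t).val s) := by
        apply h1
        · exact (qs_SR_add (b1 _ _ (hv r)).2.symm' (b1 _ _ (hv t)).2).mono (by linarith)
        · apply h2 _ _ _ _ (hv r) (hv t)
          · have h4 : SR g.symm (dist (v r) (v t)) (v r).val (v t).val :=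
              (SM.dist_le _ _ dist_nonneg).1 le_rfl
            exact lt_of_le_of_lt (h4 0) hr
          · rw [dist_self]
            exact hη'
      have h5 : dist ((K r).snd) ((K t).snd) ≤ ε / 2 := (SM.dist_le _ _ (half_pos hε).le).2 h3
      exact lt_of_le_of_lt h5 (half_lt_self hε)
    · obtain ⟨N, hN⟩ := qs_exists_pow hc hε
      refine ⟨N, Eventually.of_forall fun r k hk => ?_⟩
      exact (h.cS _ _ (hS r) k).trans (hN k hk).le
  exact ⟨⟨K, hK⟩, fun t => ⟨rfl, rfl⟩⟩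

/-- Lifting a short unstable path along a stable chain. -/
theorem bottom_lift [CompactSpace X] {g : X ≃ₜ X} {c : ℝ} (h : LP g c) {br : X → X → X} {δ : ℝ}
    (hb : BrP g c br δ) {δ₁ ρ : ℝ} (hδ₁ : 3 * δ₁ ≤ c) (hρ0 : 0 ≤ ρ) (hρδ : ρ ≤ δ₁)
    (hρb : 2 * ρ < δ) :
    ∀ (L : ℕ) (z : ℕ → X) (v : C(I, SM g.symm)), (v 0).val = z 0 →
      (∀ i < L, SR g ρ (z i) (z (i + 1))) →
      (∀ t, ∃ p : ℕ → X, p 0 = (v t).val ∧ (∀ i < L, SR g δ₁ (p i) (p (i + 1))) ∧
        ∀ i ≤ L, SR g.symm ρ (z i) (p i)) → ∃ x, LO v (z L) x := by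
  have hc := h.c_pos
  intro L
  induction L with
  | zero =>
    intro z v h0 _ _
    refine ⟨(v 1).val, ?_⟩
    rw [← h0]
    exact LO_diag v
  | succ L ih =>
    intro z v h0 hz hp
    have hv : ∀ t, dist (v t).val (z 1) < δ := by
      intro t
      obtain ⟨p, p0, p1, p2⟩ := hp t
      have h1 : dist (z 0) (p 0) ≤ ρ := p2 0 (by omega) 0
      have h2 : dist (z 0) (z 1) ≤ ρ := hz 0 (by omega) 0
      rw [p0] at h1
      have h3 := dist_triangle_left (v t).val (z 1) (z 0)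
      linarith
    obtain ⟨K, hK⟩ := br_strip h hb v (z 1) hv
    let v₁ : C(I, SM g.symm) := sndPath K
    have hv₁ : ∀ t, (v₁ t).val = br (v t).val (z 1) := fun t => (hK t).2
    have e1 : br (z 0) (z 1) = z 1 := by
      have h1 := hv 0
      rw [h0] at h1
      exact (hb.b3 _ _ _ h1 ((hz 0 (by omega)).mono (by linarith))
        (qs_SR_refl _ (by linarith) _)).symm
    obtain ⟨x, hx⟩ := ih (fun i => z (i + 1)) v₁ (by rw [hv₁, h0, e1])
      (fun i hi => hz (i + 1) (by omega)) (fun t => by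
        obtain ⟨p, p0, p1, p2⟩ := hp t
        refine ⟨fun i => p (i + 1), ?_, fun i hi => p1 (i + 1) (by omega),
          fun i hi => p2 (i + 1) (by omega)⟩
        rw [hv₁]
        have h1 := hb.b3 (v t).val (z 1) (p 1) (hv t) ?_ ((p2 1 (by omega)).mono (by linarith))
        · exact h1
        · rw [← p0]
          exact (p1 0 (by omega)).mono (by linarith))
    refine ⟨x, ?_⟩
    exact LO_comp ⟨K, rfl, rfl, fun t => (hK t).1, fun t => rfl⟩ hx

end Pool.Agent.N234.CP
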