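import Pool.Agent.N234.CP.Stm

set_option autoImplicit false

/-! Project CP, part LEG: short stable chains between the sides of a box. -/

open Filter Topology Set Metric

namespace Pool.Agent.N234.CP.Leg

open Pool.Agent.H721R2 Pool.Agent.H789R2.AN Pool.Agent.H789R2.GP Pool.Agent.N234.CP

universe v w

/-- contraction along steps -/
theorem steps_dist {X : Type*} [MetricSpace X] {g : X ≃ₜ X} {ε₁ κ : ℝ} (hκ : 0 ≤ κ)
    (h : ∀ x y : X, SR g ε₁ x y → ∀ k : ℕ, dist (g^[k] x) (g^[k] y) ≤ κ ^ k * dist x y)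
    {δ₁ : ℝ} (hδ : δ₁ ≤ ε₁) {N : ℕ} {x y : X} (hs : Steps g δ₁ N x y) (n : ℕ) :
    dist (g^[n] x) (g^[n] y) ≤ N * (κ ^ n * δ₁) := by
  obtain ⟨z, h0, hN, hz⟩ := hs
  rw [← h0, ← hN]
  have h1 := dist_le_range_sum_dist (fun k => g^[n] (z k)) N
  refine h1.trans ?_
  have h2 : ∀ k ∈ Finset.range N, dist (g^[n] (z k)) (g^[n] (z (k+1))) ≤ κ ^ n * δ₁ := by
    intro k hk
    have h3 := hz k (Finset.mem_range.mp hk)
    refine (h _ _ (h3.mono hδ) n).trans ?_
    exact mul_le_mul_of_nonneg_left (by simpa using h3 0) (pow_nonneg hκ n)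
  calc _ ≤ ∑ k ∈ Finset.range N, κ ^ n * δ₁ := Finset.sum_le_sum h2
    _ = _ := by simp

section param

variable {V : Type*} [NormedAddCommGroup V] [InnerProductSpace ℝ V] {d : ℕ}

/-- the box with a long side in the direction `i` -/
noncomputable def W (b : OrthonormalBasis (Fin d) ℝ V) (i : Fin d) (a ρ : ℝ) (v : V)
    (c : Fin d → ℝ) : V :=
  v + (c i * a) • b i + ∑ j ∈ Finset.univ.erase i, (ρ * (c j - 1/2)) • b j

theorem W_cont (b : OrthonormalBasis (Fin d) ℝ V) (i : Fin d) (a ρ : ℝ) (v : V) :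
    Continuous (W b i a ρ v) := by
  unfold W
  fun_prop

theorem W_tail (b : OrthonormalBasis (Fin d) ℝ V) (i : Fin d) {ρ : ℝ} (hρ : 0 ≤ ρ)
    {c : Fin d → ℝ} (hc : ∀ j, 0 ≤ c j ∧ c j ≤ 1) :
    ‖∑ j ∈ Finset.univ.erase i, (ρ * (c j - 1/2)) • b j‖ ≤ d * ρ / 2 := by
  have h1 : ∀ j ∈ Finset.univ.erase i, ‖(ρ * (c j - 1/2)) • b j‖ ≤ ρ / 2 := by
    intro j _
    rw [norm_smul, b.orthonormal.1 j, mul_one, Real.norm_eq_abs, abs_mul, abs_of_nonneg hρ]
    have h2 : |c j - 1 / 2| ≤ 1 / 2 := by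
      rw [abs_le]
      constructor <;> linarith [(hc j).1, (hc j).2]
    nlinarith
  refine (norm_sum_le _ _).trans ((Finset.sum_le_sum h1).trans ?_)
  rw [Finset.sum_const, nsmul_eq_mul]
  have h3 : ((Finset.univ.erase i).card : ℝ) ≤ d := by
    have h4 := Finset.card_le_univ (Finset.univ.erase i)
    simp only [Fintype.card_fin] at h4
    exact_mod_cast h4
  nlinarith

theorem W_norm (b : OrthonormalBasis (Fin d) ℝ V) (i : Fin d) {a ρ R : ℝ} (hρ : 0 ≤ ρ) {v : V}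
    (hv : ‖v‖ < R) (hv' : ‖v + a • b i‖ < R) {c : Fin d → ℝ} (hc : ∀ j, 0 ≤ c j ∧ c j ≤ 1) :
    ‖W b i a ρ v c‖ < R + d * ρ / 2 := by
  have h1 : v + (c i * a) • b i = (1 - c i) • v + c i • (v + a • b i) := by
    rw [smul_add, smul_smul, sub_smul, one_smul]
    abel
  have h2 : ‖v + (c i * a) • b i‖ < R := by
    rw [h1]
    obtain ⟨h0, h0'⟩ := hc i
    have h3 : ‖(1 - c i) • v + c i • (v + a • b i)‖ ≤ (1 - c i) * ‖v‖ + c i * ‖v + a • b i‖ := by
      refine (norm_add_le _ _).trans ?_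
      rw [norm_smul, norm_smul, Real.norm_eq_abs, Real.norm_eq_abs, abs_of_nonneg h0,
        abs_of_nonneg (by linarith)]
    refine h3.trans_lt ?_
    rcases eq_or_lt_of_le h0 with h4 | h4
    · rw [← h4]; simpa using hv
    · nlinarith
  have h3 := W_tail b i hρ hc
  unfold W
  exact (norm_add_le _ _).trans_lt (by linarith)

theorem W_coord (b : OrthonormalBasis (Fin d) ℝ V) (i : Fin d) (a ρ : ℝ) (v : V)
    (c : Fin d → ℝ) {j : Fin d} (hj : j ≠ i) :
    inner ℝ (b j) (W b i a ρ v c) = inner ℝ (b j) v + ρ * (c j - 1/2) := by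
  have hb : ∀ k l, inner ℝ (b k) (b l) = if k = l then (1:ℝ) else 0 := by
    intro k l
    exact orthonormal_iff_ite.mp b.orthonormal k l
  unfold W
  rw [inner_add_right, inner_add_right, inner_smul_right, hb, if_neg hj, inner_sum]
  simp only [inner_smul_right, hb]
  rw [Finset.sum_eq_single j]
  · simp
  · intro k _ hk
    rw [if_neg (Ne.symm hk)]; ring
  · intro h
    exact absurd (Finset.mem_erase.mpr ⟨hj, Finset.mem_univ j⟩) h

theorem W_sep (b : OrthonormalBasis (Fin d) ℝ V) (i : Fin d) (a ρ : ℝ) (v : V)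
    {c c' : Fin d → ℝ} {j : Fin d} (hj : j ≠ i) (h0 : c j = 0) (h1 : c' j = 1) :
    ρ ≤ ‖W b i a ρ v c - W b i a ρ v c'‖ := by
  have h2 : inner ℝ (b j) (W b i a ρ v c - W b i a ρ v c') = -ρ := by
    rw [inner_sub_right, W_coord b i a ρ v c hj, W_coord b i a ρ v c' hj, h0, h1]
    ring
  have h3 := abs_real_inner_le_norm (b j) (W b i a ρ v c - W b i a ρ v c')
  rw [h2, b.orthonormal.1 j, one_mul, abs_neg] at h3
  exact (le_abs_self ρ).trans h3

end param

/-- two points of a disc -/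
theorem disc_lip {X : Type*} [MetricSpace X] {E : Type*} [NormedAddCommGroup E] [NormedSpace ℝ E]
    {e : X → E} (he : ∀ x y, dist x y = ‖e x - e y‖) {V : X → Submodule ℝ E} {η r : ℝ}
    (hη : η ≤ 1) {D : X → E → X} (hD : Discs e V η r D) (x : X) {v v' : E} (hv : v ∈ V x)
    (hv' : v' ∈ V x) (h : ‖v‖ < r) (h' : ‖v'‖ < r) : dist (D x v) (D x v') ≤ 2 * ‖v - v'‖ := by
  rw [he]
  have h1 := (hD x).2 v hv v' hv' h h'
  have h2 : e (D x v) - e (D x v') = (e (D x v) - e (D x v') - (v - v')) + (v - v') := by abel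
  rw [h2]
  have h3 := norm_add_le (e (D x v) - e (D x v') - (v - v')) (v - v')
  have h4 : 0 ≤ ‖v - v'‖ := norm_nonneg _
  nlinarith

theorem disc_dist {X : Type*} [MetricSpace X] {E : Type*} [NormedAddCommGroup E] [NormedSpace ℝ E]
    {e : X → E} (he : ∀ x y, dist x y = ‖e x - e y‖) {V : X → Submodule ℝ E} {η r : ℝ}
    (hη : η ≤ 1) {D : X → E → X} (hD : Discs e V η r D) (x : X) {v : E} (hv : v ∈ V x)
    (h : ‖v‖ < r) : dist x (D x v) ≤ 2 * ‖v‖ := by
  have h0 : ‖(0:E)‖ < r := by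
    rw [norm_zero]; exact (norm_nonneg v).trans_lt h
  have h1 := disc_lip he hη hD x hv (V x).zero_mem h h0
  rw [(hD x).1, sub_zero, dist_comm] at h1
  exact h1

/-- the cube -/
def cube (d : ℕ) : Set (Fin d → ℝ) := {c | ∀ i, 0 ≤ c i ∧ c i ≤ 1}

theorem cube_closed (d : ℕ) : IsClosed (cube d) := by
  have : cube d = ⋂ i, ({c : Fin d → ℝ | 0 ≤ c i} ∩ {c | c i ≤ 1}) := by
    ext c
    simp [cube]
  rw [this]
  exact isClosed_iInter fun i =>
    (isClosed_le continuous_const (continuous_apply i)).inter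
      (isClosed_le (continuous_apply i) continuous_const)

theorem main (hB : S_BES.{v}) (h2 : S_G2.{v,w}) (h4 : S_G4.{v}) : S_LEG.{v,w} := by
  intro X _ _ E _ _ _ S c hLP br δ hbr d σ κ hσ hcov
  obtain ⟨εc, hεc, hcontr⟩ := S.contraction_iter (Real.exp (-σ)) hσ
  have hcontr' : ∀ x y : X, SR S.g εc x y → ∀ k : ℕ,
      dist (S.g^[k] x) (S.g^[k] y) ≤ Real.exp (-σ) ^ k * dist x y := hcontr
  refine ⟨εc, hεc, fun δ₁ hδ₁ hδ₁c => ?_⟩
  obtain ⟨r₄, hr₄, θ, hθ, H4⟩ := h4 X S.g c hLP br δ hbr δ₁ hδ₁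
  obtain ⟨η₂, hη₂, H2⟩ := h2 X E S c hLP br δ hbr
  refine ⟨min η₂ 1, lt_min hη₂ one_pos, fun η r₀ D hη hr₀ hD ε₁ hε₁ => ?_⟩
  have hη1 : η ≤ 1 := hη.trans (min_le_right _ _)
  obtain ⟨r₂, hr₂, hr₂₀, H2'⟩ := H2 η r₀ D (hη.trans (min_le_left _ _)) hr₀ hD
  obtain ⟨β, hβ, hb2⟩ := hbr.b2 ε₁ hε₁
  have hδ := hbr.pos
  set R : ℝ := min r₂ (min (r₄ / 3) (min (β / 3) (δ / 3))) with hRdef
  have hR : 0 < R := by
    refine lt_min hr₂ (lt_min (by linarith) (lt_min (by linarith) (by linarith)))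
  have hR2 : R ≤ r₂ := min_le_left _ _
  have hR4 : R ≤ r₄ / 3 := (min_le_right _ _).trans (min_le_left _ _)
  have hRβ : R ≤ β / 3 := (min_le_right _ _).trans ((min_le_right _ _).trans (min_le_left _ _))
  have hRδ : R ≤ δ / 3 := (min_le_right _ _).trans ((min_le_right _ _).trans (min_le_right _ _))
  have hR0 : R ≤ r₀ := hR2.trans hr₂₀
  refine ⟨R / 2, by linarith, by linarith, fun ε hε => ?_⟩
  obtain ⟨η₄, hη₄, hb4⟩ := hbr.b4 ε hε
  set ρ : ℝ := min (R / (2 * (d + 1))) (η₄ / (4 * (d + 1))) with hρdef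
  have hd0 : (0:ℝ) ≤ d := Nat.cast_nonneg d
  have hρ : 0 < ρ := lt_min (by positivity) (by positivity)
  have hρR : d * ρ / 2 < R / 2 := by
    have h5 : ρ ≤ R / (2 * (d + 1)) := min_le_left _ _
    rw [le_div_iff₀ (by positivity)] at h5
    nlinarith
  have hρη : d * ρ < η₄ := by
    have h5 : ρ ≤ η₄ / (4 * (d + 1)) := min_le_right _ _
    rw [le_div_iff₀ (by positivity)] at h5
    nlinarith
  obtain ⟨τ, hτ, H2''⟩ := H2' ρ hρ
  obtain ⟨CH, hCH⟩ := hcov θ hθ
  refine ⟨2 ^ d * |CH| * (δ₁ / τ) ^ (d - 1), fun n x b i a v hv hv' => ?_⟩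
  obtain ⟨Y, hYc, hY⟩ := hCH n
  -- the map of the box
  set q : (Fin d → ℝ) → X := fun c => D x ((W b i a ρ v c : S.Vs x) : E) with hq
  have hWn : ∀ c ∈ cube d, ‖((W b i a ρ v c : S.Vs x) : E)‖ < R := by
    intro c hc
    have h5 := W_norm b i hρ.le hv hv' hc
    have h6 : ‖((W b i a ρ v c : S.Vs x) : E)‖ = ‖W b i a ρ v c‖ := rfl
    rw [h6]; linarith
  have hxq : ∀ c ∈ cube d, dist x (q c) < 2 * R := by
    intro c hc
    have h5 := disc_dist S.isom hη1 hD x (W b i a ρ v c).2 ((hWn c hc).trans_le hR0)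
    have h6 := hWn c hc
    simp only [hq]
    linarith
  have hqq : ∀ c ∈ cube d, ∀ c' ∈ cube d, dist (q c) (q c') ≤
      2 * dist (W b i a ρ v c) (W b i a ρ v c') := by
    intro c hc c' hc'
    rw [dist_eq_norm]
    exact disc_lip S.isom hη1 hD x (W b i a ρ v c).2 (W b i a ρ v c').2
      ((hWn c hc).trans_le hR0) ((hWn c' hc').trans_le hR0)
  have hqcont : ContinuousOn q (cube d) := by
    rw [Metric.continuousOn_iff]
    intro c hc ε' hε'
    have h5 := (W_cont b i a ρ v).continuousAt (x := c)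
    rw [Metric.continuousAt_iff] at h5
    obtain ⟨δ', hδ', h6⟩ := h5 (ε' / 2) (by linarith)
    refine ⟨δ', hδ', fun c' hc' hcc => ?_⟩
    have h7 := h6 hcc
    have h8 := hqq c' hc' c hc
    linarith
  -- the sets of the cover
  set B : Y → Set (Fin d → ℝ) := fun y =>
    {c | c ∈ cube d ∧ ∀ k ≤ n, dist (S.g.symm^[k] (q c)) (S.g.symm^[k] y) ≤ θ} with hBdef
  have hBcl : ∀ y, IsClosed (B y) := by
    intro y
    have h5 : B y = ⋂ k ∈ {k : ℕ | k ≤ n}, (cube d ∩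
        (fun c => dist (S.g.symm^[k] (q c)) (S.g.symm^[k] y)) ⁻¹' (Set.Iic θ)) := by
      ext c
      simp only [hBdef, Set.mem_ofPred_eq, Set.mem_iInter, Set.mem_inter_iff, Set.mem_preimage,
        Set.mem_Iic]
      constructor
      · rintro ⟨h6, h7⟩ k hk
        exact ⟨h6, h7 k hk⟩
      · intro h6
        exact ⟨(h6 0 (Nat.zero_le n)).1, fun k hk => (h6 k hk).2⟩
    rw [h5]
    refine isClosed_biInter fun k _ => ?_
    refine ContinuousOn.preimage_isClosed_of_isClosed ?_ (cube_closed d) isClosed_Iic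
    have h6 : Continuous fun z : X => dist (S.g.symm^[k] z) (S.g.symm^[k] (y : X)) :=
      (S.g.symm.continuous.iterate k).dist continuous_const
    exact h6.comp_continuousOn hqcont
  have hBcov : ∀ c : Fin d → ℝ, (∀ i, 0 ≤ c i ∧ c i ≤ 1) → ∃ y, c ∈ B y := by
    intro c hc
    obtain ⟨y, hy, h5⟩ := hY (q c)
    exact ⟨⟨y, hy⟩, hc, h5⟩
  -- chains of the cover give stable chains
  have hsteps : ∀ (j : Fin d) (N : ℕ) (c : ℕ → Fin d → ℝ), CChain B j N c →
      Steps S.g δ₁ N (S.g.symm^[n] (br x (q (c 0)))) (S.g.symm^[n] (br x (q (c N)))) := by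
    intro j N c hc
    obtain ⟨h5, h6, h7, h8⟩ := hc
    refine H4 x N n (fun k => q (c k)) (fun k hk => ?_) (fun k hk m hm => ?_)
    · have h9 := hxq (c k) (h5 k hk)
      linarith
    · obtain ⟨y, h9, h10⟩ := h8 k hk
      have h11 := h9.2 m hm
      have h12 := h10.2 m hm
      have h13 := dist_triangle_right (S.g.symm^[m] (q (c k))) (S.g.symm^[m] (q (c (k + 1))))
        (S.g.symm^[m] (y : X))
      linarith
  have hexp : Real.exp (-σ) ^ n = Real.exp (-(σ * n)) := by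
    rw [← Real.exp_nat_mul]
    congr 1
    ring
  have hlong : ∀ j, j ≠ i → ∀ N c, CChain B j N c → τ * Real.exp (σ * n) / δ₁ ≤ (N : ℝ) := by
    intro j hj N c hc
    have h5 := steps_dist (Real.exp_pos _).le hcontr' hδ₁c (hsteps j N c hc) n
    rw [iterR, iterR] at h5
    have h6 := hc.1 0 (Nat.zero_le N)
    have h7 := hc.1 N le_rfl
    have h8 := W_sep b i a ρ v hj hc.2.1 hc.2.2.1
    have h9 := H2'' x _ (W b i a ρ v (c 0)).2 _ (W b i a ρ v (c N)).2
      ((hWn _ h6).trans_le hR2) ((hWn _ h7).trans_le hR2) h8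
    have h10 : τ ≤ N * (Real.exp (-σ) ^ n * δ₁) := h9.trans h5
    rw [hexp] at h10
    rw [div_le_iff₀ hδ₁]
    calc τ * Real.exp (σ * n) ≤ N * (Real.exp (-(σ * n)) * δ₁) * Real.exp (σ * n) :=
          mul_le_mul_of_nonneg_right h10 (Real.exp_pos _).le
      _ = N * δ₁ * (Real.exp (-(σ * n)) * Real.exp (σ * n)) := by ring
      _ = N * δ₁ := by rw [← Real.exp_add]; simp
  obtain ⟨N, c', hc', hN⟩ := hB Y d B hBcl hBcov i (τ * Real.exp (σ * n) / δ₁) (by positivity)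
    hlong
  have hc0 : c' 0 ∈ cube d := hc'.1 0 (Nat.zero_le N)
  have hcN : c' N ∈ cube d := hc'.1 N le_rfl
  have hvE : ‖(v : E)‖ < R / 2 := hv
  have hvE' : ‖((v + a • b i : S.Vs x) : E)‖ < R / 2 := hv'
  have hWv : ∀ c ∈ cube d, ∀ u : S.Vs x, ‖(u : E)‖ < R / 2 → v + (c i * a) • b i = u →
      dist (br x (q c)) (br x (D x (u : E))) ≤ ε := by
    intro c hc u hu huc
    have h5 := hxq c hc
    have h6 := disc_dist S.isom hη1 hD x u.2 (by linarith : ‖(u : E)‖ < r₀)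
    have h7 : dist (q c) (D x (u : E)) ≤ d * ρ := by
      have h8 := disc_lip S.isom hη1 hD x (W b i a ρ v c).2 u.2 ((hWn c hc).trans_le hR0)
        (by linarith : ‖(u : E)‖ < r₀)
      have h9 : ((W b i a ρ v c : S.Vs x) : E) - (u : E) =
          ((∑ j ∈ Finset.univ.erase i, (ρ * (c j - 1/2)) • b j : S.Vs x) : E) := by
        rw [← Submodule.coe_sub]
        congr 1
        unfold W
        rw [huc]
        abel
      rw [h9] at h8
      have h10 : ‖((∑ j ∈ Finset.univ.erase i, (ρ * (c j - 1/2)) • b j : S.Vs x) : E)‖ ≤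
          d * ρ / 2 := W_tail b i hρ.le hc
      linarith
    refine (hb4 x x (q c) (D x (u : E)) (by linarith) (by linarith) ?_ (by linarith)).le
    rw [dist_self]; exact hη₄
  refine ⟨N, br x (q (c' 0)), br x (q (c' N)), ?_, hsteps i N c' hc', ?_, ?_, ?_, ?_⟩
  · -- the count
    have hd1 : 1 ≤ d := (Nat.zero_le i.1).trans_lt i.2
    have h5 : (N : ℝ) * (τ * Real.exp (σ * n) / δ₁) ^ (d - 1) ≤
        2 ^ d * |CH| * Real.exp (κ * n) := by
      refine hN.trans ?_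
      rw [Fintype.card_coe]
      have h6 : CH * Real.exp (κ * n) ≤ |CH| * Real.exp (κ * n) :=
        mul_le_mul_of_nonneg_right (le_abs_self _) (Real.exp_pos _).le
      calc (2:ℝ) ^ d * (Y.card : ℝ) ≤ 2 ^ d * (|CH| * Real.exp (κ * n)) :=
            mul_le_mul_of_nonneg_left (hYc.trans h6) (by positivity)
        _ = _ := by ring
    have h7 : (τ * Real.exp (σ * n) / δ₁) ^ (d - 1) * (δ₁ / τ) ^ (d - 1) *
        Real.exp (-((d - 1) * σ * n)) = 1 := by
      rw [← mul_pow]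
      have h8 : τ * Real.exp (σ * n) / δ₁ * (δ₁ / τ) = Real.exp (σ * n) := by
        field_simp
      rw [h8, ← Real.exp_nat_mul, Nat.cast_sub hd1, ← Real.exp_add]
      simp
      ring
    have h9 : 0 ≤ (δ₁ / τ) ^ (d - 1) * Real.exp (-((d - 1) * σ * n)) := by positivity
    calc (N : ℝ) = N * ((τ * Real.exp (σ * n) / δ₁) ^ (d - 1) * (δ₁ / τ) ^ (d - 1) *
          Real.exp (-((d - 1) * σ * n))) := by rw [h7, mul_one]
      _ = (N * (τ * Real.exp (σ * n) / δ₁) ^ (d - 1)) * ((δ₁ / τ) ^ (d - 1) *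
          Real.exp (-((d - 1) * σ * n))) := by ring
      _ ≤ (2 ^ d * |CH| * Real.exp (κ * n)) * ((δ₁ / τ) ^ (d - 1) *
          Real.exp (-((d - 1) * σ * n))) := mul_le_mul_of_nonneg_right h5 h9
      _ = 2 ^ d * |CH| * (δ₁ / τ) ^ (d - 1) * (Real.exp (κ * n) *
          Real.exp (-((d - 1) * σ * n))) := by ring
      _ = _ := by
        rw [← Real.exp_add]
        congr 2
        ring
  · have h5 := hxq _ hc0
    exact (hb2 x _ (by linarith)).1
  · have h5 := hxq _ hcN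
    exact (hb2 x _ (by linarith)).1
  · refine hWv _ hc0 v hvE ?_
    rw [hc'.2.1]; simp
  · refine hWv _ hcN _ hvE' ?_
    rw [hc'.2.2.1]; simp

end Pool.Agent.N234.CP.Leg
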