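import Pool.Agent.N234.CP.Abs

set_option autoImplicit false
set_option linter.unusedSectionVars false

/-! Assembly. -/

open Filter Topology Set Metric
open scoped Manifold ContDiff Pointwise

namespace Pool.Agent.N234.CP

open Pool.Agent.H721R2 Pool.Agent.H789R2.AN Pool.Agent.H789R2.GP
open Pool.Agent.TH289.K (GPS)

universe u v w

/-- room for the rates -/
theorem exists_rates {s u h : ℝ} {ds du : ℝ} (hs : 0 < s) (hu : 0 < u)
    (hlt : (h - ds * s) * (h - du * u) < s * u) :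
    ∃ s' u' h' : ℝ, 0 < s' ∧ s' < s ∧ 0 < u' ∧ u' < u ∧ h < h' ∧
      max 0 (h' - ds * s') * max 0 (h' - du * u') < s' * u' := by
  have h0 : max 0 (h - ds * s) * max 0 (h - du * u) < s * u := by
    rcases le_total (h - ds * s) 0 with h1 | h1
    · rw [max_eq_left h1, zero_mul]; positivity
    · rcases le_total (h - du * u) 0 with h2 | h2
      · rw [max_eq_left h2, mul_zero]; positivity
      · rw [max_eq_right h1, max_eq_right h2]; exact hlt
  have hc : Continuous fun t : ℝ => (s - t) * (u - t) -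
      max 0 ((h + t) - ds * (s - t)) * max 0 ((h + t) - du * (u - t)) := by fun_prop
  have h1 : 0 < (s - 0) * (u - 0) -
      max 0 ((h + 0) - ds * (s - 0)) * max 0 ((h + 0) - du * (u - 0)) := by
    simp only [sub_zero, add_zero]; linarith
  have h2 := hc.continuousAt.eventually_const_lt h1
  have h3 : ∀ᶠ t in 𝓝[>] (0 : ℝ), 0 < (s - t) * (u - t) -
      max 0 ((h + t) - ds * (s - t)) * max 0 ((h + t) - du * (u - t)) :=
    h2.filter_mono nhdsWithin_le_nhds
  have h4 : ∀ᶠ t in 𝓝[>] (0 : ℝ), t < s := (eventually_lt_nhds hs).filter_mono nhdsWithin_le_nhds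
  have h5 : ∀ᶠ t in 𝓝[>] (0 : ℝ), t < u := (eventually_lt_nhds hu).filter_mono nhdsWithin_le_nhds
  obtain ⟨t, ⟨⟨h6, h7⟩, h8⟩, h9⟩ := (((h3.and h4).and h5).and self_mem_nhdsWithin).exists
  have h10 : 0 < t := h9
  exact ⟨s - t, u - t, h + t, by linarith, by linarith, by linarith, by linarith, by linarith,
    by linarith⟩

section manifold

variable {E : Type u} [NormedAddCommGroup E] [NormedSpace ℝ E] [FiniteDimensional ℝ E]
  {M : Type v} [TopologicalSpace M] [T2Space M] [CompactSpace M] [ConnectedSpace M]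
  [ChartedSpace E M] [IsManifold 𝓘(ℝ, E) ∞ M]

/-- From an iterate in the ambient metric to the statements for `f`. -/
theorem conclude (f : Diffeomorph 𝓘(ℝ, E) 𝓘(ℝ, E) M M 1) {g : M → M} {n : ℕ}
    (hgi : ∀ x, g x = f^[n] x)
    (h1 : ∀ U V : Set M, IsOpen U → U.Nonempty → IsOpen V → V.Nonempty →
      ∃ n : ℕ, (g^[n] '' U ∩ V).Nonempty) : TopTransitive f := by
  intro U W hU hUn hW hWn
  obtain ⟨q, hq⟩ := h1 U W hU hUn hW hWn
  refine ⟨n * q, ?_⟩
  have h3 : g^[q] = f^[n * q] := by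
    rw [Function.iterate_mul]
    congr 1
    funext x
    exact hgi x
  rw [h3] at hq
  exact hq

theorem man_main (hRec : S_REC.{v, 0}) (hDisc : S_DISC.{u, v, 0}) (hEnt : S_ENT.{v})
    (hRate : S_RATE.{u, v, 0}) (hQ : S_QSX.{v})
    (f : Diffeomorph 𝓘(ℝ, E) 𝓘(ℝ, E) M M 1)
    (Es Eu : ∀ x : M, Submodule ℝ (TangentSpace 𝓘(ℝ, E) x)) (hA : IsAnosov f Es Eu)
    (ds du : ℕ) (hds : ∀ x, Module.finrank ℝ (Es x) = ds)
    (hdu : ∀ x, Module.finrank ℝ (Eu x) = du) (s u h : ℝ) (hs : 0 < s) (hu : 0 < u)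
    (h1 : ContractsAt f Es s) (h2 : ContractsAt f.symm Eu u) (hh : topEntropy f ≤ (h : EReal))
    (hlt : (h - ds * s) * (h - du * u) < s * u) :
    TopTransitive f ∧ Dense (Function.periodicPts f) ∧ GPS f.toHomeomorph ∧
      ∃ q : E → M, IsCoveringMap q ∧ Function.Surjective q := by
  obtain ⟨m, e, he, hemb, hinj⟩ := exists_embedding_euclidean_of_compact (I := 𝓘(ℝ, E)) (M := M)
  let _ : MetricSpace M := hemb.isEmbedding.comapMetricSpace e
  have hiso : ∀ x y : M, dist x y = ‖e x - e y‖ := fun x y => dist_eq_norm (e x) (e y)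
  have he1 : ContMDiff 𝓘(ℝ, E) (𝓡 m) 1 e := he.of_le (by simp)
  obtain ⟨s', u', h', hs'0, hs', hu'0, hu', hh', hlt'⟩ := exists_rates hs hu hlt
  obtain ⟨C, Ls, Lu, hE⟩ := hRate E M _ e he1 hinj f Es Eu hA s u hs hu h1 h2
  obtain ⟨K, hK, hang⟩ := hE.angle he1 hinj
  have hC := hE.C_pos
  -- the iterate
  have t0 : ∀ r : ℝ, 0 < r → Tendsto (fun n : ℕ => Real.exp (-r) ^ n) atTop (𝓝 0) := fun r hr =>
    tendsto_pow_atTop_nhds_zero_of_lt_one (Real.exp_pos _).le (by
      rw [Real.exp_lt_one_iff]; linarith)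
  have t1 : ∀ r : ℝ, 0 < r → ∀ᶠ n : ℕ in atTop, K * (C * Real.exp (-r) ^ n) < 1 / 16 := by
    intro r hr
    have := ((t0 r hr).const_mul C).const_mul K
    simp only [mul_zero] at this
    exact (tendsto_order.mp this).2 _ (by norm_num)
  have t2 : ∀ r r' : ℝ, r' < r → ∀ᶠ n : ℕ in atTop,
      C * Real.exp (-r) ^ n < Real.exp (-(r' * n)) := by
    intro r r' hr
    have := (t0 (r - r') (by linarith)).const_mul C
    simp only [mul_zero] at this
    filter_upwards [(tendsto_order.mp this).2 1 one_pos] with n hn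
    have e1 : Real.exp (-r) ^ n = Real.exp (-(r - r')) ^ n * Real.exp (-(r' * n)) := by
      rw [← Real.exp_nat_mul, ← Real.exp_nat_mul, ← Real.exp_add]
      congr 1
      ring
    calc C * Real.exp (-r) ^ n = (C * Real.exp (-(r - r')) ^ n) * Real.exp (-(r' * n)) := by
          rw [e1]; ring
      _ < 1 * Real.exp (-(r' * n)) := mul_lt_mul_of_pos_right hn (Real.exp_pos _)
      _ = _ := one_mul _
  obtain ⟨n, ⟨⟨⟨n1, n2⟩, n3⟩, n4⟩, hn1⟩ := (((((t1 s hs).and (t1 u hu)).and (t2 s s' hs')).and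
    (t2 u u' hu')).and (eventually_ge_atTop 1)).exists
  obtain ⟨S, hg, hSe, hSa, hSb, hVs, hVu⟩ :=
    exists_sys_rates hiso he1 hinj hE K hK hang n n1.le n2.le
  have hnR : (1 : ℝ) ≤ n := by exact_mod_cast hn1
  have hn0 : (0 : ℝ) < n := by linarith
  obtain ⟨c, hLP⟩ := exists_LP S
  obtain ⟨br, δb, hb⟩ := exists_BrP hLP
  obtain ⟨br', δb', hb'⟩ := exists_BrP hLP.symm
  -- entropy
  have hent := hEnt M f.toHomeomorph h (by exact hh) h' hh'
  have hc1 : HCov S.g.symm (h' * n) := by rw [hg]; exact (hent.2.2 n).2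
  have hc2 : HCov S.symm.g.symm (h' * n) := by
    show HCov S.g.symm.symm (h' * n)
    rw [Homeomorph.symm_symm, hg]
    exact (hent.2.2 n).1
  -- dimensions
  have dimS : ∀ x, Module.finrank ℝ (S.Vs x) = ds := by
    intro x
    rw [hVs, ← hds x]
    exact (LinearEquiv.finrank_eq (Submodule.equivMapOfInjective _ (hinj x) _)).symm
  have dimU : ∀ x, Module.finrank ℝ (S.Vu x) = du := by
    intro x
    rw [hVu, ← hdu x]
    exact (LinearEquiv.finrank_eq (Submodule.equivMapOfInjective _ (hinj x) _)).symm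
  have discS : ∀ η > 0, ∃ r > 0, ∃ D : M → EuclideanSpace ℝ (Fin m) → M,
      Discs S.e S.Vs η r D := by
    intro η hη
    obtain ⟨r, hr, D, hD⟩ := hDisc E M _ e hiso he1 hinj Es η hη
    refine ⟨r, hr, D, ?_⟩
    have : S.Vs = fun x => (Es x).map (dm E e x).toLinearMap := funext hVs
    rw [hSe, this]
    exact hD
  have discU : ∀ η > 0, ∃ r > 0, ∃ D : M → EuclideanSpace ℝ (Fin m) → M,
      Discs S.e S.Vu η r D := by
    intro η hη
    obtain ⟨r, hr, D, hD⟩ := hDisc E M _ e hiso he1 hinj Eu η hη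
    refine ⟨r, hr, D, ?_⟩
    have : S.Vu = fun x => (Eu x).map (dm E e x).toLinearMap := funext hVu
    rw [hSe, this]
    exact hD
  -- the four rates
  set σ₂ := s' * n with hσ₂
  set υ₂ := u' * n with hυ₂
  set σ₁ := max σ₂ (h' * n - (ds - 1) * σ₂) with hσ₁
  set υ₁ := max υ₂ (h' * n - (du - 1) * υ₂) with hυ₁
  have p1 : 0 < σ₂ := by positivity
  have p2 : 0 < υ₂ := by positivity
  have p3 : σ₂ ≤ σ₁ := le_max_left _ _
  have p4 : υ₂ ≤ υ₁ := le_max_left _ _
  have q1 : S.a < Real.exp (-σ₂) := by rw [hSa]; exact n3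
  have q2 : S.symm.a < Real.exp (-υ₂) := by
    show S.b < _
    rw [hSb]; exact n4
  obtain ⟨δ₁, hδ₁, R1⟩ := hRec M _ S c hLP br δb hb ds σ₂ (h' * n) σ₁ dimS q1 hc1 discS
    (p1.trans_le p3) (le_max_right _ _)
  obtain ⟨δ₂, hδ₂, R2⟩ := hRec M _ S.symm c hLP.symm br' δb' hb' du υ₂ (h' * n) υ₁ dimU q2 hc2
    discU (p2.trans_le p4) (le_max_right _ _)
  obtain ⟨δ₃, hδ₃, R3⟩ := loRate S q1 p1.le
  obtain ⟨δ₄, hδ₄, R4⟩ := loRate S.symm q2 p2.le
  set δ := min (min δ₁ δ₂) (min (min δ₃ δ₄) c) with hδ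
  have d0 : 0 < δ := by
    have := hLP.c_pos
    positivity
  have d1 : δ ≤ δ₁ := (min_le_left _ _).trans (min_le_left _ _)
  have d2 : δ ≤ δ₂ := (min_le_left _ _).trans (min_le_right _ _)
  have d3 : δ ≤ δ₃ := (min_le_right _ _).trans ((min_le_left _ _).trans (min_le_left _ _))
  have d4 : δ ≤ δ₄ := (min_le_right _ _).trans ((min_le_left _ _).trans (min_le_right _ _))
  have d5 : δ ≤ c := (min_le_right _ _).trans (min_le_right _ _)
  have cond : (σ₁ - σ₂) * (υ₁ - υ₂) < σ₂ * υ₂ := by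
    have e1 : σ₁ - σ₂ = n * max 0 (h' - ds * s') := by
      rw [hσ₁, max_sub_sub_right σ₂ _ σ₂ |>.symm, sub_self, mul_max_of_nonneg _ _ hn0.le, mul_zero]
      congr 1
      rw [hσ₂]; ring
    have e2 : υ₁ - υ₂ = n * max 0 (h' - du * u') := by
      rw [hυ₁, max_sub_sub_right υ₂ _ υ₂ |>.symm, sub_self, mul_max_of_nonneg _ _ hn0.le, mul_zero]
      congr 1
      rw [hυ₂]; ring
    rw [e1, e2]
    have e3 : (n : ℝ) * n * (max 0 (h' - ds * s') * max 0 (h' - du * u')) <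
        n * n * (s' * u') := mul_lt_mul_of_pos_left hlt' (by positivity)
    calc _ = (n : ℝ) * n * (max 0 (h' - ds * s') * max 0 (h' - du * u')) := by ring
      _ < _ := e3
      _ = _ := by rw [hσ₂, hυ₂]; ring
  have hall := lift_all hLP d0 d5 p1 p3 p2 p4 cond (R1 δ d0 d1) (R3 δ d0 d3) (R2 δ d0 d2)
    (R4 δ d0 d4)
  have : ProperSpace E := FiniteDimensional.proper_real E
  obtain ⟨a1, a2, q₀, hq₀⟩ := abs_main (E' := E) hQ S hLP hall hn1 hg
  have hgi : ∀ x, S.g x = f^[n] x := fun x => by rw [hg]; rfl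
  refine ⟨conclude f hgi a1, fun x => ?_, a2, q₀, hq₀, covering_surj hq₀⟩
  rw [Metric.mem_closure_iff]
  intro ε hε
  obtain ⟨y, N, hN1, hy, hd⟩ := Pool.Agent.H779R2.An.periodic_dense S a1 x ε hε
  refine ⟨y, ⟨n * N, Nat.mul_pos hn1 hN1, ?_⟩, by rwa [dist_comm]⟩
  rw [Function.IsPeriodicPt, Function.IsFixedPt]
  have h3 : S.g^[N] = f^[n * N] := by
    rw [Function.iterate_mul]
    congr 1
    funext x
    exact hgi x
  rw [← h3]
  exact hy

end manifold

end Pool.Agent.N234.CP
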