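import Pool.Agent.N234.CP.Stm

set_option autoImplicit false

/-! REC: the upper rate from the entropy and the lower rate. -/

open Filter Topology Set Metric

namespace Pool.Agent.N234.CP.Rec

open Pool.Agent.H721R2 Pool.Agent.H789R2.AN Pool.Agent.H789R2.GP Pool.Agent.N234.CP

universe v w

section basic

variable {X : Type*} [MetricSpace X]

theorem steps_refl (g : X ≃ₜ X) (δ : ℝ) (x : X) : Steps g δ 0 x x :=
  Chain.refl (R := SR g δ) x

theorem steps_trans {g : X ≃ₜ X} {δ : ℝ} {N M : ℕ} {x y z : X} (h : Steps g δ N x y)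
    (h' : Steps g δ M y z) : Steps g δ (N + M) x z :=
  Chain.trans (R := SR g δ) h h'

theorem steps_mono {g : X ≃ₜ X} {δ δ' : ℝ} {N : ℕ} {x y : X} (h : Steps g δ N x y)
    (hd : δ ≤ δ') : Steps g δ' N x y :=
  Chain.mono (R := SR g δ) (R' := SR g δ') h (fun _ _ hab => hab.mono hd)

theorem steps_SR {g : X ≃ₜ X} {δ : ℝ} {N : ℕ} {x y : X} (h : Steps g δ N x y) :
    SR g (N * δ) x y := by
  obtain ⟨z, h0, h1, h2⟩ := h
  have key : ∀ i ≤ N, SR g (i * δ) x (z i) := by
    intro i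
    induction i with
    | zero =>
      intro _
      rw [h0]
      exact qs_SR_refl g (by simp) x
    | succ i ih =>
      intro hi
      have h3 := qs_SR_add (ih (by omega)) (h2 i (by omega))
      refine h3.mono (le_of_eq ?_)
      push_cast
      ring
  have h4 := key N le_rfl
  rwa [h1] at h4

theorem steps_push {g : X ≃ₜ X} {c : ℝ} (hLP : LP g c) {δ₂ δf : ℝ} (hf : δf ≤ c) {k : ℕ}
    (hk : ∀ j ≥ k, c * (1 / 2 : ℝ) ^ j < δ₂) {N : ℕ} {x y : X} (h : Steps g δf N x y) :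
    Steps g δ₂ N (g^[k] x) (g^[k] y) := by
  refine Chain.map (R := SR g δf) (R' := SR g δ₂) (g^[k]) (fun a b hab j => ?_) h
  rw [← Function.iterate_add_apply, ← Function.iterate_add_apply]
  exact (hLP.cS _ _ (hab.mono hf) (j + k)).trans (hk _ (by omega)).le

theorem pull (g : X ≃ₜ X) (δ : ℝ) (m : ℕ)
    (hsub : ∀ x y : X, SR g δ x y → Steps g δ m (g.symm x) (g.symm y))
    (n : ℕ) (x y : X) (h : SR g δ x y) : Steps g δ (m ^ n) (g.symm^[n] x) (g.symm^[n] y) := by
  induction n with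
  | zero =>
    rw [pow_zero]
    exact Chain.single (R := SR g δ) h
  | succ k ih =>
    rw [Function.iterate_succ_apply', Function.iterate_succ_apply', pow_succ']
    exact Chain.flatten (R := SR g δ) (R' := SR g δ) g.symm hsub ih

/-- Intermediate points along the axes. -/
theorem exists_axis {V : Type*} [NormedAddCommGroup V] [InnerProductSpace ℝ V] {d : ℕ}
    (b : OrthonormalBasis (Fin d) ℝ V) (s : V) : ∃ v : ℕ → V, v 0 = 0 ∧ v d = s ∧
      (∀ i, ‖v i‖ ≤ d * ‖s‖) ∧ ∀ (i : ℕ) (hi : i < d), ∃ a : ℝ, v (i + 1) = v i + a • b ⟨i, hi⟩ := by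
  refine ⟨fun i => ∑ j ∈ Finset.univ.filter (fun j : Fin d => j.val < i),
    (inner ℝ (b j) s : ℝ) • b j, ?_, ?_, ?_, ?_⟩
  · simp
  · have h1 : Finset.univ.filter (fun j : Fin d => j.val < d) = Finset.univ := by
      ext j
      simp
    simp only [h1]
    exact b.sum_repr' s
  · intro i
    refine (norm_sum_le _ _).trans ?_
    have h2 : ∀ j ∈ Finset.univ.filter (fun j : Fin d => j.val < i),
        ‖(inner ℝ (b j) s : ℝ) • b j‖ ≤ ‖s‖ := by
      intro j _
      rw [norm_smul, b.orthonormal.1 j, mul_one]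
      have h3 := norm_inner_le_norm (𝕜 := ℝ) (b j) s
      rwa [b.orthonormal.1 j, one_mul] at h3
    refine (Finset.sum_le_sum h2).trans ?_
    rw [Finset.sum_const, nsmul_eq_mul]
    refine mul_le_mul_of_nonneg_right ?_ (norm_nonneg _)
    have h4 := Finset.card_filter_le (Finset.univ : Finset (Fin d)) (fun j : Fin d => j.val < i)
    rw [Finset.card_univ, Fintype.card_fin] at h4
    exact_mod_cast h4
  · intro i hi
    refine ⟨inner ℝ (b ⟨i, hi⟩) s, ?_⟩
    have h5 : Finset.univ.filter (fun j : Fin d => j.val < i + 1) =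
        insert ⟨i, hi⟩ (Finset.univ.filter (fun j : Fin d => j.val < i)) := by
      ext j
      simp only [Finset.mem_filter, Finset.mem_univ, true_and, Finset.mem_insert, Fin.ext_iff]
      omega
    simp only [h5]
    rw [Finset.sum_insert (by simp), add_comm]

/-- The induction on the time. -/
theorem core (g : X ≃ₜ X) (δf δ' σ₁ A C : ℝ) (d m c₁ : ℕ) (hσ₁ : 0 < σ₁) (hm : 1 ≤ m)
    (hsmall : (2 * d + 1) * Real.exp (-(σ₁ * c₁)) ≤ 1 / 2) (hAm : (m : ℝ) ^ c₁ ≤ A)
    (hAC : 2 * d * |C| ≤ A) (hδ : δ' ≤ δf)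
    (hsub : ∀ x y : X, SR g δ' x y → Steps g δ' m (g.symm x) (g.symm y))
    (hax : ∀ x y : X, SR g δ' x y → ∀ n : ℕ, ∃ z : ℕ → X, z 0 = x ∧
      (∀ i < d, ∃ (N : ℕ) (p p' : X), (N : ℝ) ≤ |C| * Real.exp (σ₁ * n) ∧
        Steps g δf N (g.symm^[n] p) (g.symm^[n] p') ∧
        SR g δ' (g.symm^[c₁] (z i)) (g.symm^[c₁] p) ∧
        SR g δ' (g.symm^[c₁] p') (g.symm^[c₁] (z (i + 1)))) ∧
      SR g δ' (g.symm^[c₁] (z d)) (g.symm^[c₁] y)) :
    ∀ (n : ℕ) (x y : X), SR g δ' x y → ∃ N : ℕ, (N : ℝ) ≤ A * Real.exp (σ₁ * n) ∧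
      Steps g δf N (g.symm^[n] x) (g.symm^[n] y) := by
  have hm1 : (1 : ℝ) ≤ m := by exact_mod_cast hm
  have hA1 : 1 ≤ A := (one_le_pow₀ hm1).trans hAm
  intro n
  induction n using Nat.strong_induction_on with
  | _ n ih =>
  intro x y hxy
  rcases Nat.lt_or_ge n c₁ with hn | hn
  · refine ⟨m ^ n, ?_, steps_mono (pull g δ' m hsub n x y hxy) hδ⟩
    have h1 : (m : ℝ) ^ n ≤ (m : ℝ) ^ c₁ := pow_le_pow_right₀ hm1 hn.le
    have h2 : 1 ≤ Real.exp (σ₁ * n) := Real.one_le_exp (by positivity)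
    have h3 : A * 1 ≤ A * Real.exp (σ₁ * n) := mul_le_mul_of_nonneg_left h2 (by linarith)
    push_cast
    linarith
  · obtain ⟨n', rfl⟩ : ∃ n', n = n' + c₁ := ⟨n - c₁, by omega⟩
    have hc1 : 0 < c₁ := by
      rcases Nat.eq_zero_or_pos c₁ with h | h
      · rw [h] at hsmall
        simp only [Nat.cast_zero, mul_zero, neg_zero, Real.exp_zero, mul_one] at hsmall
        have : (0 : ℝ) ≤ d := Nat.cast_nonneg _
        linarith
      · exact h
    have IH := ih n' (by omega)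
    set E := Real.exp (σ₁ * ((n' + c₁ : ℕ) : ℝ)) with hE
    set B := A * Real.exp (σ₁ * n') with hB
    have hE0 : 0 < E := Real.exp_pos _
    have hB0 : 0 ≤ B := by positivity
    have near : ∀ a b : X, SR g δ' (g.symm^[c₁] a) (g.symm^[c₁] b) → ∃ N : ℕ, (N : ℝ) ≤ B ∧
        Steps g δf N (g.symm^[n' + c₁] a) (g.symm^[n' + c₁] b) := by
      intro a b hab
      obtain ⟨N, h1, h2⟩ := IH _ _ hab
      rw [← Function.iterate_add_apply, ← Function.iterate_add_apply] at h2
      exact ⟨N, h1, h2⟩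
    obtain ⟨z, hz0, hz, hzd⟩ := hax x y hxy (n' + c₁)
    have claim : ∀ i ≤ d, ∃ N : ℕ, (N : ℝ) ≤ i * (|C| * E + 2 * B) ∧
        Steps g δf N (g.symm^[n' + c₁] x) (g.symm^[n' + c₁] (z i)) := by
      intro i
      induction i with
      | zero =>
        intro _
        refine ⟨0, by simp, ?_⟩
        rw [hz0]
        exact steps_refl g δf _
      | succ i ihi =>
        intro hi
        obtain ⟨N, hN, hS⟩ := ihi (by omega)
        obtain ⟨N1, p, p', hN1, hS1, hp, hp'⟩ := hz i (by omega)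
        obtain ⟨N2, hN2, hS2⟩ := near _ _ hp
        obtain ⟨N3, hN3, hS3⟩ := near _ _ hp'
        refine ⟨N + (N2 + (N1 + N3)), ?_,
          steps_trans hS (steps_trans hS2 (steps_trans hS1 hS3))⟩
        push_cast
        have : ((i : ℝ) + 1) * (|C| * E + 2 * B) = i * (|C| * E + 2 * B) + (|C| * E + 2 * B) := by
          ring
        rw [this]
        linarith
    obtain ⟨N, hN, hS⟩ := claim d le_rfl
    obtain ⟨N', hN', hS'⟩ := near _ _ hzd
    refine ⟨N + N', ?_, steps_trans hS hS'⟩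
    have hBE : B = A * E * Real.exp (-(σ₁ * c₁)) := by
      rw [hB, hE, mul_assoc, ← Real.exp_add]
      congr 2
      push_cast
      ring
    have h6 : (2 * d + 1) * B ≤ A * E * (1 / 2) := by
      have h7 : (2 * d + 1) * B = A * E * ((2 * d + 1) * Real.exp (-(σ₁ * c₁))) := by
        rw [hBE]
        ring
      rw [h7]
      exact mul_le_mul_of_nonneg_left hsmall (by positivity)
    have h8 : 2 * d * |C| * E ≤ A * E := mul_le_mul_of_nonneg_right hAC hE0.le
    push_cast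
    have h9 : (d : ℝ) * (|C| * E + 2 * B) + B = (2 * d * |C| * E) / 2 + (2 * d + 1) * B := by ring
    linarith

end basic

theorem main (hL : S_LEG.{v, w}) (h1 : S_G1.{v, w}) : S_REC.{v, w} := by
  intro X _ _ E _ _ _ S c hLP br δ hbr d σ κ σ₁ hd ha hcov hdisc hσ₁ hκ
  have hc0 := hLP.c_pos
  obtain ⟨δ₀, hδ₀, hleg⟩ := hL X E S c hLP br δ hbr d σ κ ha hcov
  -- constants
  set δf := min δ₀ c with hδf
  have hδf0 : 0 < δf := lt_min hδ₀ hc0
  obtain ⟨η₀, hη₀, hleg1⟩ := hleg δf hδf0 (min_le_left _ _)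
  have hK := S.one_le_K
  have hLs := S.one_le_Ls
  set m : ℕ := ⌈4 * S.Ls⌉₊ with hm
  have hmL : 4 * S.Ls ≤ m := Nat.le_ceil _
  have hmR : (1 : ℝ) ≤ m := by linarith
  have hm1 : 1 ≤ m := by exact_mod_cast hmR
  obtain ⟨c₁, hc₁⟩ : ∃ c₁ : ℕ, (2 * d + 1) * Real.exp (-(σ₁ * c₁)) ≤ 1 / 2 := by
    have ht : Tendsto (fun n : ℕ => (2 * (d : ℝ) + 1) * Real.exp (-(σ₁ * n))) atTop (𝓝 0) := by
      have h2 : Tendsto (fun n : ℕ => σ₁ * (n : ℝ)) atTop atTop :=
        tendsto_natCast_atTop_atTop.const_mul_atTop hσ₁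
      have h3 := (Real.tendsto_exp_neg_atTop_nhds_zero.comp h2).const_mul (2 * (d : ℝ) + 1)
      simpa using h3
    obtain ⟨n, hn⟩ := ((tendsto_order.mp ht).2 (1 / 2) (by norm_num)).exists
    exact ⟨n, hn.le⟩
  have hmc : (1 : ℝ) ≤ (m : ℝ) ^ c₁ := one_le_pow₀ hmR
  set η := min η₀ (min (1 / 4) (1 / (16 * S.K * (m : ℝ) ^ c₁))) with hη
  have hden : 0 < 16 * S.K * (m : ℝ) ^ c₁ := by positivity
  have hη0 : 0 < η := lt_min hη₀ (lt_min (by norm_num) (by positivity))
  have hη1 : η ≤ η₀ := min_le_left _ _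
  have hη2 : η ≤ 1 / 4 := (min_le_right _ _).trans (min_le_left _ _)
  have hη3 : 16 * S.K * (m : ℝ) ^ c₁ * η ≤ 1 := by
    have : η ≤ 1 / (16 * S.K * (m : ℝ) ^ c₁) := (min_le_right _ _).trans (min_le_right _ _)
    rw [le_div_iff₀ hden] at this
    linarith
  obtain ⟨r₀, hr₀, D, hD⟩ := hdisc η hη0
  obtain ⟨εa, hεa, contr⟩ := S.contraction_iter (1 / 8) (by linarith [S.a_le])
  set ε₁ := min εa (c / 3) / 2 with hε₁
  have hε₁0 : 0 < ε₁ := by
    have : 0 < min εa (c / 3) := lt_min hεa (by linarith)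
    linarith
  have hε₁a : 2 * ε₁ ≤ εa := by
    have : min εa (c / 3) ≤ εa := min_le_left _ _
    linarith
  obtain ⟨r, hr, hrr₀, hleg2⟩ := hleg1 η r₀ D hη1 hr₀ hD ε₁ hε₁0
  obtain ⟨εc, hεc, cone⟩ := S.coneS' η hη0 (by linarith)
  obtain ⟨r₁, hr₁, hG1⟩ := h1 X E S c hLP br δ hbr
  obtain ⟨δs, hδs, subd⟩ := S.subdivide m hmL
  obtain ⟨β, hβ, hb2⟩ := hbr.b2 ε₁ hε₁0
  have hδ0 := hbr.pos
  -- the small radius
  obtain ⟨δ', hδ'0, hδ'⟩ : ∃ δ' > 0, δ' ≤ δf ∧ δ' ≤ δs ∧ δ' ≤ εa / 4 ∧ δ' ≤ εc ∧ δ' ≤ r₁ ∧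
      2 * (d + 1) * δ' < r ∧ 4 * (d + 1) * δ' < r₁ ∧ 4 * (d + 1) * δ' < β ∧
      4 * (d + 1) * δ' < δ := by
    have hd1 : (0 : ℝ) < 4 * (d + 1) := by positivity
    set R := min (min δf δs) (min (min (εa / 4) εc) (min r₁ (min (min r β) δ))) with hR
    have hR0 : 0 < R := by
      simp only [hR, lt_min_iff]
      exact ⟨⟨hδf0, hδs⟩, ⟨by linarith, hεc⟩, hr₁, ⟨hr, hβ⟩, hδ0⟩
    have q1 : R ≤ δf := (min_le_left _ _).trans (min_le_left _ _)
    have q2 : R ≤ δs := (min_le_left _ _).trans (min_le_right _ _)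
    have q3 : R ≤ εa / 4 := (min_le_right _ _).trans ((min_le_left _ _).trans (min_le_left _ _))
    have q4 : R ≤ εc := (min_le_right _ _).trans ((min_le_left _ _).trans (min_le_right _ _))
    have q5 : R ≤ r₁ := (min_le_right _ _).trans ((min_le_right _ _).trans (min_le_left _ _))
    have q6 : R ≤ min (min r β) δ :=
      (min_le_right _ _).trans ((min_le_right _ _).trans (min_le_right _ _))
    have q7 : R ≤ r := q6.trans ((min_le_left _ _).trans (min_le_left _ _))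
    have q8 : R ≤ β := q6.trans ((min_le_left _ _).trans (min_le_right _ _))
    have q9 : R ≤ δ := q6.trans (min_le_right _ _)
    have e1 : 4 * ((d : ℝ) + 1) * (R / (8 * (d + 1))) = R / 2 := by
      field_simp
      ring
    have e2 : R / (8 * ((d : ℝ) + 1)) ≤ R := by
      apply div_le_self hR0.le
      have : (0 : ℝ) ≤ d := Nat.cast_nonneg _
      linarith
    have e3 : 0 < R / (8 * ((d : ℝ) + 1)) := by positivity
    refine ⟨R / (8 * (d + 1)), e3, e2.trans q1, e2.trans q2, e2.trans q3, e2.trans q4,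
      e2.trans q5, ?_, ?_, ?_, ?_⟩
    · have e4 : 2 * ((d : ℝ) + 1) * (R / (8 * (d + 1))) = R / 2 / 2 := by
        rw [← e1]; ring
      rw [e4]; linarith
    · rw [e1]; linarith
    · rw [e1]; linarith
    · rw [e1]; linarith
  obtain ⟨d1, d2, d3, d4, d5, d6, d7, d8, d9⟩ := hδ'
  have hdR : (0 : ℝ) ≤ d := Nat.cast_nonneg _
  -- near pairs
  obtain ⟨ε, hε, near⟩ : ∃ ε > 0, ∀ x a b : X, SR S.g ε₁ x a → SR S.g ε₁ x b → dist a b ≤ ε →
      SR S.g δ' (S.g.symm^[c₁] a) (S.g.symm^[c₁] b) := by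
    obtain ⟨η', hη', hu⟩ := T1_unif S.g.symm c₁ hδ'0
    refine ⟨min (η' / 2) δ', lt_min (by linarith) hδ'0, fun x a b hxa hxb hab j => ?_⟩
    have hab1 : dist a b < η' := by
      have := hab.trans (min_le_left _ _)
      linarith
    have hab2 : dist a b ≤ δ' := hab.trans (min_le_right _ _)
    rcases le_total j c₁ with hj | hj
    · rw [T1_iter_sub S.g hj, T1_iter_sub S.g hj]
      exact (hu _ (Nat.sub_le _ _) _ _ hab1).le
    · rw [T1_iter_add S.g hj, T1_iter_add S.g hj]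
      have hSR : SR S.g εa a b := by
        have h3 := qs_SR_add hxa.symm' hxb
        exact h3.mono (by linarith)
      have h4 := contr a b hSR (j - c₁)
      have h5 : (1 / 8 : ℝ) ^ (j - c₁) ≤ 1 := pow_le_one₀ (by norm_num) (by norm_num)
      calc _ ≤ (1 / 8 : ℝ) ^ (j - c₁) * dist a b := h4
        _ ≤ 1 * dist a b := mul_le_mul_of_nonneg_right h5 dist_nonneg
        _ ≤ δ' := by linarith
  obtain ⟨C, hC⟩ := hleg2 ε hε
  set A := max ((m : ℝ) ^ c₁) (2 * d * |C|) with hA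
  -- discs
  have hDd : ∀ (x : X) (u : E), u ∈ S.Vs x → ‖u‖ < r → dist x (D x u) ≤ 2 * ‖u‖ := by
    intro x u hu hur
    have h3 := (hD x).2 u hu 0 (Submodule.zero_mem _) (lt_of_lt_of_le hur hrr₀) (by
      rw [norm_zero]; exact hr₀)
    rw [(hD x).1, sub_zero] at h3
    rw [dist_comm, S.isom]
    have h4 := norm_add_le (S.e (D x u) - S.e x - u) u
    rw [sub_add_cancel] at h4
    have h5 : η * ‖u‖ ≤ 1 * ‖u‖ := mul_le_mul_of_nonneg_right (by linarith) (norm_nonneg _)
    linarith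
  have hcore : ∀ (n : ℕ) (x y : X), SR S.g δ' x y → ∃ N : ℕ, (N : ℝ) ≤ A * Real.exp (σ₁ * n) ∧
      Steps S.g δf N (S.g.symm^[n] x) (S.g.symm^[n] y) := by
    refine core S.g δf δ' σ₁ A C d m c₁ hσ₁ hm1 hc₁ (le_max_left _ _) (le_max_right _ _) d1
      (fun x y hxy => subd δ' hδ'0 d2 x y hxy) ?_
    intro x y hxy n
    have hxyd : dist x y ≤ δ' := hxy 0
    obtain ⟨s, hs, hs1⟩ := cone x y (hxy.mono d4)
    have hse : ‖S.e y - S.e x‖ = dist x y := by rw [dist_comm, S.isom]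
    have hs2 : ‖s‖ ≤ 2 * dist x y := by
      have h3 := norm_sub_le (S.e y - S.e x) (S.e y - S.e x - s)
      rw [sub_sub_cancel, hse] at h3
      have h4 : 2 * η * dist x y ≤ 1 * dist x y :=
        mul_le_mul_of_nonneg_right (by linarith) dist_nonneg
      linarith
    have hs3 : ‖s‖ ≤ 2 * δ' := by linarith
    let b : OrthonormalBasis (Fin d) ℝ (S.Vs x) :=
      (stdOrthonormalBasis ℝ (S.Vs x)).reindex (finCongr (hd x))
    obtain ⟨vv, hv0, hvd, hvn, hvs⟩ := exists_axis b (⟨s, hs⟩ : S.Vs x)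
    have hvn' : ∀ i, ‖vv i‖ ≤ 2 * d * δ' := by
      intro i
      refine (hvn i).trans ?_
      have h3 : ‖(⟨s, hs⟩ : S.Vs x)‖ = ‖s‖ := rfl
      rw [h3]
      calc (d : ℝ) * ‖s‖ ≤ d * (2 * δ') := mul_le_mul_of_nonneg_left hs3 hdR
        _ = _ := by ring
    have hvr : ∀ i, ‖vv i‖ < r := by
      intro i
      refine (hvn' i).trans_lt ?_
      nlinarith
    have hdz : ∀ i, dist x (D x (vv i : E)) ≤ 4 * d * δ' := by
      intro i
      have h3 := hDd x (vv i : E) (vv i).2 (hvr i)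
      have h4 : ‖(vv i : E)‖ = ‖vv i‖ := rfl
      rw [h4] at h3
      have h5 := hvn' i
      linarith
    have hzSR : ∀ i, SR S.g ε₁ x (br x (D x (vv i : E))) := by
      intro i
      refine (hb2 x _ ((hdz i).trans_lt ?_)).1
      nlinarith
    refine ⟨fun i => br x (D x (vv i : E)), ?_, ?_, ?_⟩
    · show br x (D x (vv 0 : E)) = x
      rw [hv0]
      have h3 : ((0 : S.Vs x) : E) = 0 := rfl
      rw [h3, (hD x).1]
      exact (hbr.b3 x x x (by rw [dist_self]; exact hδ0) (qs_SR_refl _ (by linarith) x)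
        (qs_SR_refl _ (by linarith) x)).symm
    · intro i hi
      obtain ⟨t, ht⟩ := hvs i hi
      have h3 : ‖vv i + t • b ⟨i, hi⟩‖ < r := by
        rw [← ht]
        exact hvr _
      obtain ⟨N, p, p', hN, hSt, hp, hp', hpz, hpz'⟩ := hC n x b ⟨i, hi⟩ t (vv i) (hvr i) h3
      rw [← ht] at hpz'
      refine ⟨N, p, p', ?_, hSt, ?_, ?_⟩
      · refine hN.trans ?_
        have h4 : Real.exp ((κ - (d - 1) * σ) * n) ≤ Real.exp (σ₁ * n) :=
          Real.exp_le_exp.mpr (mul_le_mul_of_nonneg_right hκ (Nat.cast_nonneg _))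
        calc C * Real.exp ((κ - (d - 1) * σ) * n) ≤ |C| * Real.exp ((κ - (d - 1) * σ) * n) :=
              mul_le_mul_of_nonneg_right (le_abs_self _) (Real.exp_pos _).le
          _ ≤ _ := mul_le_mul_of_nonneg_left h4 (abs_nonneg _)
      · exact near x _ _ (hzSR i) hp (by rw [dist_comm]; exact hpz)
      · exact near x _ _ hp' (hzSR (i + 1)) hpz'
    · show SR S.g δ' (S.g.symm^[c₁] (br x (D x (vv d : E)))) (S.g.symm^[c₁] y)
      rw [hvd]
      have hsv : ‖s‖ < r := by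
        refine hs3.trans_lt ?_
        nlinarith
      have h3 : ((⟨s, hs⟩ : S.Vs x) : E) = s := rfl
      rw [h3]
      have hds := hDd x s hs hsv
      have hds1 : dist x (D x s) < r₁ := by
        have : 4 * δ' ≤ 4 * (d + 1) * δ' := by nlinarith
        linarith
      have hdy : dist (D x s) y ≤ 4 * η * δ' := by
        have h4 := (hD x).2 s hs 0 (Submodule.zero_mem _) (lt_of_lt_of_le hsv hrr₀) (by
          rw [norm_zero]; exact hr₀)
        rw [(hD x).1, sub_zero] at h4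
        rw [S.isom]
        have e1 : S.e (D x s) - S.e y = (S.e (D x s) - S.e x - s) - (S.e y - S.e x - s) := by abel
        rw [e1]
        have h5 := norm_sub_le (S.e (D x s) - S.e x - s) (S.e y - S.e x - s)
        have h6 : η * ‖s‖ ≤ η * (2 * δ') := mul_le_mul_of_nonneg_left hs3 hη0.le
        have h7 : 2 * η * dist x y ≤ 2 * η * δ' :=
          mul_le_mul_of_nonneg_left hxyd (by positivity)
        linarith
      have hzy := hG1 x y (D x s) (hxy.mono d5) hds1
      set z := br x (D x s) with hz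
      set t := 16 * S.K * η * δ' with ht
      have ht0 : 0 < t := by positivity
      have hmt : (m : ℝ) ^ c₁ * t ≤ δ' := by
        have : (m : ℝ) ^ c₁ * t = (16 * S.K * (m : ℝ) ^ c₁ * η) * δ' := by rw [ht]; ring
        rw [this]
        nlinarith
      have htδ : t ≤ δ' := by nlinarith
      have hzt : dist z y ≤ t := by
        refine hzy.trans ?_
        calc 4 * S.K * dist (D x s) y ≤ 4 * S.K * (4 * η * δ') :=
              mul_le_mul_of_nonneg_left hdy (by positivity)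
          _ = t := by rw [ht]; ring
      have hzSR' : SR S.g εa z y := by
        have h4 : SR S.g ε₁ x z := by
          have := hzSR d
          rw [hvd] at this
          exact this
        exact (qs_SR_add h4.symm' hxy).mono (by linarith)
      have hzyt : SR S.g t z y := by
        intro k
        have h4 := contr z y hzSR' k
        have h5 : (1 / 8 : ℝ) ^ k ≤ 1 := pow_le_one₀ (by norm_num) (by norm_num)
        calc _ ≤ (1 / 8 : ℝ) ^ k * dist z y := h4
          _ ≤ 1 * dist z y := mul_le_mul_of_nonneg_right h5 dist_nonneg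
          _ ≤ t := by linarith
      have hst := pull S.g t m (fun x y hxy => subd t ht0 (htδ.trans d2) x y hxy) c₁ z y hzyt
      refine (steps_SR hst).mono ?_
      push_cast
      exact hmt
  -- conclusion
  refine ⟨δ', hδ'0, fun δ₁ hδ₁ hδ₁' => ?_⟩
  obtain ⟨k, hk⟩ := qs_exists_pow hc0 hδ₁
  refine ⟨A * Real.exp (σ₁ * k), fun x y hxy n => ?_⟩
  obtain ⟨N, hN, hS⟩ := hcore (n + k) x y (hxy.mono hδ₁')
  refine ⟨N, hN.trans (le_of_eq ?_), ?_⟩
  · rw [mul_assoc, ← Real.exp_add]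
    congr 2
    push_cast
    ring
  · have h3 := steps_push hLP (min_le_right _ _) hk hS
    have h4 : ∀ w : X, S.g^[k] (S.g.symm^[n + k] w) = S.g.symm^[n] w := by
      intro w
      rw [T1_iter_sub S.g (by omega), Nat.add_sub_cancel]
    rwa [h4, h4] at h3

end Pool.Agent.N234.CP.Rec
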