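import Pool.Agent.N234.CP.Cls

set_option autoImplicit false
set_option linter.unusedSectionVars false

/-! Unstable steps slide along a growing stable chain: corners of long paths. -/

open Filter Topology Set Metric unitInterval

namespace Pool.Agent.N234.CP

open Pool.Agent.H789R2.AN Pool.Agent.H789R2.GP Pool.Agent.Y330.J

variable {X : Type*} [MetricSpace X] [CompactSpace X] {g : X ≃ₜ X} {c : ℝ}

theorem ws_of_down {x y : X} {k : ℕ} (h : WS g (g.symm^[k] x) (g.symm^[k] y)) : WS g x y := by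
  have := (WS.iter (g := g) k).2 h
  rwa [iterR, iterR] at this

theorem ws_of_up {x y : X} {m : ℕ} (h : WS g.symm (g^[m] x) (g^[m] y)) : WS g.symm x y := by
  have := (WS.iter (g := g.symm) m).2 h
  rwa [iterL, iterL] at this

theorem sr_up {δ : ℝ} {x y : X} {k m : ℕ} (h : SR g δ (g.symm^[k] x) (g.symm^[k] y)) :
    SR g δ (g^[m] x) (g^[m] y) := by
  have h1 := SR.iter h (m + k)
  rw [Function.iterate_add_apply, Function.iterate_add_apply, iterR, iterR] at h1
  exact h1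

/-- the state of the construction -/
def St (g : X ≃ₜ X) (k m : ℕ) (δ₁ ρ : ℝ) (j L : ℕ) {x z : X}
    (γ : Path.Homotopic.Quotient x z) : Prop :=
  ∃ (y : X) (p b b' : ℕ → X) (α : Path.Homotopic.Quotient x y) (β : Path.Homotopic.Quotient y z),
    p 0 = y ∧ p L = z ∧ Scl g.symm α ∧ Scl g β ∧ γ = α.trans β ∧
    (∃ i ≤ j, Steps g.symm δ₁ i (g^[m] x) (g^[m] (p 0))) ∧
    ∀ l < L, SR g δ₁ (g.symm^[k] (p l)) (g.symm^[k] (p (l + 1))) ∧
      SR g ρ (g.symm^[k] (b l)) (g.symm^[k] (b' l)) ∧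
      (∃ i ≤ j, Steps g.symm δ₁ i (g^[m] (b l)) (g^[m] (p l))) ∧
      ∃ i ≤ j, Steps g.symm δ₁ i (g^[m] (b' l)) (g^[m] (p (l + 1)))

/-- the constants of the construction -/
structure Fr (g : X ≃ₜ X) (c : ℝ) (br : X → X → X) (δb δ₁ ρ η : ℝ) (k m J Lm : ℕ) : Prop where
  hb : BrP g c br δb
  hδ₁ : 3 * δ₁ ≤ c
  hρ0 : 0 ≤ ρ
  hρδ : ρ ≤ δ₁
  hρη : 2 * ρ < η
  hη : η ≤ δb
  b2 : ∀ x y, dist x y < η → SR g δ₁ x (br x y) ∧ SR g.symm δ₁ y (br x y)
  gap : ∀ x y, SR g c x y → dist x y ≤ 3 * ρ → SR g δ₁ x y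
  CS : ∀ i ≤ Lm, ∀ x y, Steps g δ₁ i (g.symm^[k] x) (g.symm^[k] y) → SR g ρ (g^[m] x) (g^[m] y)
  CU : ∀ j ≤ J, ∀ x y, Steps g.symm δ₁ j (g^[m] x) (g^[m] y) →
    SR g.symm ρ (g.symm^[k] x) (g.symm^[k] y)
  sq : ∀ {a b d e : X}
    {α : Path.Homotopic.Quotient a b} {β : Path.Homotopic.Quotient b d}
    {β' : Path.Homotopic.Quotient a e} {α' : Path.Homotopic.Quotient e d},
    Scl g α → Scl g.symm β → Scl g.symm β' → Scl g α' →
    SR g δ₁ (g^[m] a) (g^[m] b) → SR g.symm δ₁ (g^[m] b) (g^[m] d) →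
    SR g.symm δ₁ (g^[m] a) (g^[m] e) → SR g δ₁ (g^[m] e) (g^[m] d) →
    α.trans β = β'.trans α'

theorem steps_zero (g : X ≃ₜ X) (δ : ℝ) (x : X) : Steps g δ 0 x x :=
  ⟨fun _ => x, rfl, rfl, fun i hi => absurd hi (Nat.not_lt_zero i)⟩

theorem St.init (g : X ≃ₜ X) (k m : ℕ) (δ₁ ρ : ℝ) (x : X) :
    St g k m δ₁ ρ 0 0 (Path.Homotopic.Quotient.refl x) :=
  ⟨x, fun _ => x, fun _ => x, fun _ => x, _, _, rfl, rfl, Scl.refl g.symm x, Scl.refl g x, by
    rw [Path.Homotopic.Quotient.refl_trans], ⟨0, le_rfl, steps_zero _ _ _⟩,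
    fun l hl => absurd hl (Nat.not_lt_zero l)⟩

theorem St.mono {k m : ℕ} {δ₁ ρ : ℝ} {j j' L : ℕ} {x z : X} {γ : Path.Homotopic.Quotient x z}
    (h : St g k m δ₁ ρ j L γ) (hj : j ≤ j') : St g k m δ₁ ρ j' L γ := by
  obtain ⟨y, p, b, b', α, β, h1, h2, h3, h4, h5, ⟨i, hi, h6⟩, h7⟩ := h
  refine ⟨y, p, b, b', α, β, h1, h2, h3, h4, h5, ⟨i, hi.trans hj, h6⟩, fun l hl => ?_⟩
  obtain ⟨a1, a2, ⟨i1, hi1, a3⟩, i2, hi2, a4⟩ := h7 l hl
  exact ⟨a1, a2, ⟨i1, hi1.trans hj, a3⟩, i2, hi2.trans hj, a4⟩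

theorem St.stepS {k m : ℕ} {δ₁ ρ : ℝ} (hρ : ρ ≤ δ₁) {j L : ℕ} {x z w : X}
    {γ : Path.Homotopic.Quotient x z} (h : St g k m δ₁ ρ j L γ)
    {s : Path.Homotopic.Quotient z w} (hs : Scl g s)
    (hzw : SR g ρ (g.symm^[k] z) (g.symm^[k] w)) : St g k m δ₁ ρ j (L + 1) (γ.trans s) := by
  obtain ⟨y, p, b, b', α, β, h1, h2, h3, h4, h5, h6, h7⟩ := h
  refine ⟨y, fun i => if i ≤ L then p i else w, fun i => if i < L then b i else z,
    fun i => if i < L then b' i else w, α, β.trans s, by simp [h1], by simp, h3, h4.trans hs, ?_,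
    ?_, fun l hl => ?_⟩
  · rw [h5, Path.Homotopic.Quotient.trans_assoc]
  · beta_reduce
    rw [if_pos (Nat.zero_le L)]
    exact h6
  · beta_reduce
    rcases Nat.lt_or_ge l L with h8 | h8
    · rw [if_pos h8.le, if_pos (by omega : l + 1 ≤ L), if_pos h8, if_pos h8]
      exact h7 l h8
    · obtain rfl : l = L := by omega
      rw [if_pos le_rfl, if_neg (by omega), if_neg (lt_irrefl _), if_neg (lt_irrefl _), h2]
      exact ⟨hzw.mono hρ, hzw, ⟨0, Nat.zero_le _, steps_zero _ _ _⟩, 0, Nat.zero_le _,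
        steps_zero _ _ _⟩

theorem St.stepU (hg : LP g c) (hX : ULC X) {br : X → X → X} {δb δ₁ ρ η : ℝ} {k m J Lm : ℕ}
    (F : Fr g c br δb δ₁ ρ η k m J Lm) {j L : ℕ} (hj : j + 1 ≤ J) (hL : L ≤ Lm) {x z w : X}
    {γ : Path.Homotopic.Quotient x z} (h : St g k m δ₁ ρ j L γ)
    {υ : Path.Homotopic.Quotient z w} (hυ : Scl g.symm υ)
    (hzw : SR g.symm ρ (g^[m] z) (g^[m] w)) : St g k m δ₁ ρ (j + 1) L (γ.trans υ) := by
  obtain ⟨y, p, b, b', α, β, h1, h2, h3, h4, h5, ⟨i₀, hi₀, h6⟩, h7⟩ := h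
  have hc := hg.c_pos
  have hρ0 := F.hρ0
  have hδ1c := F.hδ₁
  have hρδ := F.hρδ
  have hρη := F.hρη
  have hη := F.hη
  -- the points are close to `w`
  have hchain : ∀ i ≤ L, Steps g δ₁ (L - i) (g.symm^[k] (p i)) (g.symm^[k] z) := fun i hi =>
    ⟨fun t => g.symm^[k] (p (i + t)), by simp, by
      show g.symm^[k] (p (i + (L - i))) = _
      rw [show i + (L - i) = L by omega, h2], fun t ht => by
      have := (h7 (i + t) (by omega)).1
      rwa [Nat.add_assoc] at this⟩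
  have hd : ∀ i ≤ L, dist (g^[m] w) (g^[m] (p i)) < η := by
    intro i hi
    have a1 : dist (g^[m] (p i)) (g^[m] z) ≤ ρ :=
      F.CS (L - i) (by omega) _ _ (hchain i hi) 0
    have a2 : dist (g^[m] z) (g^[m] w) ≤ ρ := hzw 0
    have a3 := dist_triangle (g^[m] (p i)) (g^[m] z) (g^[m] w)
    rw [dist_comm]
    linarith
  set q : ℕ → X := fun i => g.symm^[m] (br (g^[m] w) (g^[m] (p i))) with hq
  have hqm : ∀ i, g^[m] (q i) = br (g^[m] w) (g^[m] (p i)) := fun i => iterR g m _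
  have hu : ∀ i ≤ L, SR g.symm δ₁ (g^[m] (p i)) (g^[m] (q i)) := fun i hi => by
    rw [hqm]
    exact (F.b2 _ _ (hd i hi)).2
  have hv : ∀ i ≤ L, SR g δ₁ (g^[m] w) (g^[m] (q i)) := fun i hi => by
    rw [hqm]
    exact (F.b2 _ _ (hd i hi)).1
  have hqL : q L = w := by
    have a1 : dist (g^[m] w) (g^[m] z) < δb := by
      have := hd L le_rfl
      rw [h2] at this
      linarith
    have a2 := F.hb.b3 (g^[m] w) (g^[m] z) (g^[m] w) a1 (qs_SR_refl _ (by linarith) _)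
      (hzw.mono (by linarith))
    show g.symm^[m] (br (g^[m] w) (g^[m] (p L))) = w
    rw [h2, ← a2, iterL]
  -- the births
  have hb1 : ∀ l < L, ∃ i ≤ j + 1, Steps g.symm δ₁ i (g^[m] (b l)) (g^[m] (q l)) := by
    intro l hl
    obtain ⟨-, -, ⟨i, hi, a3⟩, -⟩ := h7 l hl
    exact ⟨i + 1, by omega, a3.snoc (hu l hl.le)⟩
  have hb2 : ∀ l < L, ∃ i ≤ j + 1, Steps g.symm δ₁ i (g^[m] (b' l)) (g^[m] (q (l + 1))) := by
    intro l hl
    obtain ⟨-, -, -, i, hi, a3⟩ := h7 l hl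
    exact ⟨i + 1, by omega, a3.snoc (hu (l + 1) hl)⟩
  -- the new stable steps
  have hs : ∀ l < L, SR g δ₁ (g.symm^[k] (q l)) (g.symm^[k] (q (l + 1))) := by
    intro l hl
    apply F.gap
    · intro t
      have e1 : ∀ a : X, g^[m + k] (g.symm^[k] a) = g^[m] a := fun a => by
        rw [Function.iterate_add_apply, iterR]
      rcases le_total t (m + k) with ht | ht
      · have e2 : ∀ a : X, g^[t] (g.symm^[k] a) = g.symm^[m + k - t] (g^[m] a) := by
          intro a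
          have : g^[m] a = g^[m + k - t] (g^[t] (g.symm^[k] a)) := by
            rw [← Function.iterate_add_apply, Nat.sub_add_cancel ht, e1]
          rw [this, iterL]
        have a1 := hu l hl.le (m + k - t)
        have a2 := hu (l + 1) hl (m + k - t)
        have a3 := (h7 l hl).1 t
        rw [e2, e2] at a3 ⊢
        have a4 := dist_triangle4 (g.symm^[m + k - t] (g^[m] (q l)))
          (g.symm^[m + k - t] (g^[m] (p l))) (g.symm^[m + k - t] (g^[m] (p (l + 1))))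
          (g.symm^[m + k - t] (g^[m] (q (l + 1))))
        rw [dist_comm (g.symm^[m + k - t] (g^[m] (q l)))
          (g.symm^[m + k - t] (g^[m] (p l)))] at a4
        linarith
      · have e2 : ∀ a : X, g^[t] (g.symm^[k] a) = g^[t - (m + k)] (g^[m] a) := by
          intro a
          rw [← e1 a, ← Function.iterate_add_apply, Nat.sub_add_cancel ht]
        rw [e2, e2]
        have a1 := hv l hl.le (t - (m + k))
        have a2 := hv (l + 1) hl (t - (m + k))
        have a3 := dist_triangle_left (g^[t - (m + k)] (g^[m] (q l)))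
          (g^[t - (m + k)] (g^[m] (q (l + 1)))) (g^[t - (m + k)] (g^[m] w))
        linarith
    · obtain ⟨i, hi, a1⟩ := hb1 l hl
      obtain ⟨i', hi', a2⟩ := hb2 l hl
      have a3 : dist (g.symm^[k] (b l)) (g.symm^[k] (q l)) ≤ ρ := F.CU i (by omega) _ _ a1 0
      have a4 : dist (g.symm^[k] (b' l)) (g.symm^[k] (q (l + 1))) ≤ ρ :=
        F.CU i' (by omega) _ _ a2 0
      have a5 : dist (g.symm^[k] (b l)) (g.symm^[k] (b' l)) ≤ ρ := (h7 l hl).2.1 0
      have a6 := dist_triangle4 (g.symm^[k] (q l)) (g.symm^[k] (b l)) (g.symm^[k] (b' l))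
        (g.symm^[k] (q (l + 1)))
      rw [dist_comm (g.symm^[k] (q l)) (g.symm^[k] (b l))] at a6
      linarith
  -- asymptotic pairs
  have wu : ∀ i ≤ L, WS g.symm (p i) (q i) := fun i hi =>
    ws_of_up (m := m) (WS.of_SR (hg.cU _ _ ((hu i hi).mono (by linarith))))
  have wp : ∀ l < L, WS g (p l) (p (l + 1)) := fun l hl =>
    ws_of_down (k := k) (WS.of_SR (hg.cS _ _ ((h7 l hl).1.mono (by linarith))))
  have wq : ∀ l < L, WS g (q l) (q (l + 1)) := fun l hl =>
    ws_of_down (k := k) (WS.of_SR (hg.cS _ _ ((hs l hl).mono (by linarith))))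
  have wpz : ∀ i ≤ L, WS g (p i) z := fun i hi =>
    ws_of_down (k := k) ((hchain i hi).ws hg (by linarith))
  have wqw : ∀ i ≤ L, WS g (q i) w := fun i hi => by
    have : WS g (g^[m] (q i)) (g^[m] w) :=
      (WS.of_SR (hg.cS _ _ ((hv i hi).mono (by linarith)))).symm'
    exact (WS.iter m).1 this
  -- the classes
  have base : ∀ z' w' : X, z' = z → w' = w → ∀ (s : Path.Homotopic.Quotient z' z)
      (u : Path.Homotopic.Quotient z' w') (s' : Path.Homotopic.Quotient w' w),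
      Scl g s → Scl g.symm u → Scl g s' → s.trans υ = u.trans s' := by
    rintro z' w' rfl rfl s u s' a1 a2 a3
    rw [a1.unique hX (Scl.refl g _), a3.unique hX (Scl.refl g _), a2.unique hX hυ,
      Path.Homotopic.Quotient.refl_trans, Path.Homotopic.Quotient.trans_refl]
  have main : ∀ d ≤ L, ∀ (s : Path.Homotopic.Quotient (p (L - d)) z)
      (u : Path.Homotopic.Quotient (p (L - d)) (q (L - d)))
      (s' : Path.Homotopic.Quotient (q (L - d)) w),
      Scl g s → Scl g.symm u → Scl g s' → s.trans υ = u.trans s' := by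
    intro d
    induction d with
    | zero =>
      intro _
      exact base _ _ (by simpa using h2) (by simpa using hqL)
    | succ d ih =>
      intro hd'
      obtain ⟨i, hi⟩ : ∃ i, i = L - (d + 1) := ⟨_, rfl⟩
      rw [← hi]
      intro s u s' a1 a2 a3
      have hi1 : L - d = i + 1 := by omega
      have hiL : i < L := by omega
      rw [hi1] at ih
      obtain ⟨t, ht⟩ := exists_scl hg hX (wp i hiL)
      obtain ⟨t', ht'⟩ := exists_scl hg hX (wq i hiL)
      obtain ⟨s1, hs1⟩ := exists_scl hg hX (wpz (i + 1) hiL)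
      obtain ⟨s1', hs1'⟩ := exists_scl hg hX (wqw (i + 1) hiL)
      obtain ⟨u1, hu1⟩ := exists_scl hg.symm hX (wu (i + 1) hiL)
      have b1 := ih (by omega) s1 u1 s1' hs1 hu1 hs1'
      have b2 : t.trans u1 = u.trans t' := F.sq ht hu1 a2 ht'
        (sr_up (k := k) (h7 i hiL).1) (hu (i + 1) hiL) (hu i hiL.le) (sr_up (k := k) (hs i hiL))
      rw [a1.unique hX (ht.trans hs1), a3.unique hX (ht'.trans hs1'),
        Path.Homotopic.Quotient.trans_assoc, b1, ← Path.Homotopic.Quotient.trans_assoc, b2,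
        Path.Homotopic.Quotient.trans_assoc]
  obtain ⟨u0, hu0⟩ := exists_scl hg.symm hX (wu 0 (Nat.zero_le _))
  obtain ⟨s0, hs0⟩ := exists_scl hg hX (wqw 0 (Nat.zero_le _))
  subst h1
  have h8 := main L le_rfl
  rw [Nat.sub_self] at h8
  have h9 := h8 β u0 s0 h4 hu0 hs0
  refine ⟨q 0, q, b, b', α.trans u0, s0, rfl, hqL, h3.trans hu0, hs0, ?_,
    ⟨i₀ + 1, by omega, h6.snoc (hu 0 (Nat.zero_le _))⟩, fun l hl =>
    ⟨hs l hl, (h7 l hl).2.1, hb1 l hl, hb2 l hl⟩⟩
  rw [h5, Path.Homotopic.Quotient.trans_assoc, h9, ← Path.Homotopic.Quotient.trans_assoc]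

/-- many unstable steps -/
theorem St.stepsU (hg : LP g c) (hX : ULC X) {br : X → X → X} {δb δ₁ ρ η : ℝ} {k m J Lm : ℕ}
    (F : Fr g c br δb δ₁ ρ η k m J Lm) {j L N : ℕ} (hj : j + N ≤ J) (hL : L ≤ Lm) {x z w : X}
    {γ : Path.Homotopic.Quotient x z} (h : St g k m δ₁ ρ j L γ)
    {υ : Path.Homotopic.Quotient z w} (hυ : Scl g.symm υ)
    (hzw : Steps g.symm ρ N (g^[m] z) (g^[m] w)) : St g k m δ₁ ρ (j + N) L (γ.trans υ) := by
  obtain ⟨ζ, z0, zN, hz⟩ := hzw
  have hc := F.hδ₁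
  have hρδ := F.hρδ
  have hρ0 := F.hρ0
  have hd : ∀ i, g^[m] (g.symm^[m] (ζ i)) = ζ i := fun i => iterR g m _
  have key : ∀ i ≤ N, ∀ υ' : Path.Homotopic.Quotient z (g.symm^[m] (ζ i)), Scl g.symm υ' →
      St g k m δ₁ ρ (j + i) L (γ.trans υ') := by
    intro i
    induction i with
    | zero =>
      intro _
      have e : g.symm^[m] (ζ 0) = z := by rw [z0, iterL]
      rw [e]
      intro υ' hυ'
      rw [hυ'.unique hX (Scl.refl g.symm z), Path.Homotopic.Quotient.trans_refl]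
      exact h
    | succ i ih =>
      intro hi υ' hυ'
      have w1 : WS g.symm (g.symm^[m] (ζ i)) (g.symm^[m] (ζ (i + 1))) := by
        apply ws_of_up (m := m)
        rw [hd, hd]
        exact WS.of_SR (hg.cU _ _ ((hz i (by omega)).mono (by linarith)))
      have w2 : ∀ i ≤ N, WS g.symm z (g.symm^[m] (ζ i)) := by
        intro i hi
        apply ws_of_up (m := m)
        rw [hd, ← z0]
        exact (Steps.of_chain hz hi).ws hg.symm (by linarith)
      obtain ⟨s, hs⟩ := exists_scl hg.symm hX w1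
      obtain ⟨s', hs'⟩ := exists_scl hg.symm hX (w2 i (by omega))
      rw [hυ'.unique hX (hs'.trans hs), ← Path.Homotopic.Quotient.trans_assoc, ← Nat.add_assoc]
      refine (ih (by omega) s' hs').stepU hg hX F (by omega) hL hs ?_
      rw [hd, hd]
      exact hz i (by omega)
  have h1 := key N le_rfl
  have e : g.symm^[m] (ζ N) = w := by rw [zN, iterL]
  rw [e] at h1
  exact h1 υ hυ

/-- many stable steps -/
theorem St.stepsS (hg : LP g c) (hX : ULC X) {δ₁ ρ : ℝ} {k m : ℕ} (hρδ : ρ ≤ δ₁)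
    (hδc : δ₁ ≤ c) {j L N : ℕ} {x z w : X}
    {γ : Path.Homotopic.Quotient x z} (h : St g k m δ₁ ρ j L γ)
    {υ : Path.Homotopic.Quotient z w} (hυ : Scl g υ)
    (hzw : Steps g ρ N (g.symm^[k] z) (g.symm^[k] w)) : St g k m δ₁ ρ j (L + N) (γ.trans υ) := by
  obtain ⟨ζ, z0, zN, hz⟩ := hzw
  have hd : ∀ i, g.symm^[k] (g^[k] (ζ i)) = ζ i := fun i => iterL g k _
  have key : ∀ i ≤ N, ∀ υ' : Path.Homotopic.Quotient z (g^[k] (ζ i)), Scl g υ' →
      St g k m δ₁ ρ j (L + i) (γ.trans υ') := by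
    intro i
    induction i with
    | zero =>
      intro _
      have e : g^[k] (ζ 0) = z := by rw [z0, iterR]
      rw [e]
      intro υ' hυ'
      rw [hυ'.unique hX (Scl.refl g z), Path.Homotopic.Quotient.trans_refl]
      exact h
    | succ i ih =>
      intro hi υ' hυ'
      have w1 : WS g (g^[k] (ζ i)) (g^[k] (ζ (i + 1))) := by
        apply ws_of_down (k := k)
        rw [hd, hd]
        exact WS.of_SR (hg.cS _ _ ((hz i (by omega)).mono (by linarith)))
      have w2 : ∀ i ≤ N, WS g z (g^[k] (ζ i)) := by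
        intro i hi
        apply ws_of_down (k := k)
        rw [hd, ← z0]
        exact (Steps.of_chain hz hi).ws hg (by linarith)
      obtain ⟨s, hs⟩ := exists_scl hg hX w1
      obtain ⟨s', hs'⟩ := exists_scl hg hX (w2 i (by omega))
      rw [hυ'.unique hX (hs'.trans hs), ← Path.Homotopic.Quotient.trans_assoc, ← Nat.add_assoc]
      refine (ih (by omega) s' hs').stepS hρδ hs ?_
      rw [hd, hd]
      exact hz i (by omega)
  have h1 := key N le_rfl
  have e : g^[k] (ζ N) = w := by rw [zN, iterR]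
  rw [e] at h1
  exact h1 υ hυ

end Pool.Agent.N234.CP
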