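import Pool.Agent.N234.CP.Base
import Pool.Agent.H721R2.Build
import Pool.Agent.H789R2.GP.QSx

set_option autoImplicit false

/-! Project CP: coarse pinching and an entropy criterion for the transitivity of Anosov
diffeomorphisms.  Statements of the parts. -/

open Filter Topology Set Metric
open scoped Manifold ContDiff

namespace Pool.Agent.N234.CP

open Pool.Agent.H721R2 Pool.Agent.H789R2.AN Pool.Agent.H789R2.GP

universe u v w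

/-- BES: a coarse form of the inequality of Besicovitch. -/
def S_BES : Prop := ∀ (κ : Type u) [Fintype κ] (d : ℕ) (B : κ → Set (Fin d → ℝ)),
  (∀ y, IsClosed (B y)) → (∀ c : Fin d → ℝ, (∀ i, 0 ≤ c i ∧ c i ≤ 1) → ∃ y, c ∈ B y) →
  ∀ (i : Fin d) (ℓ : ℝ), 0 ≤ ℓ → (∀ j, j ≠ i → ∀ N c, CChain B j N c → ℓ ≤ N) →
  ∃ (N : ℕ) (c : ℕ → Fin d → ℝ), CChain B i N c ∧ (N : ℝ) * ℓ ^ (d - 1) ≤ 2 ^ d * Fintype.card κ

/-- DISC: discs tangent to a field of subspaces, in an embedded manifold. -/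
def S_DISC : Prop := ∀ (E₀ : Type u) [NormedAddCommGroup E₀] [NormedSpace ℝ E₀]
  [FiniteDimensional ℝ E₀] (M : Type v) [MetricSpace M] [CompactSpace M] [ChartedSpace E₀ M]
  [IsManifold 𝓘(ℝ, E₀) 1 M] (F : Type w) [NormedAddCommGroup F] [NormedSpace ℝ F] (e : M → F),
  (∀ x y, dist x y = ‖e x - e y‖) → ContMDiff 𝓘(ℝ, E₀) 𝓘(ℝ, F) 1 e →
  (∀ x, Function.Injective (dm E₀ e x)) → ∀ (V : M → Submodule ℝ E₀), ∀ η > 0, ∃ r > 0,
  ∃ D : M → F → M, Discs e (fun x => (V x).map (dm E₀ e x).toLinearMap) η r D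

/-- ENT: dynamical covers from the topological entropy. -/
def S_ENT : Prop := ∀ (M : Type v) [MetricSpace M] [CompactSpace M] (f : M ≃ₜ M) (h : ℝ),
  topEntropy f ≤ (h : EReal) → ∀ h' > h, HCov f h' ∧ HCov f.symm h' ∧
    ∀ n : ℕ, HCov (iterHomeo f n) (h' * n) ∧ HCov (iterHomeo f n).symm (h' * n)

/-- G1: the projection to a local stable set is Lipschitz at the points of this set. -/
def S_G1 : Prop := ∀ (X : Type v) [MetricSpace X] [CompactSpace X] (E : Type w)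
  [NormedAddCommGroup E] [NormedSpace ℝ E] (S : HypSys X E) (c : ℝ), LP S.g c →
  ∀ (br : X → X → X) (δ : ℝ), BrP S.g c br δ →
  ∃ r > 0, ∀ x y q, SR S.g r x y → dist x q < r → dist (br x q) y ≤ 4 * S.K * dist q y

/-- G2: the projection of a disc to a local stable set is uniformly injective. -/
def S_G2 : Prop := ∀ (X : Type v) [MetricSpace X] [CompactSpace X] (E : Type w)
  [NormedAddCommGroup E] [NormedSpace ℝ E] (S : HypSys X E) (c : ℝ), LP S.g c →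
  ∀ (br : X → X → X) (δ : ℝ), BrP S.g c br δ →
  ∃ η₀ > 0, ∀ (η r₀ : ℝ) (D : X → E → X), η ≤ η₀ → 0 < r₀ → Discs S.e S.Vs η r₀ D →
  ∃ r > 0, r ≤ r₀ ∧ ∀ ρ > 0, ∃ τ > 0, ∀ x, ∀ v ∈ S.Vs x, ∀ v' ∈ S.Vs x, ‖v‖ < r → ‖v'‖ < r →
    ρ ≤ ‖v - v'‖ → τ ≤ dist (br x (D x v)) (br x (D x v'))

/-- G4: chains of dynamically close points project to stable chains. -/
def S_G4 : Prop := ∀ (X : Type v) [MetricSpace X] [CompactSpace X] (g : X ≃ₜ X) (c : ℝ),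
  LP g c → ∀ (br : X → X → X) (δ : ℝ), BrP g c br δ → ∀ δ₁ > 0, ∃ r > 0, ∃ θ > 0,
  ∀ (x : X) (N n : ℕ) (q : ℕ → X), (∀ k ≤ N, dist x (q k) < r) →
    (∀ k < N, ∀ j ≤ n, dist (g.symm^[j] (q k)) (g.symm^[j] (q (k + 1))) ≤ 2 * θ) →
    Steps g δ₁ N (g.symm^[n] (br x (q 0))) (g.symm^[n] (br x (q N)))

/-- LEG: short stable chains, long before, between the projections of two points of a disc on a
line parallel to an axis. -/
def S_LEG : Prop := ∀ (X : Type v) [MetricSpace X] [CompactSpace X] (E : Type w)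
  [NormedAddCommGroup E] [InnerProductSpace ℝ E] [FiniteDimensional ℝ E] (S : HypSys X E) (c : ℝ),
  LP S.g c → ∀ (br : X → X → X) (δ : ℝ), BrP S.g c br δ →
  ∀ (d : ℕ) (σ κ : ℝ), S.a < Real.exp (-σ) → HCov S.g.symm κ →
  ∃ δ₀ > 0, ∀ δ₁ : ℝ, 0 < δ₁ → δ₁ ≤ δ₀ → ∃ η₀ > 0, ∀ (η r₀ : ℝ) (D : X → E → X), η ≤ η₀ → 0 < r₀ →
  Discs S.e S.Vs η r₀ D → ∀ ε₁ > 0, ∃ r > 0, r ≤ r₀ ∧ ∀ ε > 0, ∃ C : ℝ, ∀ (n : ℕ) (x : X)
    (b : OrthonormalBasis (Fin d) ℝ (S.Vs x)) (i : Fin d) (a : ℝ) (v : S.Vs x),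
    ‖v‖ < r → ‖v + a • b i‖ < r → ∃ (N : ℕ) (p p' : X),
      (N : ℝ) ≤ C * Real.exp ((κ - (d - 1) * σ) * n) ∧
      Steps S.g δ₁ N (S.g.symm^[n] p) (S.g.symm^[n] p') ∧ SR S.g ε₁ x p ∧ SR S.g ε₁ x p' ∧
      dist p (br x (D x (v : E))) ≤ ε ∧ dist p' (br x (D x ((v + a • b i : S.Vs x) : E))) ≤ ε

/-- REC: the upper rate from the entropy and the lower rate. -/
def S_REC : Prop := ∀ (X : Type v) [MetricSpace X] [CompactSpace X] (E : Type w)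
  [NormedAddCommGroup E] [InnerProductSpace ℝ E] [FiniteDimensional ℝ E] (S : HypSys X E) (c : ℝ),
  LP S.g c → ∀ (br : X → X → X) (δ : ℝ), BrP S.g c br δ →
  ∀ (d : ℕ) (σ κ σ₁ : ℝ), (∀ x, Module.finrank ℝ (S.Vs x) = d) → S.a < Real.exp (-σ) →
  HCov S.g.symm κ → (∀ η > 0, ∃ r > 0, ∃ D : X → E → X, Discs S.e S.Vs η r D) →
  0 < σ₁ → κ - (d - 1) * σ ≤ σ₁ → ∃ δ₀ > 0, ∀ δ₁ : ℝ, 0 < δ₁ → δ₁ ≤ δ₀ → UpRate S.g δ₁ σ₁

/-- RATE: Anosov data in the ambient space with given rates. -/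
def S_RATE : Prop := ∀ (E₀ : Type u) [NormedAddCommGroup E₀] [NormedSpace ℝ E₀]
  [FiniteDimensional ℝ E₀] (M : Type v) [MetricSpace M] [CompactSpace M] [ChartedSpace E₀ M]
  [IsManifold 𝓘(ℝ, E₀) 1 M] (F : Type w) [NormedAddCommGroup F] [NormedSpace ℝ F] (e : M → F),
  ContMDiff 𝓘(ℝ, E₀) 𝓘(ℝ, F) 1 e → (∀ x, Function.Injective (dm E₀ e x)) →
  ∀ (f : Diffeomorph 𝓘(ℝ, E₀) 𝓘(ℝ, E₀) M M 1)
    (Es Eu : ∀ x : M, Submodule ℝ (TangentSpace 𝓘(ℝ, E₀) x)), IsAnosov f Es Eu →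
  ∀ s u : ℝ, 0 < s → 0 < u → ContractsAt f Es s → ContractsAt f.symm Eu u →
  ∃ C Ls Lu : ℝ, EAnosov (E₀ := E₀) e f.toHomeomorph Es Eu C (Real.exp (-s)) (Real.exp (-u)) Ls Lu

/-- QSX: the quadrilateral structure made of strips. -/
def S_QSX : Prop := ∀ (X : Type v) [MetricSpace X] [CompactSpace X] (g : X ≃ₜ X) (c : ℝ),
  LP g c → ULC X → (∀ a s, WS g a s → Lf g a s) →
  ∃ c' > 0, ∃ T : QS g c', (∀ a s u x, T.Q a s u x ↔ QJ g a s u x) ∧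
    (∀ a s u x, T.Q a s u x → T.Q (g a) (g s) (g u) (g x)) ∧
    (∀ a s u x, T.Q a s u x → T.Q (g.symm a) (g.symm s) (g.symm u) (g.symm x))

end Pool.Agent.N234.CP
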