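import Pool.Agent.N234.CP.LiftAll
import Pool.Agent.H721R2.Build

set_option autoImplicit false

/-! Coarse rates in topological form, and their transfer to iterates in a metric. -/

open Filter Topology Set Metric

namespace Pool.Agent.N234.CP

open Pool.Agent.H721R2 Pool.Agent.H789R2.AN Pool.Agent.H789R2.GP

/-- The points `x`, `y` are `𝒰`-close after all `n ≥ 0` iterations of `f`. -/
def StableClose {M : Type*} (f : M → M) (𝒰 : Set (M × M)) (x y : M) : Prop :=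
  ∀ k : ℕ, (f^[k] x, f^[k] y) ∈ 𝒰

/-- `N` stable `𝒰`-steps from `x` to `y`. -/
def StableChain {M : Type*} (f : M → M) (𝒰 : Set (M × M)) (N : ℕ) (x y : M) : Prop :=
  ∃ z : ℕ → M, z 0 = x ∧ z N = y ∧ ∀ i < N, StableClose f 𝒰 (z i) (z (i + 1))

/-- **Coarse contraction.**  `f` contracts the stable sets, in the large, at the exponential rate
`s` at least: for some neighbourhood `𝒰₀` of the diagonal and every neighbourhood `𝒰` of the
diagonal there is a constant `C > 0` such that the end points of a chain of `N` stable `𝒰₀`-steps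
are `𝒰`-close after all iterations `≥ n`, if `C N ≤ exp (s n)`. -/
def CoarseContracts {M : Type*} [TopologicalSpace M] (f : M → M) (s : ℝ) : Prop :=
  ∃ 𝒰₀ ∈ 𝓝ˢ (diagonal M), ∀ 𝒰 ∈ 𝓝ˢ (diagonal M), ∃ C > 0, ∀ (N n : ℕ) (x y : M),
    C * N ≤ Real.exp (s * n) → StableChain f 𝒰₀ N x y →
      StableClose f 𝒰 (f^[n] x) (f^[n] y)

/-- **Coarse expansion.**  `f⁻¹` expands the stable sets, in the large, at the exponential rate `S`
at most: for some neighbourhood `𝒰₀` of the diagonal and every neighbourhood `𝒰` of the diagonal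
there is a constant `C` such that `f⁻ⁿ x` and `f⁻ⁿ y` are joined by at most `C exp (S n)` stable
`𝒰`-steps, if `x` and `y` are stably `𝒰₀`-close. -/
def CoarseExpands {M : Type*} [TopologicalSpace M] (f : M ≃ₜ M) (S : ℝ) : Prop :=
  ∃ 𝒰₀ ∈ 𝓝ˢ (diagonal M), ∀ 𝒰 ∈ 𝓝ˢ (diagonal M), ∃ C : ℝ, ∀ x y : M,
    StableClose f 𝒰₀ x y → ∀ n : ℕ, ∃ N : ℕ, (N : ℝ) ≤ C * Real.exp (S * n) ∧
      StableChain f 𝒰 N (f.symm^[n] x) (f.symm^[n] y)

section

variable {X : Type*} [MetricSpace X] [CompactSpace X]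

theorem diag_mem {𝒰 : Set (X × X)} : 𝒰 ∈ 𝓝ˢ (diagonal X) ↔
    ∃ δ > 0, ∀ x y : X, dist x y < δ → (x, y) ∈ 𝒰 := by
  rw [nhdsSet_diagonal_eq_uniformity, Metric.mem_uniformity_dist]

theorem iterHomeo_iter (f : X ≃ₜ X) (m k : ℕ) (x : X) :
    (iterHomeo f m)^[k] x = f^[m * k] x := by
  have h : (iterHomeo f m : X → X) = f^[m] := rfl
  rw [h, ← Function.iterate_mul]

theorem iterHomeo_symm_iter (f : X ≃ₜ X) (m k : ℕ) (x : X) :
    (iterHomeo f m).symm^[k] x = f.symm^[m * k] x := by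
  have h : ((iterHomeo f m).symm : X → X) = f.symm^[m] := rfl
  rw [h, ← Function.iterate_mul]

/-- stable closeness for an iterate -/
theorem close_of_SR (f : X ≃ₜ X) {m : ℕ} (hm : 1 ≤ m) {𝒰 : Set (X × X)}
    (h𝒰 : 𝒰 ∈ 𝓝ˢ (diagonal X)) : ∃ δ > 0, ∀ x y, SR (iterHomeo f m) δ x y →
      StableClose f 𝒰 x y := by
  obtain ⟨ε, hε, h1⟩ := diag_mem.1 h𝒰
  obtain ⟨δ, hδ, h2⟩ := T1_unif f m hε
  refine ⟨δ / 2, half_pos hδ, fun x y hxy k => h1 _ _ ?_⟩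
  have hk : k = k % m + m * (k / m) := (Nat.mod_add_div k m).symm
  rw [hk, Function.iterate_add_apply, Function.iterate_add_apply, ← iterHomeo_iter,
    ← iterHomeo_iter]
  refine h2 _ (Nat.mod_lt _ (by omega)).le _ _ ?_
  exact lt_of_le_of_lt (hxy (k / m)) (half_lt_self hδ)

theorem SR_of_close (f : X ≃ₜ X) (m : ℕ) {δ : ℝ} {𝒰 : Set (X × X)}
    (h𝒰 : ∀ p ∈ 𝒰, dist p.1 p.2 ≤ δ) {x y : X} (h : StableClose f 𝒰 x y) :
    SR (iterHomeo f m) δ x y := fun k => by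
  rw [iterHomeo_iter, iterHomeo_iter]
  exact h𝒰 _ (h _)

theorem CoarseContracts.loRate {f : X ≃ₜ X} {s : ℝ} (h : CoarseContracts f s) {m : ℕ}
    (hm : 1 ≤ m) : ∃ δ₀ > 0, ∀ δ : ℝ, 0 < δ → δ ≤ δ₀ → LoRate (iterHomeo f m) δ (s * m) := by
  obtain ⟨𝒰₀, h𝒰₀, h1⟩ := h
  obtain ⟨δ₀, hδ₀, h2⟩ := close_of_SR f hm h𝒰₀
  refine ⟨δ₀, hδ₀, fun δ hδ hle => ?_⟩
  obtain ⟨C, hC, h3⟩ := h1 {p | dist p.1 p.2 < δ} (diag_mem.2 ⟨δ, hδ, fun x y h => h⟩)
  refine ⟨C, hC, fun N n x y hN hs => ?_⟩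
  obtain ⟨z, z0, zN, hz⟩ := hs
  have h4 := h3 N (m * n) x y (by
    refine hN.trans (le_of_eq ?_)
    congr 1
    push_cast
    ring) ⟨z, z0, zN, fun i hi => h2 _ _ ((hz i hi).mono hle)⟩
  rw [iterHomeo_iter, iterHomeo_iter]
  exact SR_of_close f m (fun p hp => le_of_lt hp) h4

theorem CoarseExpands.upRate {f : X ≃ₜ X} {S : ℝ} (h : CoarseExpands f S) {m : ℕ}
    (hm : 1 ≤ m) : ∃ δ₀ > 0, ∀ δ : ℝ, 0 < δ → δ ≤ δ₀ → UpRate (iterHomeo f m) δ (S * m) := by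
  obtain ⟨𝒰₀, h𝒰₀, h1⟩ := h
  obtain ⟨δ₀, hδ₀, h2⟩ := close_of_SR f hm h𝒰₀
  refine ⟨δ₀, hδ₀, fun δ hδ hle => ?_⟩
  obtain ⟨C, h3⟩ := h1 {p | dist p.1 p.2 < δ} (diag_mem.2 ⟨δ, hδ, fun x y h => h⟩)
  refine ⟨C, fun x y hxy n => ?_⟩
  obtain ⟨N, hN, z, z0, zN, hz⟩ := h3 x y (h2 _ _ (hxy.mono hle)) (m * n)
  refine ⟨N, ?_, z, ?_, ?_, fun i hi => SR_of_close f m (fun p hp => le_of_lt hp) (hz i hi)⟩
  · refine hN.trans (le_of_eq ?_)
    congr 2
    push_cast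
    ring
  · rw [z0, iterHomeo_symm_iter]
  · rw [zN, iterHomeo_symm_iter]

/-- From the lower rate of an iterate to coarse contraction. -/
theorem coarse_of_loRate {f : X ≃ₜ X} {m : ℕ} (hm : 1 ≤ m) {c : ℝ} (hLP : LP (iterHomeo f m) c)
    {s δ : ℝ} (hs : 0 < s) (hδ : 0 < δ) (hδc : δ ≤ c) (h : LoRate (iterHomeo f m) δ (s * m)) :
    CoarseContracts f s := by
  have hm0 : (0 : ℝ) < m := by exact_mod_cast hm
  refine ⟨{p | dist p.1 p.2 < δ}, diag_mem.2 ⟨δ, hδ, fun x y h => h⟩, fun 𝒰 h𝒰 => ?_⟩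
  obtain ⟨ρ, hρ, h1⟩ := close_of_SR f hm h𝒰
  obtain ⟨C, hC, h2⟩ := h.fine hLP (by positivity) hδc hρ
  refine ⟨C * Real.exp (s * m), by positivity, fun N n x y hN hch => ?_⟩
  obtain ⟨z, z0, zN, hz⟩ := hch
  have hst : Steps (iterHomeo f m) δ N x y :=
    ⟨z, z0, zN, fun i hi => SR_of_close f m (fun p hp => le_of_lt hp) (hz i hi)⟩
  -- `n = m q + r`
  have hn : n = n % m + m * (n / m) := (Nat.mod_add_div n m).symm
  have hr : n % m < m := Nat.mod_lt _ (by omega)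
  have h3 : C * N ≤ Real.exp (s * m * (n / m : ℕ)) := by
    have h4 : C * Real.exp (s * m) * N ≤ Real.exp (s * m * (n / m : ℕ)) * Real.exp (s * m) := by
      refine hN.trans ?_
      rw [← Real.exp_add]
      apply Real.exp_le_exp.mpr
      have h5 : (n : ℝ) ≤ m * (n / m : ℕ) + m := by
        have h6 : n ≤ m * (n / m) + m := by omega
        exact_mod_cast h6
      nlinarith
    have h7 : C * N * Real.exp (s * m) ≤ Real.exp (s * m * (n / m : ℕ)) * Real.exp (s * m) := by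
      calc _ = C * Real.exp (s * m) * N := by ring
        _ ≤ _ := h4
    exact le_of_mul_le_mul_right h7 (Real.exp_pos _)
  have h8 := h1 _ _ (h2 N (n / m) x y h3 hst)
  rw [iterHomeo_iter, iterHomeo_iter] at h8
  intro k
  have h9 := h8 (k + n % m)
  rw [← Function.iterate_add_apply, ← Function.iterate_add_apply] at h9 ⊢
  have e : k + n % m + m * (n / m) = k + n := by omega
  rwa [e] at h9

end

end Pool.Agent.N234.CP
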